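import Pool.Agent.TH188.MG.Glue

/-!
# Semilinear endomorphisms of glued schemes
-/

set_option autoImplicit false

open CategoryTheory CategoryTheory.Limits AlgebraicGeometry

namespace Pool.Agent.TH188.MG

/-- Endomorphisms of two charts, over an endomorphism of the base, compatible with the overlap. -/
structure GEndo {W U V S : Scheme.{0}} (i : W ⟶ U) (j : W ⟶ V) (s : U ⟶ S) (t : V ⟶ S)
    (φ : S ⟶ S) where
  a : U ⟶ U
  b : V ⟶ V
  w : W ⟶ W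
  ca : w ≫ i = i ≫ a
  cb : w ≫ j = j ≫ b
  sa : a ≫ s = s ≫ φ
  sb : b ≫ t = t ≫ φ

section

variable {W U V S : Scheme.{0}} {i : W ⟶ U} {j : W ⟶ V} [IsOpenImmersion i] [IsOpenImmersion j]
  {s : U ⟶ S} {t : V ⟶ S} {φ : S ⟶ S}

/-- The morphism of the glued scheme. -/
noncomputable def GEndo.mor (e : GEndo i j s t φ) : glued i j ⟶ glued i j :=
  gl_desc i j (e.a ≫ gl1 i j) (e.b ≫ gl2 i j) (by
    rw [← Category.assoc, ← Category.assoc, ← e.ca, ← e.cb, Category.assoc, Category.assoc,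
      gl_comm])

lemma GEndo.gl1_mor (e : GEndo i j s t φ) : gl1 i j ≫ e.mor = e.a ≫ gl1 i j :=
  gl1_desc _ _ _ _ _

lemma GEndo.gl2_mor (e : GEndo i j s t φ) : gl2 i j ≫ e.mor = e.b ≫ gl2 i j :=
  gl2_desc _ _ _ _ _

lemma gl_hom_ext {Z : Scheme.{0}} {a b : glued i j ⟶ Z} (h1 : gl1 i j ≫ a = gl1 i j ≫ b)
    (h2 : gl2 i j ≫ a = gl2 i j ≫ b) : a = b := pushout.hom_ext h1 h2

lemma GEndo.mor_str (e : GEndo i j s t φ) (h : i ≫ s = j ≫ t) :
    e.mor ≫ gl_desc i j s t h = gl_desc i j s t h ≫ φ := by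
  apply gl_hom_ext
  · rw [← Category.assoc, e.gl1_mor, Category.assoc, gl1_desc, ← Category.assoc, gl1_desc, e.sa]
  · rw [← Category.assoc, e.gl2_mor, Category.assoc, gl2_desc, ← Category.assoc, gl2_desc, e.sb]

lemma GEndo.mor_comp {φ' : S ⟶ S} (e : GEndo i j s t φ) (e' : GEndo i j s t φ')
    (h1 : e.a ≫ e'.a = 𝟙 _) (h2 : e.b ≫ e'.b = 𝟙 _) : e.mor ≫ e'.mor = 𝟙 _ := by
  apply gl_hom_ext
  · rw [← Category.assoc, e.gl1_mor, Category.assoc, e'.gl1_mor, ← Category.assoc, h1,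
      Category.id_comp, Category.comp_id]
  · rw [← Category.assoc, e.gl2_mor, Category.assoc, e'.gl2_mor, ← Category.assoc, h2,
      Category.id_comp, Category.comp_id]

/-- The square of an invertible endomorphism is cartesian. -/
lemma GEndo.isPullback {φ' : S ⟶ S} (e : GEndo i j s t φ) (e' : GEndo i j s t φ')
    (h : i ≫ s = j ≫ t)
    (h1 : e.a ≫ e'.a = 𝟙 _) (h2 : e.b ≫ e'.b = 𝟙 _) (h1' : e'.a ≫ e.a = 𝟙 _)
    (h2' : e'.b ≫ e.b = 𝟙 _) (h3 : φ ≫ φ' = 𝟙 _) (h3' : φ' ≫ φ = 𝟙 _) :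
    IsPullback e.mor (gl_desc i j s t h) (gl_desc i j s t h) φ := by
  have i1 : IsIso e.mor := ⟨e'.mor, e.mor_comp e' h1 h2, e'.mor_comp e h1' h2'⟩
  have i2 : IsIso φ := ⟨φ', h3, h3'⟩
  exact IsPullback.of_horiz_isIso ⟨e.mor_str h⟩

end

end Pool.Agent.TH188.MG
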