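import Pool.Agent.TH188.MG.Poly
import Pool.Agent.TH188.MG.GEndo

/-!
# Semilinear automorphisms of the hyperelliptic curves
-/

set_option autoImplicit false

open Polynomial CategoryTheory CategoryTheory.Limits AlgebraicGeometry

namespace Pool.Agent.TH188.MG

section ring

variable {R : Type} [CommRing R] {g : ℕ} {f h : R[X]} (H : Rel g f h) (σ : R →+* R) (ν μ : R)
  (hνμ : ν * μ = 1)
  (hf : (yy f) ^ 2 = eval₂ ((algebraMap R (A f)).comp σ) (algebraMap R (A f) ν * xx f) f)
  (hh : (algebraMap R (A h) (μ ^ (g + 1)) * yy h) ^ 2 =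
    eval₂ ((algebraMap R (A h)).comp σ) (algebraMap R (A h) μ * xx h) h)

/-- The map of the first chart. -/
noncomputable def t1 : A f →+* A f :=
  hom f ((algebraMap R (A f)).comp σ) (algebraMap R (A f) ν * xx f) (yy f) hf

/-- The map of the second chart. -/
noncomputable def t2 : A h →+* A h :=
  hom h ((algebraMap R (A h)).comp σ) (algebraMap R (A h) μ * xx h)
    (algebraMap R (A h) (μ ^ (g + 1)) * yy h) hh

lemma t1_alg (r : R) : t1 σ ν hf (algebraMap R (A f) r) = algebraMap R (A f) (σ r) :=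
  hom_alg _ _ _ _ _ _

lemma t1_x : t1 σ ν hf (xx f) = algebraMap R (A f) ν * xx f := hom_x _ _ _ _ _

lemma t1_y : t1 σ ν hf (yy f) = yy f := hom_y _ _ _ _ _

lemma t2_alg (r : R) : t2 σ μ hh (algebraMap R (A h) r) = algebraMap R (A h) (σ r) :=
  hom_alg _ _ _ _ _ _

lemma t2_x : t2 σ μ hh (xx h) = algebraMap R (A h) μ * xx h := hom_x _ _ _ _ _

lemma t2_y : t2 σ μ hh (yy h) = algebraMap R (A h) (μ ^ (g + 1)) * yy h := hom_y _ _ _ _ _

include hνμ in
lemma isUnit_t1 : IsUnit (((algebraMap (A f) (L f)).comp (t1 σ ν hf)) (xx f)) := by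
  rw [RingHom.comp_apply, t1_x, map_mul]
  refine IsUnit.mul ?_ (IsLocalization.Away.algebraMap_isUnit _)
  exact ((IsUnit.of_mul_eq_one _ hνμ).map (algebraMap R (A f))).map (algebraMap (A f) (L f))

/-- The map of the overlap. -/
noncomputable def tL : L f →+* L f :=
  IsLocalization.Away.lift (xx f) (isUnit_t1 σ ν μ hνμ hf)

lemma tL_comp : (tL σ ν μ hνμ hf).comp (algebraMap (A f) (L f)) =
    (algebraMap (A f) (L f)).comp (t1 σ ν hf) :=
  IsLocalization.Away.lift_comp (xx f) (isUnit_t1 σ ν μ hνμ hf)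

lemma tL_alg (z : A f) : tL σ ν μ hνμ hf (algebraMap (A f) (L f) z) =
    algebraMap (A f) (L f) (t1 σ ν hf z) := DFunLike.congr_fun (tL_comp σ ν μ hνμ hf) z

lemma tL_R (r : R) : tL σ ν μ hνμ hf (algebraMap R (L f) r) = algebraMap R (L f) (σ r) := by
  rw [IsScalarTower.algebraMap_apply R (A f) (L f), tL_alg, t1_alg,
    ← IsScalarTower.algebraMap_apply]

lemma tL_xinv : tL σ ν μ hνμ hf (xinv f) = algebraMap R (L f) μ * xinv f := by
  apply ext_xinv
  rw [tL_alg, t1_x, map_mul, ← IsScalarTower.algebraMap_apply]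
  calc algebraMap R (L f) ν * algebraMap (A f) (L f) (xx f) * (algebraMap R (L f) μ * xinv f)
      = (algebraMap R (L f) ν * algebraMap R (L f) μ) *
        (algebraMap (A f) (L f) (xx f) * xinv f) := by ring
    _ = 1 := by rw [x_mul_xinv, ← map_mul, hνμ, map_one, mul_one]

lemma tL_swap : (tL σ ν μ hνμ hf).comp (swap H).toRingHom =
    (swap H).toRingHom.comp (t2 σ μ hh) := by
  have hal : ∀ r : R, (swap H) (algebraMap R (A h) r) = algebraMap R (L f) r :=
    fun r => (swap H).commutes r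
  apply ring_ext
  · apply RingHom.ext
    intro r
    simp only [AlgHom.toRingHom_eq_coe, RingHom.coe_comp, RingHom.coe_coe, Function.comp_apply]
    rw [hal, tL_R, t2_alg, hal]
  · simp only [AlgHom.toRingHom_eq_coe, RingHom.coe_comp, RingHom.coe_coe, Function.comp_apply]
    rw [swap_x, tL_xinv, t2_x, map_mul, hal, swap_x]
  · simp only [AlgHom.toRingHom_eq_coe, RingHom.coe_comp, RingHom.coe_coe, Function.comp_apply]
    rw [swap_y, map_mul, map_pow, tL_xinv, tL_alg, t1_y, t2_y, map_mul, hal, swap_y, mul_pow,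
      map_pow]
    ring

/-- The endomorphism of the charts. -/
noncomputable def gendo : GEndo (j1 f) (j2 H) (st f) (st h) (Spec.map (CommRingCat.ofHom σ)) where
  a := Spec.map (CommRingCat.ofHom (t1 σ ν hf))
  b := Spec.map (CommRingCat.ofHom (t2 σ μ hh))
  w := Spec.map (CommRingCat.ofHom (tL σ ν μ hνμ hf))
  ca := spec_comm (tL_comp σ ν μ hνμ hf)
  cb := spec_comm (tL_swap H σ ν μ hνμ hf hh)
  sa := spec_comm (by
    apply RingHom.ext
    intro r
    exact t1_alg σ ν hf r)
  sb := spec_comm (by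
    apply RingHom.ext
    intro r
    exact t2_alg σ μ hh r)

end ring

end Pool.Agent.TH188.MG
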