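import Pool.Agent.TH188.MG.Ring

/-!
# Base change of the charts
-/

set_option autoImplicit false

open Polynomial CategoryTheory CategoryTheory.Limits AlgebraicGeometry

namespace Pool.Agent.TH188.MG

variable {R R' : Type} [CommRing R] [CommRing R']

/-- The ring homomorphism `A f ⟶ E` given by the images of the constants and of `x`, `y`. -/
noncomputable def hom {E : Type} [CommRing E] (f : R[X]) (ψ : R →+* E) (a b : E)
    (h : b ^ 2 = eval₂ ψ a f) : A f →+* E :=
  letI := ψ.toAlgebra
  (lift f a b h).toRingHom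

lemma hom_alg {E : Type} [CommRing E] (f : R[X]) (ψ : R →+* E) (a b : E)
    (h : b ^ 2 = eval₂ ψ a f) (r : R) : hom f ψ a b h (algebraMap R (A f) r) = ψ r := by
  let _ := ψ.toAlgebra
  exact (lift f a b h).commutes r

lemma hom_x {E : Type} [CommRing E] (f : R[X]) (ψ : R →+* E) (a b : E)
    (h : b ^ 2 = eval₂ ψ a f) : hom f ψ a b h (xx f) = a := by
  let _ := ψ.toAlgebra
  exact lift_x f a b h

lemma hom_y {E : Type} [CommRing E] (f : R[X]) (ψ : R →+* E) (a b : E)
    (h : b ^ 2 = eval₂ ψ a f) : hom f ψ a b h (yy f) = b := by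
  let _ := ψ.toAlgebra
  exact lift_y f a b h

/-- The base change homomorphism. -/
noncomputable def bcA (φ : R →+* R') (f : R[X]) : A f →+* A (f.map φ) :=
  hom f ((algebraMap R' (A (f.map φ))).comp φ) (xx _) (yy _) (by
    rw [rel, aeval_def, eval₂_map])

lemma bcA_alg (φ : R →+* R') (f : R[X]) (r : R) :
    bcA φ f (algebraMap R (A f) r) = algebraMap R' (A (f.map φ)) (φ r) := hom_alg _ _ _ _ _ _

lemma bcA_x (φ : R →+* R') (f : R[X]) : bcA φ f (xx f) = xx _ := hom_x _ _ _ _ _

lemma bcA_y (φ : R →+* R') (f : R[X]) : bcA φ f (yy f) = yy _ := hom_y _ _ _ _ _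

lemma bcA_comp (φ : R →+* R') (f : R[X]) :
    (bcA φ f).comp (algebraMap R (A f)) = (algebraMap R' (A (f.map φ))).comp φ := by
  ext r
  exact bcA_alg φ f r

/-- The base change square of the charts. -/
lemma isPushout_A (φ : R →+* R') (f : R[X]) :
    IsPushout (CommRingCat.ofHom (algebraMap R (A f))) (CommRingCat.ofHom φ)
      (CommRingCat.ofHom (bcA φ f)) (CommRingCat.ofHom (algebraMap R' (A (f.map φ)))) := by
  refine ⟨⟨?_⟩, ⟨PushoutCocone.IsColimit.mk _ (fun s => CommRingCat.ofHom
    (hom (f.map φ) s.inr.hom (s.inl.hom (xx f)) (s.inl.hom (yy f)) ?_)) ?_ ?_ ?_⟩⟩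
  · rw [← CommRingCat.ofHom_comp, ← CommRingCat.ofHom_comp, bcA_comp]
  · have hc : s.inl.hom.comp (algebraMap R (A f)) = s.inr.hom.comp φ :=
      congrArg CommRingCat.Hom.hom s.condition
    rw [← map_pow, rel, eval₂_map, ← hc, aeval_def, hom_eval₂]
  · intro s
    have hc : s.inl.hom.comp (algebraMap R (A f)) = s.inr.hom.comp φ :=
      congrArg CommRingCat.Hom.hom s.condition
    apply CommRingCat.hom_ext
    apply ring_ext
    · ext r
      simp only [CommRingCat.hom_comp, CommRingCat.hom_ofHom, RingHom.coe_comp,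
        Function.comp_apply]
      rw [bcA_alg, hom_alg]
      exact (DFunLike.congr_fun hc r).symm
    · simp only [CommRingCat.hom_comp, CommRingCat.hom_ofHom, RingHom.coe_comp,
        Function.comp_apply]
      rw [bcA_x, hom_x]
    · simp only [CommRingCat.hom_comp, CommRingCat.hom_ofHom, RingHom.coe_comp,
        Function.comp_apply]
      rw [bcA_y, hom_y]
  · intro s
    apply CommRingCat.hom_ext
    ext r
    simp only [CommRingCat.hom_comp, CommRingCat.hom_ofHom, RingHom.coe_comp,
      Function.comp_apply]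
    exact hom_alg _ _ _ _ _ _
  · intro s m h1 h2
    apply CommRingCat.hom_ext
    apply ring_ext
    · have h2' := congrArg CommRingCat.Hom.hom h2
      ext r
      have := DFunLike.congr_fun h2' r
      simp only [CommRingCat.hom_comp, CommRingCat.hom_ofHom, RingHom.coe_comp,
        Function.comp_apply] at this ⊢
      rw [hom_alg]
      exact this
    · have h1' := DFunLike.congr_fun (congrArg CommRingCat.Hom.hom h1) (xx f)
      simp only [CommRingCat.hom_comp, CommRingCat.hom_ofHom, RingHom.coe_comp,
        Function.comp_apply] at h1' ⊢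
      rw [bcA_x] at h1'
      rw [hom_x]
      exact h1'
    · have h1' := DFunLike.congr_fun (congrArg CommRingCat.Hom.hom h1) (yy f)
      simp only [CommRingCat.hom_comp, CommRingCat.hom_ofHom, RingHom.coe_comp,
        Function.comp_apply] at h1' ⊢
      rw [bcA_y] at h1'
      rw [hom_y]
      exact h1'

/-- The base change homomorphism of the localized charts. -/
noncomputable def bcL (φ : R →+* R') (f : R[X]) : L f →+* L (f.map φ) :=
  IsLocalization.Away.lift (xx f) (g := (algebraMap (A (f.map φ)) (L (f.map φ))).comp (bcA φ f)) (by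
    rw [RingHom.comp_apply, bcA_x]
    exact IsLocalization.Away.algebraMap_isUnit _)

lemma bcL_alg (φ : R →+* R') (f : R[X]) (z : A f) :
    bcL φ f (algebraMap (A f) (L f) z) = algebraMap (A (f.map φ)) (L (f.map φ)) (bcA φ f z) :=
  IsLocalization.Away.lift_eq _ _ _

lemma bcL_xinv (φ : R →+* R') (f : R[X]) : bcL φ f (xinv f) = xinv (f.map φ) := by
  have h1 := congrArg (bcL φ f) (x_mul_xinv f)
  rw [map_mul, bcL_alg, bcA_x, map_one] at h1
  have h2 := x_mul_xinv (f.map φ)
  calc bcL φ f (xinv f) = (algebraMap (A (f.map φ)) (L (f.map φ)) (xx _) * xinv (f.map φ)) *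
        bcL φ f (xinv f) := by rw [h2, one_mul]
    _ = xinv (f.map φ) := by rw [mul_right_comm, h1, one_mul]

/-- The base change square of the localized charts, over the charts. -/
lemma isPushout_L (φ : R →+* R') (f : R[X]) :
    IsPushout (CommRingCat.ofHom (algebraMap (A f) (L f))) (CommRingCat.ofHom (bcA φ f))
      (CommRingCat.ofHom (bcL φ f)) (CommRingCat.ofHom (algebraMap (A (f.map φ)) (L (f.map φ)))) := by
  refine ⟨⟨?_⟩, ⟨PushoutCocone.IsColimit.mk _ (fun s => CommRingCat.ofHom
    (IsLocalization.Away.lift (xx (f.map φ)) (g := s.inr.hom) ?_)) ?_ ?_ ?_⟩⟩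
  · apply CommRingCat.hom_ext
    apply RingHom.ext
    intro z
    exact bcL_alg φ f z
  · have hc := DFunLike.congr_fun (congrArg CommRingCat.Hom.hom s.condition) (xx f)
    simp only [CommRingCat.hom_comp, CommRingCat.hom_ofHom, RingHom.coe_comp,
        Function.comp_apply] at hc
    rw [bcA_x] at hc
    rw [← hc]
    exact (IsLocalization.Away.algebraMap_isUnit (S := L f) (xx f)).map _
  · intro s
    apply CommRingCat.hom_ext
    apply lring_ext
    apply RingHom.ext
    intro z
    have hc := DFunLike.congr_fun (congrArg CommRingCat.Hom.hom s.condition) z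
    simp only [CommRingCat.hom_comp, CommRingCat.hom_ofHom, RingHom.coe_comp,
      Function.comp_apply] at hc ⊢
    rw [bcL_alg]
    refine (IsLocalization.Away.lift_eq _ _ _).trans hc.symm
  · intro s
    apply CommRingCat.hom_ext
    apply RingHom.ext
    intro z
    simp only [CommRingCat.hom_comp, CommRingCat.hom_ofHom, RingHom.coe_comp,
      Function.comp_apply]
    exact IsLocalization.Away.lift_eq _ _ _
  · intro s m h1 h2
    apply CommRingCat.hom_ext
    apply lring_ext
    apply RingHom.ext
    intro z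
    have h2' := DFunLike.congr_fun (congrArg CommRingCat.Hom.hom h2) z
    simp only [CommRingCat.hom_comp, CommRingCat.hom_ofHom, RingHom.coe_comp,
      Function.comp_apply] at h2' ⊢
    exact h2'.trans (IsLocalization.Away.lift_eq _ _ _).symm

/-- Base change is compatible with the change of charts. -/
lemma bcL_swap (φ : R →+* R') {g : ℕ} {f h : R[X]} (H : Rel g f h) (z : A h) :
    bcL φ f (swap H z) = swap (H.map φ) (bcA φ h z) := by
  have key : (bcL φ f).comp (swap H).toRingHom = (swap (H.map φ)).toRingHom.comp (bcA φ h) := by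
    apply ring_ext
    · ext r
      simp only [AlgHom.toRingHom_eq_coe, RingHom.coe_comp, RingHom.coe_coe, Function.comp_apply,
        AlgHom.commutes, bcA_alg]
      rw [IsScalarTower.algebraMap_apply R (A f) (L f), bcL_alg, bcA_alg,
        ← IsScalarTower.algebraMap_apply]
    · simp only [AlgHom.toRingHom_eq_coe, RingHom.coe_comp, RingHom.coe_coe, Function.comp_apply]
      rw [swap_x, bcL_xinv, bcA_x, swap_x]
    · simp only [AlgHom.toRingHom_eq_coe, RingHom.coe_comp, RingHom.coe_coe, Function.comp_apply]
      rw [swap_y, map_mul, map_pow, bcL_xinv, bcL_alg, bcA_y, bcA_y, swap_y]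
  exact DFunLike.congr_fun key z

end Pool.Agent.TH188.MG
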