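import Pool.Agent.TH188.MG.Descent

/-!
# The cyclic cover `a^(2g+1) = 1 - b^(2g)` of the affine line
-/

set_option autoImplicit false

open Polynomial CategoryTheory CategoryTheory.Limits AlgebraicGeometry TensorProduct Module

namespace Pool.Agent.TH188.MG

/-- The polynomial `1 - b^(2g)`. -/
noncomputable def rr (g : ℕ) : ℂ[X] := 1 - X ^ (2 * g)

/-- The polynomial `a^(2g+1) - (1 - b^(2g))`. -/
noncomputable def bp (g : ℕ) : ℂ[X][X] := X ^ (2 * g + 1) - C (rr g)

/-- The coordinate ring of the cover. -/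
abbrev B (g : ℕ) : Type := AdjoinRoot (bp g)

/-- The coordinate `a`. -/
noncomputable def ca (g : ℕ) : B g := AdjoinRoot.root (bp g)

/-- The coordinate `b`. -/
noncomputable def cb (g : ℕ) : B g := AdjoinRoot.of (bp g) X

lemma bp_monic (g : ℕ) : (bp g).Monic := monic_X_pow_sub_C _ (by omega)

lemma bp_natDegree (g : ℕ) : (bp g).natDegree = 2 * g + 1 := natDegree_X_pow_sub_C

lemma eval₂_bp (g : ℕ) {E : Type*} [CommRing E] (φ : ℂ[X] →+* E) (b : E) :
    (bp g).eval₂ φ b = b ^ (2 * g + 1) - φ (rr g) := by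
  rw [bp, eval₂_sub, eval₂_pow, eval₂_X, eval₂_C]

lemma ca_pow (g : ℕ) : ca g ^ (2 * g + 1) = AdjoinRoot.of (bp g) (rr g) := by
  have h := AdjoinRoot.eval₂_root (bp g)
  rw [eval₂_bp] at h
  unfold ca
  linear_combination h

lemma of_rr (g : ℕ) : AdjoinRoot.of (bp g) (rr g) = 1 - cb g ^ (2 * g) := by
  rw [rr, map_sub, map_one, map_pow]
  rfl

lemma ca_cb (g : ℕ) : ca g ^ (2 * g + 1) + cb g ^ (2 * g) = 1 := by
  rw [ca_pow, of_rr]
  ring

lemma rr_squarefree (g : ℕ) (hg : 1 ≤ g) : Squarefree (rr g) := by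
  have h1 : (X ^ (2 * g) - C 1 : ℂ[X]).Separable :=
    separable_X_pow_sub_C (1 : ℂ) (by exact_mod_cast (by omega : 2 * g ≠ 0)) one_ne_zero
  have h2 : rr g ∣ (X ^ (2 * g) - C 1) := ⟨-1, by
    rw [rr, map_one]
    ring⟩
  exact Squarefree.squarefree_of_dvd h2 h1.squarefree

lemma rr_not_unit (g : ℕ) : ¬ IsUnit (rr g) := by
  intro hu
  have h1 := hu.map (evalRingHom (1 : ℂ))
  rw [rr] at h1
  simp at h1

lemma bp_irreducible (g : ℕ) (hg : 1 ≤ g) : Irreducible (bp g) := by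
  obtain ⟨p, hp, hpd⟩ := WfDvdMonoid.exists_irreducible_factor (rr_not_unit g)
    (rr_squarefree g hg).ne_zero
  have hpp : (Ideal.span {p} : Ideal ℂ[X]).IsPrime := by
    rw [Ideal.span_singleton_prime hp.ne_zero]
    exact hp.prime
  apply Polynomial.irreducible_of_eisenstein_criterion hpp
  · rw [(bp_monic g).leadingCoeff]
    intro h
    exact hpp.ne_top ((Ideal.eq_top_iff_one _).2 h)
  · intro n hn
    rw [degree_eq_natDegree (bp_monic g).ne_zero, bp_natDegree] at hn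
    have hn' : n < 2 * g + 1 := by exact_mod_cast hn
    unfold bp
    rw [coeff_sub, coeff_X_pow, if_neg (by omega), zero_sub, coeff_C]
    split_ifs
    · exact Ideal.mem_span_singleton.2 ((dvd_neg).2 hpd)
    · simp
  · rw [degree_eq_natDegree (bp_monic g).ne_zero, bp_natDegree]
    exact_mod_cast (by omega : 0 < 2 * g + 1)
  · unfold bp
    rw [coeff_sub, coeff_X_pow, if_neg (by omega), zero_sub, coeff_C_zero]
    rw [Ideal.span_singleton_pow, Ideal.mem_span_singleton, dvd_neg]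
    intro h
    rw [sq] at h
    exact hp.not_isUnit (rr_squarefree g hg p h)
  · exact (bp_monic g).isPrimitive

lemma isDomain_B (g : ℕ) (hg : 1 ≤ g) : IsDomain (B g) :=
  AdjoinRoot.isDomain_of_prime (bp_irreducible g hg).prime

/-- The basis `1, a, ..., a^(2g)`. -/
noncomputable def bB (g : ℕ) : Basis (Fin (2 * g + 1)) ℂ[X] (B g) :=
  (AdjoinRoot.powerBasis' (bp_monic g)).basis.reindex (finCongr (bp_natDegree g))

lemma bB_apply (g : ℕ) (i : Fin (2 * g + 1)) : bB g i = ca g ^ (i : ℕ) := by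
  unfold bB
  rw [Basis.reindex_apply, PowerBasis.basis_eq_pow]
  rfl

lemma free_B (g : ℕ) : Module.Free ℂ[X] (B g) := Module.Free.of_basis (bB g)

lemma ca_ne_zero (g : ℕ) (hg : 1 ≤ g) : ca g ≠ 0 := by
  have := (bB g).ne_zero ⟨1, by omega⟩
  rw [bB_apply] at this
  simpa using this

/-- A primitive root of unity. -/
noncomputable def zt (g : ℕ) : ℂ := Complex.exp (2 * Real.pi * Complex.I / ((2 * g + 1 : ℕ) : ℂ))

lemma zt_prim (g : ℕ) : IsPrimitiveRoot (zt g) (2 * g + 1) :=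
  Complex.isPrimitiveRoot_exp (2 * g + 1) (by omega)

/-- The automorphism `a ↦ z a` of the cover, where `z^(2g+1) = 1`. -/
noncomputable def sz (g : ℕ) (z : ℂ) (hz : z ^ (2 * g + 1) = 1) : B g →ₐ[ℂ[X]] B g :=
  AdjoinRoot.liftAlgHom (bp g) (Algebra.ofId ℂ[X] (B g))
    (algebraMap ℂ (B g) z * ca g) (by
      rw [eval₂_bp, mul_pow, ← map_pow, hz, map_one, one_mul, ca_pow]
      exact sub_self _)

lemma sz_ca (g : ℕ) (z : ℂ) (hz : z ^ (2 * g + 1) = 1) :
    sz g z hz (ca g) = algebraMap ℂ (B g) z * ca g := by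
  unfold sz ca
  exact AdjoinRoot.liftAlgHom_root _ _ _ _

lemma sz_cb (g : ℕ) (z : ℂ) (hz : z ^ (2 * g + 1) = 1) : sz g z hz (cb g) = cb g :=
  (sz g z hz).commutes X

lemma sz_C (g : ℕ) (z : ℂ) (hz : z ^ (2 * g + 1) = 1) (c : ℂ) :
    sz g z hz (algebraMap ℂ (B g) c) = algebraMap ℂ (B g) c := (sz g z hz).commutes (C c)

lemma sz_comp (g : ℕ) (z z' : ℂ) (hz : z ^ (2 * g + 1) = 1) (hz' : z' ^ (2 * g + 1) = 1)
    (h : z * z' = 1) : (sz g z hz).comp (sz g z' hz') = AlgHom.id ℂ[X] (B g) := by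
  apply AdjoinRoot.algHom_ext
  change sz g z hz (sz g z' hz' (ca g)) = ca g
  rw [sz_ca, map_mul, sz_C, sz_ca, ← mul_assoc, ← map_mul, mul_comm z' z, h, map_one, one_mul]

lemma zt_pow (g : ℕ) (i : ℕ) : (zt g ^ i) ^ (2 * g + 1) = 1 := by
  rw [← pow_mul, mul_comm, pow_mul, (zt_prim g).pow_eq_one, one_pow]

/-- The automorphism `a ↦ ζ^i a`. -/
noncomputable def sg (g : ℕ) (i : Fin (2 * g + 1)) : B g →ₐ[ℂ[X]] B g :=
  sz g (zt g ^ (i : ℕ)) (zt_pow g i)

lemma sg_ca (g : ℕ) (i : Fin (2 * g + 1)) :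
    sg g i (ca g) = algebraMap ℂ (B g) (zt g ^ (i : ℕ)) * ca g := sz_ca _ _ _

lemma toPi_injective (g : ℕ) (hg : 1 ≤ g) : Function.Injective (toPi (sg g)) := by
  have hdom := isDomain_B g hg
  rw [injective_iff_map_eq_zero]
  intro z hz
  let TB : Basis (Fin (2 * g + 1)) (B g) (B g ⊗[ℂ[X]] B g) := Algebra.TensorProduct.basis (B g) (bB g)
  have hTB : ∀ k, TB k = 1 ⊗ₜ (ca g ^ (k : ℕ)) := by
    intro k
    rw [← bB_apply]
    exact Algebra.TensorProduct.basis_apply _ _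
  set P : (B g)[X] := ∑ k, C (TB.repr z k) * X ^ (k : ℕ) with hP
  have hev : ∀ i : Fin (2 * g + 1), P.eval (algebraMap ℂ (B g) (zt g ^ (i : ℕ)) * ca g) = 0 := by
    intro i
    have h1 : toPi (sg g) z i = 0 := by rw [hz]; rfl
    rw [← h1, hP, eval_finsetSum]
    conv_rhs => rw [← TB.sum_repr z, map_sum, Finset.sum_apply]
    apply Finset.sum_congr rfl
    intro k _
    rw [hTB, TensorProduct.smul_tmul', smul_eq_mul, mul_one, toPi_tmul, map_pow (sg g i), sg_ca, eval_mul,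
      eval_C, eval_pow, eval_X]
  have hdeg : P.natDegree < Fintype.card (Fin (2 * g + 1)) := by
    rw [Fintype.card_fin, hP]
    refine (natDegree_sum_le_of_forall_le (n := 2 * g) _ _ ?_).trans_lt (by omega)
    intro k _
    exact (natDegree_C_mul_X_pow_le _ _).trans (by omega)
  have hinj : Function.Injective (fun i : Fin (2 * g + 1) =>
      algebraMap ℂ (B g) (zt g ^ (i : ℕ)) * ca g) := by
    intro i j hij
    have h2 := mul_right_cancel₀ (ca_ne_zero g hg) hij
    have h3 := (algebraMap ℂ (B g)).injective h2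
    exact Fin.ext ((zt_prim g).pow_inj i.2 j.2 h3)
  have hP0 := eq_zero_of_natDegree_lt_card_of_eval_eq_zero P hinj hev hdeg
  have hc : ∀ k : Fin (2 * g + 1), TB.repr z k = 0 := by
    intro k
    have h4 : P.coeff (k : ℕ) = TB.repr z k := by
      rw [hP, finsetSum_coeff, Finset.sum_eq_single k]
      · simp
      · intro j _ hj
        rw [coeff_C_mul_X_pow, if_neg]
        intro h5
        exact hj (Fin.ext h5.symm)
      · intro h5
        exact absurd (Finset.mem_univ _) h5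
    rw [← h4, hP0, coeff_zero]
  have : TB.repr z = 0 := Finsupp.ext hc
  exact (LinearEquiv.map_eq_zero_iff TB.repr).1 this

end Pool.Agent.TH188.MG
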