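import Mathlib

/-!
# Smooth projective curves of genus `g`, and the coarse moduli space
-/

set_option autoImplicit false

open AlgebraicGeometry CategoryTheory CategoryTheory.Limits

namespace Pool.Agent.TH188.MG

/-- For ring homomorphisms `u : P →+* T`, `v : Q →+* T` and `s : k →+* T`, where `k` is a field: the
`k`-vector space `T / (u(P) + v(Q))` is finite-dimensional of dimension `g`. (The quotient is by the
`k`-linear span of the union of the images of `u` and `v`.) -/
def CokerDim {k P Q T : Type} [Field k] [CommRing P] [CommRing Q] [CommRing T] (s : k →+* T)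
    (u : P →+* T) (v : Q →+* T) (g : ℕ) : Prop :=
  letI : Algebra k T := s.toAlgebra
  Module.Finite k (T ⧸ Submodule.span k (Set.range u ∪ Set.range v)) ∧
    Module.finrank k (T ⧸ Submodule.span k (Set.range u ∪ Set.range v)) = g

/-- The arithmetic genus of a curve `X` over a field `k` is `g`: the scheme `X` is covered by two
affine open subschemes `Spec P` and `Spec Q` whose intersection is affine, equal to `Spec T`, and
the first Čech cohomology group `T / (P + Q)` of the structure sheaf for this cover has dimension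
`g` over `k`. -/
def HasGenus {X : Scheme.{0}} {k : Type} [Field k] (π : X ⟶ Spec (CommRingCat.of k)) (g : ℕ) :
    Prop :=
  ∃ (P Q T : Type) (_ : CommRing P) (_ : CommRing Q) (_ : CommRing T)
    (i : Spec (CommRingCat.of P) ⟶ X) (j : Spec (CommRingCat.of Q) ⟶ X)
    (u : P →+* T) (v : Q →+* T) (s : k →+* T),
    IsOpenImmersion i ∧ IsOpenImmersion j ∧ (∀ x : X, x ∈ Set.range i ∨ x ∈ Set.range j) ∧
    IsPullback (Spec.map (CommRingCat.ofHom u)) (Spec.map (CommRingCat.ofHom v)) i j ∧
    Spec.map (CommRingCat.ofHom u) ≫ i ≫ π = Spec.map (CommRingCat.ofHom s) ∧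
    CokerDim s u v g

/-- `π : X ⟶ S` is a family of smooth projective curves of genus `g` over the scheme `S`: a proper
morphism, smooth of relative dimension one, all of whose geometric fibres are connected and of
genus `g`. -/
structure IsCurveFamily (g : ℕ) {X S : Scheme.{0}} (π : X ⟶ S) : Prop where
  smooth : SmoothOfRelativeDimension 1 π
  proper : IsProper π
  fibre : ∀ (K : Type) [Field K] [IsAlgClosed K] (s : Spec (CommRingCat.of K) ⟶ S)
    (Y : Scheme.{0}) (c : Y ⟶ X) (q : Y ⟶ Spec (CommRingCat.of K)), IsPullback c q π s →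
    ConnectedSpace Y ∧ HasGenus q g

/-- A natural transformation from the moduli functor of smooth projective curves of genus `g` over
`ℂ`-schemes to the functor of points of the `ℂ`-scheme `M`: to each family of curves over a
`ℂ`-scheme `S` belongs a morphism `S ⟶ M` of `ℂ`-schemes, and this is compatible with base
change (and with isomorphisms of families, which are base changes along an identity). -/
structure ModuliMap (g : ℕ) {M : Scheme.{0}} (s : M ⟶ Spec (CommRingCat.of ℂ)) where
  /-- the morphism given by a family -/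
  map : ∀ {X S : Scheme.{0}} (π : X ⟶ S) (_ : S ⟶ Spec (CommRingCat.of ℂ)),
    IsCurveFamily g π → (S ⟶ M)
  map_str : ∀ {X S : Scheme.{0}} (π : X ⟶ S) (t : S ⟶ Spec (CommRingCat.of ℂ))
    (h : IsCurveFamily g π), map π t h ≫ s = t
  natural : ∀ {X S X' S' : Scheme.{0}} (π : X ⟶ S) (t : S ⟶ Spec (CommRingCat.of ℂ))
    (h : IsCurveFamily g π) (π' : X' ⟶ S') (h' : IsCurveFamily g π') (c : X' ⟶ X) (φ : S' ⟶ S),
    IsPullback c π' π φ → map π' (φ ≫ t) h' = φ ≫ map π t h

/-- The `ℂ`-scheme `M` with the transformation `Φ` is the coarse moduli space of smooth projective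
curves of genus `g` over `ℂ`: it is separated and locally of finite type over `ℂ`, its
`ℂ`-points are, through `Φ`, the isomorphism classes of curves over `ℂ`, and `Φ` is universal
among all transformations to `ℂ`-schemes. -/
structure IsCoarseModuliSpace (g : ℕ) {M : Scheme.{0}} (s : M ⟶ Spec (CommRingCat.of ℂ))
    (Φ : ModuliMap g s) : Prop where
  separated : IsSeparated s
  finiteType : LocallyOfFiniteType s
  injective : ∀ {X Y : Scheme.{0}} (p : X ⟶ Spec (CommRingCat.of ℂ))
    (q : Y ⟶ Spec (CommRingCat.of ℂ)) (hp : IsCurveFamily g p) (hq : IsCurveFamily g q),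
    Φ.map p (𝟙 _) hp = Φ.map q (𝟙 _) hq → ∃ e : X ≅ Y, e.hom ≫ q = p
  surjective : ∀ x : Spec (CommRingCat.of ℂ) ⟶ M, x ≫ s = 𝟙 _ →
    ∃ (X : Scheme.{0}) (p : X ⟶ Spec (CommRingCat.of ℂ)) (hp : IsCurveFamily g p),
      Φ.map p (𝟙 _) hp = x
  universal : ∀ {N : Scheme.{0}} (t : N ⟶ Spec (CommRingCat.of ℂ)) (Ψ : ModuliMap g t),
    ∃! r : M ⟶ N, r ≫ t = s ∧ ∀ {X S : Scheme.{0}} (π : X ⟶ S)
      (u : S ⟶ Spec (CommRingCat.of ℂ)) (h : IsCurveFamily g π), Φ.map π u h ≫ r = Ψ.map π u h

end Pool.Agent.TH188.MG
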