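import Mathlib

/-!
# Descent of morphisms along a quotient by a finite group
-/

set_option autoImplicit false

open CategoryTheory CategoryTheory.Limits AlgebraicGeometry TensorProduct

namespace Pool.Agent.TH188.MG

lemma isDominant_of_injective {P Q : Type} [CommRing P] [CommRing Q] (φ : P →+* Q)
    (h : Function.Injective φ) : IsDominant (Spec.map (CommRingCat.ofHom φ)) := by
  refine ⟨?_⟩
  have h1 : DenseRange (PrimeSpectrum.comap φ) := by
    rw [PrimeSpectrum.denseRange_comap_iff_ker_le_nilRadical]
    rw [(RingHom.injective_iff_ker_eq_bot φ).1 h]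
    exact bot_le
  exact h1

variable {R B : Type} [CommRing R] [CommRing B] [Algebra R B] {ι : Type} (σ : ι → (B →ₐ[R] B))

/-- The map `b ⊗ b' ↦ (b σ_i(b'))_i`. -/
noncomputable def toPi : B ⊗[R] B →+* (ι → B) :=
  RingHom.pi (fun i => (Algebra.TensorProduct.lift (AlgHom.id R B) (σ i)
    (fun _ _ => Commute.all _ _)).toRingHom)

lemma toPi_apply (z : B ⊗[R] B) (i : ι) : toPi σ z i =
    Algebra.TensorProduct.lift (AlgHom.id R B) (σ i) (fun _ _ => Commute.all _ _) z := rfl

lemma toPi_tmul (b b' : B) (i : ι) : toPi σ (b ⊗ₜ b') i = b * σ i b' := by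
  rw [toPi_apply, Algebra.TensorProduct.lift_tmul]
  rfl

lemma comp_eq {P Q T : Type} [CommRing P] [CommRing Q] [CommRing T] (a : P →+* Q)
    (b : Q →+* T) : Spec.map (CommRingCat.ofHom b) ≫ Spec.map (CommRingCat.ofHom a) =
      Spec.map (CommRingCat.ofHom (b.comp a)) := by
  rw [← Spec.map_comp, ← CommRingCat.ofHom_comp]

/-- A morphism to a separated scheme, invariant under the automorphisms `σ i`, descends. -/
theorem descend [Finite ι] (hinj : Function.Injective (toPi σ)) [IsReduced B]
    [Module.FaithfullyFlat R B] {M S : Scheme.{0}} (s : M ⟶ S) [IsSeparated s]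
    (t : Spec (CommRingCat.of R) ⟶ S) (m : Spec (CommRingCat.of B) ⟶ M)
    (hm : m ≫ s = Spec.map (CommRingCat.ofHom (algebraMap R B)) ≫ t)
    (hσ : ∀ i, Spec.map (CommRingCat.ofHom (σ i).toRingHom) ≫ m = m) :
    ∃ u : Spec (CommRingCat.of R) ⟶ M,
      Spec.map (CommRingCat.ofHom (algebraMap R B)) ≫ u = m ∧ u ≫ s = t := by
  have hff : (algebraMap R B).FaithfullyFlat :=
    RingHom.faithfullyFlat_algebraMap_iff.2 inferInstance
  have hfs := (AlgebraicGeometry.flat_and_surjective_SpecMap_iff
    (CommRingCat.ofHom (algebraMap R B))).2 hff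
  have := hfs.1
  have := hfs.2
  have hre := isRegularEpi_of_flat_of_surjective_of_isAffine
    (Spec.map (CommRingCat.ofHom (algebraMap R B)))
  have hpb := isPullback_SpecMap_of_isPushout _ _ _ _ (CommRingCat.isPushout_tensorProduct R B B)
  set inl : B →+* B ⊗[R] B := Algebra.TensorProduct.includeLeftRingHom with hinl
  set inr : B →+* B ⊗[R] B := Algebra.TensorProduct.includeRight.toRingHom with hinr
  have hpi : ∀ i, ((Pi.evalRingHom (fun _ : ι => B) i).comp (toPi σ)).comp inl = RingHom.id B := by
    intro i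
    ext b
    simp only [RingHom.comp_apply, Pi.evalRingHom_apply, RingHom.id_apply]
    rw [hinl, Algebra.TensorProduct.includeLeftRingHom_apply, toPi_tmul, map_one, mul_one]
  have hpr : ∀ i, ((Pi.evalRingHom (fun _ : ι => B) i).comp (toPi σ)).comp inr =
      (σ i).toRingHom := by
    intro i
    ext b
    simp only [RingHom.comp_apply, Pi.evalRingHom_apply]
    rw [hinr]
    change toPi σ (1 ⊗ₜ b) i = σ i b
    rw [toPi_tmul, one_mul]
  have hagree : Spec.map (CommRingCat.ofHom inl) ≫ m = Spec.map (CommRingCat.ofHom inr) ≫ m := by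
    have hred : IsReduced (B ⊗[R] B) := isReduced_of_injective (toPi σ) hinj
    have hdom := isDominant_of_injective (toPi σ) hinj
    have hred' : AlgebraicGeometry.IsReduced (Spec (CommRingCat.of (B ⊗[R] B))) := inferInstance
    refine ext_of_isDominant_of_isSeparated s ?_ (Spec.map (CommRingCat.ofHom (toPi σ))) ?_
    · rw [Category.assoc, Category.assoc, hm, ← Category.assoc, ← Category.assoc]
      congr 1
      exact hpb.w
    · rw [← cancel_epi (sigmaSpec (fun _ : ι => CommRingCat.of B))]
      apply Sigma.hom_ext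
      intro i
      have e1 : Sigma.ι (fun _ : ι => Spec (CommRingCat.of B)) i ≫
          sigmaSpec (fun _ : ι => CommRingCat.of B) =
          Spec.map (CommRingCat.ofHom (Pi.evalRingHom (fun _ : ι => B) i)) := ι_sigmaSpec _ i
      have key : ∀ c : B →+* B ⊗[R] B,
          Sigma.ι (fun _ : ι => Spec (CommRingCat.of B)) i ≫
          sigmaSpec (fun _ : ι => CommRingCat.of B) ≫ Spec.map (CommRingCat.ofHom (toPi σ)) ≫
            Spec.map (CommRingCat.ofHom c) ≫ m =
          Spec.map (CommRingCat.ofHom
            (((Pi.evalRingHom (fun _ : ι => B) i).comp (toPi σ)).comp c)) ≫ m := by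
        intro c
        rw [← Category.assoc, e1, ← Category.assoc (Spec.map (CommRingCat.ofHom (toPi σ))),
          ← Category.assoc, comp_eq, comp_eq]
      refine (key inl).trans (Eq.trans ?_ (key inr).symm)
      rw [hpi, hpr, hσ]
      exact (congrArg (· ≫ m) (Spec.map_id _)).trans (Category.id_comp m)
  obtain ⟨u, hu⟩ := IsRegularEpi.exists_of_isKernelPair
    (Spec.map (CommRingCat.ofHom (algebraMap R B))) hpb m hagree
  refine ⟨u, hu, ?_⟩
  have : Epi (Spec.map (CommRingCat.ofHom (algebraMap R B))) := inferInstance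
  rw [← cancel_epi (Spec.map (CommRingCat.ofHom (algebraMap R B))), ← Category.assoc, hu, hm]

end Pool.Agent.TH188.MG
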