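import Pool.Agent.TH188.MG.Fibre

/-!
# The genus of the curves
-/

set_option autoImplicit false

open Polynomial CategoryTheory CategoryTheory.Limits AlgebraicGeometry Module

namespace Pool.Agent.TH188.MG

section lin

variable {K M ι : Type*} [Field K] [AddCommGroup M] [Module K M]

lemma finrank_quot (b : Basis ι K M) (I : Set ι) (hI : Iᶜ.Finite) :
    Module.Finite K (M ⧸ Submodule.span K (b '' I)) ∧
      finrank K (M ⧸ Submodule.span K (b '' I)) = Iᶜ.ncard := by
  classical
  have := hI.fintype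
  let φ : M →ₗ[K] (↥Iᶜ → K) := LinearMap.pi (fun i => b.coord i)
  have hker : LinearMap.ker φ = Submodule.span K (b '' I) := by
    ext m
    rw [b.mem_span_image, LinearMap.mem_ker]
    constructor
    · intro h i hi
      by_contra hcon
      have h1 := congrFun h ⟨i, hcon⟩
      exact (Finsupp.mem_support_iff.1 hi) h1
    · intro h
      funext i
      by_contra hcon
      exact i.2 (h (Finsupp.mem_support_iff.2 hcon))
  have hsurj : Function.Surjective φ := by
    intro v
    refine ⟨∑ j, v j • b j, ?_⟩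
    funext i
    change b.repr (∑ j, v j • b j) i = v i
    rw [map_sum, Finsupp.finsetSum_apply, Finset.sum_eq_single i]
    · simp
    · intro j _ hj
      rw [map_smul, Basis.repr_self, Finsupp.smul_apply, Finsupp.single_eq_of_ne, smul_zero]
      intro h
      exact hj (Subtype.ext h.symm)
    · intro h
      exact absurd (Finset.mem_univ _) h
  have e := φ.quotKerEquivOfSurjective hsurj
  rw [← hker]
  refine ⟨Module.Finite.equiv e.symm, ?_⟩
  rw [e.finrank_eq, Module.finrank_fintype_fun_eq_card, Set.ncard_eq_toFinset_card', Set.toFinset_card]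

end lin

section ring

variable {K : Type} [Field K] (f : K[X])

/-- The basis `1, y` over `K[x]`. -/
noncomputable def bA : Basis (Fin 2) K[X] (A f) :=
  (AdjoinRoot.powerBasis' (pol_monic f)).basis.reindex (finCongr (natDegree_pol f))

lemma bA_apply (i : Fin 2) : bA f i = yy f ^ (i : ℕ) := by
  unfold bA
  rw [Basis.reindex_apply, PowerBasis.basis_eq_pow]
  rfl

lemma span_A : Submodule.span K (Set.range fun p : ℕ × Fin 2 => xx f ^ p.1 * yy f ^ (p.2 : ℕ)) = ⊤ := by
  let b : Basis (ℕ × Fin 2) K (A f) := (Polynomial.basisMonomials K).smulTower (bA f)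
  have hb : (fun p : ℕ × Fin 2 => xx f ^ p.1 * yy f ^ (p.2 : ℕ)) = b := by
    funext p
    rw [Basis.smulTower_apply, bA_apply, Polynomial.coe_basisMonomials, Algebra.smul_def]
    congr 1
    have : (monomial p.1 1 : K[X]) = X ^ p.1 := by
      rw [← X_pow_eq_monomial]
    change _ = algebraMap K[X] (A f) (monomial p.1 1)
    rw [this, map_pow]
    rfl
  rw [hb, b.span_eq]

variable {f}
variable {B : Type} [CommRing B] [Algebra K B]

lemma range_eq_span (r : A f →ₐ[K] B) :
    LinearMap.range r.toLinearMap =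
      Submodule.span K (Set.range fun p : ℕ × Fin 2 => r (xx f) ^ p.1 * r (yy f) ^ (p.2 : ℕ)) := by
  rw [← Submodule.map_top, ← span_A, Submodule.map_span, ← Set.range_comp]
  congr 2
  funext p
  simp

variable [Algebra (A f) B] [IsScalarTower K (A f) B] [IsLocalization.Away (xx f) B]

lemma exists_basis (u : Bˣ) (hu : (u : B) = algebraMap (A f) B (xx f)) :
    ∃ b : Basis (ℤ × Fin 2) K B, ∀ p, b p = ((u ^ p.1 : Bˣ) : B) *
      (algebraMap (A f) B (yy f)) ^ (p.2 : ℕ) := by
  let i1 : Algebra K[X] B := ((algebraMap (A f) B).comp (algebraMap K[X] (A f))).toAlgebra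
  have t1 : IsScalarTower K[X] (A f) B := IsScalarTower.of_algebraMap_eq (fun r => rfl)
  let i2 : Algebra (LaurentPolynomial K) B := (LaurentPolynomial.eval₂ (algebraMap K B) u).toAlgebra
  have t2 : IsScalarTower K[X] (LaurentPolynomial K) B := by
    apply IsScalarTower.of_algebraMap_eq'
    apply Polynomial.ringHom_ext
    · intro a
      change algebraMap (A f) B (algebraMap K[X] (A f) (C a)) =
        LaurentPolynomial.eval₂ (algebraMap K B) u (Polynomial.toLaurent (C a))
      rw [LaurentPolynomial.eval₂_toLaurent, eval₂_C, IsScalarTower.algebraMap_apply K (A f) B]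
      rfl
    · change algebraMap (A f) B (algebraMap K[X] (A f) X) =
        LaurentPolynomial.eval₂ (algebraMap K B) u (Polynomial.toLaurent X)
      rw [LaurentPolynomial.eval₂_toLaurent, eval₂_X, hu]
      rfl
  have t3 : IsScalarTower K (LaurentPolynomial K) B := by
    apply IsScalarTower.of_algebraMap_eq
    intro a
    change _ = LaurentPolynomial.eval₂ (algebraMap K B) u (LaurentPolynomial.C a)
    rw [LaurentPolynomial.eval₂_C]
  have l1 : IsLocalization (Algebra.algebraMapSubmonoid (A f) (Submonoid.powers (X : K[X]))) B := by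
    rw [Algebra.algebraMapSubmonoid_powers]
    exact inferInstanceAs (IsLocalization.Away (xx f) B)
  let bL : Basis (Fin 2) (LaurentPolynomial K) B :=
    (bA f).localizationLocalization (LaurentPolynomial K) (Submonoid.powers (X : K[X])) B
  refine ⟨(AddMonoidAlgebra.basis ℤ K).smulTower bL, fun p => ?_⟩
  rw [Basis.smulTower_apply, Basis.localizationLocalization_apply, bA_apply,
    AddMonoidAlgebra.basis_apply, Algebra.smul_def, map_pow]
  congr 1
  change LaurentPolynomial.eval₂ (algebraMap K B) u (LaurentPolynomial.T p.1) = _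
  rw [LaurentPolynomial.eval₂_T]

/-- The computation of the Čech cohomology. -/
theorem cech {h : K[X]} (g : ℕ) (u : Bˣ) (hu : (u : B) = algebraMap (A f) B (xx f))
    (r : A h →ₐ[K] B)
    (h1 : r (xx h) = ((u⁻¹ : Bˣ) : B))
    (h2 : r (yy h) = algebraMap (A f) B (yy f) * ((u⁻¹ : Bˣ) : B) ^ (g + 1)) :
    Module.Finite K (B ⧸ (LinearMap.range r.toLinearMap ⊔
      LinearMap.range (IsScalarTower.toAlgHom K (A f) B).toLinearMap)) ∧
    finrank K (B ⧸ (LinearMap.range r.toLinearMap ⊔
      LinearMap.range (IsScalarTower.toAlgHom K (A f) B).toLinearMap)) = g := by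
  obtain ⟨b, hb⟩ := exists_basis (f := f) u hu
  have key : ∀ (n i : ℕ), ((u⁻¹ : Bˣ) : B) ^ n *
      (algebraMap (A f) B (yy f) * ((u⁻¹ : Bˣ) : B) ^ (g + 1)) ^ i =
      ((u ^ (-(n + (g + 1) * i : ℕ) : ℤ) : Bˣ) : B) * (algebraMap (A f) B (yy f)) ^ i := by
    intro n i
    rw [mul_pow, ← pow_mul, zpow_neg, zpow_natCast, ← inv_pow, Units.val_pow_eq_pow_val, pow_add]
    ring
  have e1 : LinearMap.range r.toLinearMap =
      Submodule.span K (b '' {p | p.1 + (g + 1 : ℕ) * (p.2 : ℕ) ≤ 0}) := by
    rw [range_eq_span]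
    congr 1
    ext z
    constructor
    · rintro ⟨⟨n, i⟩, rfl⟩
      refine ⟨(-(n + (g + 1) * (i : ℕ) : ℕ), i), by simp, ?_⟩
      rw [hb]
      simp only [h1, h2]
      rw [key]
    · rintro ⟨⟨m, i⟩, hm, rfl⟩
      have hm' : m + (g + 1 : ℕ) * (i : ℕ) ≤ 0 := hm
      obtain ⟨n, hn⟩ := Int.eq_ofNat_of_zero_le (show 0 ≤ -(m + (g + 1 : ℕ) * (i : ℕ)) by omega)
      refine ⟨(n, i), ?_⟩
      have hm2 : m = -(n + (g + 1) * (i : ℕ) : ℕ) := by
        have h3 : ((n : ℕ) : ℤ) = Int.ofNat n := rfl
        push_cast at hn ⊢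
        linarith
      rw [hb]
      simp only [h1, h2]
      rw [hm2, key]
  have e2 : LinearMap.range (IsScalarTower.toAlgHom K (A f) B).toLinearMap =
      Submodule.span K (b '' {p | 0 ≤ p.1}) := by
    rw [range_eq_span]
    congr 1
    ext z
    constructor
    · rintro ⟨⟨n, i⟩, rfl⟩
      refine ⟨((n : ℤ), i), by simp, ?_⟩
      rw [hb]
      simp only [IsScalarTower.coe_toAlgHom', ← hu]
      rw [zpow_natCast, Units.val_pow_eq_pow_val]
    · rintro ⟨⟨m, i⟩, hm, rfl⟩
      obtain ⟨n, rfl⟩ := Int.eq_ofNat_of_zero_le (show 0 ≤ m from hm)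
      refine ⟨(n, i), ?_⟩
      rw [hb]
      simp only [IsScalarTower.coe_toAlgHom', ← hu]
      rw [zpow_natCast, Units.val_pow_eq_pow_val]
  have e3 : LinearMap.range r.toLinearMap ⊔
      LinearMap.range (IsScalarTower.toAlgHom K (A f) B).toLinearMap =
      Submodule.span K (b '' ({p | p.1 + (g + 1 : ℕ) * (p.2 : ℕ) ≤ 0} ∪ {p | 0 ≤ p.1})) := by
    rw [e1, e2, ← Submodule.span_union, Set.image_union]
  have e4 : ({p : ℤ × Fin 2 | p.1 + (g + 1 : ℕ) * (p.2 : ℕ) ≤ 0} ∪ {p | 0 ≤ p.1})ᶜ =
      (Finset.image (fun n : ℕ => ((-(n + 1 : ℕ) : ℤ), (1 : Fin 2))) (Finset.range g) :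
        Set (ℤ × Fin 2)) := by
    ext ⟨m, i⟩
    simp only [Set.mem_compl_iff, Set.mem_union, Set.mem_ofPred_eq, Finset.coe_image,
      Finset.coe_range, Set.mem_image, Set.mem_Iio, Prod.mk.injEq]
    constructor
    · intro hmi
      rw [not_or, not_le, not_le] at hmi
      obtain ⟨hm1, hm2⟩ := hmi
      fin_cases i
      · exfalso
        simp at hm1
        omega
      · simp at hm1
        refine ⟨(-m - 1).toNat, by omega, by omega, rfl⟩
    · rintro ⟨n, hn, rfl, rfl⟩
      rw [not_or, not_le, not_le]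
      constructor
      · simp
        omega
      · omega
  rw [e3]
  have hfin := finrank_quot b ({p | p.1 + (g + 1 : ℕ) * (p.2 : ℕ) ≤ 0} ∪ {p | 0 ≤ p.1}) (by
    rw [e4]; exact Finset.finite_toSet _)
  refine ⟨hfin.1, ?_⟩
  rw [hfin.2, e4, Set.ncard_coe_finset, Finset.card_image_of_injective, Finset.card_range]
  intro n m hnm
  simpa using hnm

end ring

section coker

variable {K : Type} [Field K] {f h : K[X]} {B : Type} [CommRing B]

lemma cokerDim_aux (g : ℕ) (s : K →+* B) (q : A f →+* B) (r : A h →+* B)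
    (hq : q.comp (algebraMap K (A f)) = s) (hr : r.comp (algebraMap K (A h)) = s)
    (loc : @IsLocalization.Away (A f) _ (xx f) B _ q.toAlgebra)
    (u : Bˣ) (hu : (u : B) = q (xx f))
    (h1 : r (xx h) = ((u⁻¹ : Bˣ) : B))
    (h2 : r (yy h) = q (yy f) * ((u⁻¹ : Bˣ) : B) ^ (g + 1)) : CokerDim s q r g := by
  unfold CokerDim
  let i0 : Algebra K B := s.toAlgebra
  let i1 : Algebra (A f) B := q.toAlgebra
  have hst : IsScalarTower K (A f) B :=
    IsScalarTower.of_algebraMap_eq (fun t => (DFunLike.congr_fun hq t).symm)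
  let r' : A h →ₐ[K] B := { r with commutes' := fun t => DFunLike.congr_fun hr t }
  have key := cech (f := f) g u hu r' h1 h2
  have hS : Submodule.span K (Set.range q ∪ Set.range r) =
      LinearMap.range r'.toLinearMap ⊔
        LinearMap.range (IsScalarTower.toAlgHom K (A f) B).toLinearMap := by
    rw [Submodule.span_union, sup_comm]
    congr 1
    · have : (Set.range r) = ((LinearMap.range r'.toLinearMap : Submodule K _) : Set _) := by
        ext z
        constructor
        · rintro ⟨a, rfl⟩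
          exact ⟨a, rfl⟩
        · rintro ⟨a, rfl⟩
          exact ⟨a, rfl⟩
      rw [this, Submodule.span_eq]
    · have : (Set.range q) = ((LinearMap.range (IsScalarTower.toAlgHom K (A f)
          B).toLinearMap : Submodule K _) : Set _) := by
        ext z
        constructor
        · rintro ⟨a, rfl⟩
          exact ⟨a, rfl⟩
        · rintro ⟨a, rfl⟩
          exact ⟨a, rfl⟩
      rw [this, Submodule.span_eq]
  rw [hS]
  exact key

variable {g : ℕ} {H : Rel g f h} {X : Scheme.{0}} {π : X ⟶ SB K}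

/-- The unit `x`. -/
noncomputable def xunit (f : K[X]) : (L f)ˣ :=
  ⟨algebraMap (A f) (L f) (xx f), xinv f, x_mul_xinv f, (mul_comm _ _).trans (x_mul_xinv f)⟩

/-- The genus of the curve. -/
lemma Model.hasGenus (M : Model H π) : HasGenus π g := by
  refine ⟨A f, A h, L f, inferInstance, inferInstance, inferInstance, M.i1, M.i2,
    algebraMap (A f) (L f), (swap H).toRingHom, algebraMap K (L f), M.o1, M.o2, M.cover,
    M.overlap, ?_, ?_⟩
  · have h1 : j1 f ≫ M.i1 ≫ π = stL f := by rw [M.st1, j1_st]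
    exact h1
  · refine cokerDim_aux g _ _ _ (alg_st f) (swap_st H) ?_ (xunit f) rfl ?_ ?_
    · have e : (algebraMap (A f) (L f)).toAlgebra = (inferInstance : Algebra (A f) (L f)) :=
        Algebra.algebra_ext _ _ (fun _ => rfl)
      rw [e]
      exact (inferInstance : IsLocalization.Away (xx f) (L f))
    · exact swap_x H
    · exact swap_y H

end coker

end Pool.Agent.TH188.MG
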