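import Pool.Agent.TH188.MG.Ident
import Pool.Agent.TH188.MG.Genus

/-!
# Function fields of isomorphic curves
-/

set_option autoImplicit false

open Polynomial CategoryTheory CategoryTheory.Limits AlgebraicGeometry

namespace Pool.Agent.TH188.MG

section hyp

variable {K : Type} [Field K]

theorem no_hyp {k : Type} [Field k] [CharZero k] [Algebra k K] (g : ℕ) (hg : 2 ≤ g) (p q : k)
    (hp : p ≠ 0) (hq : q ≠ 0) {x y u v : K} (H1 : Hyp (fp g p 0) x y) (H2 : Hyp (fp g 0 q) u v) :
    False := by
  have hn1 : (2 * g : k) ≠ 0 := mul_ne_zero two_ne_zero (Nat.cast_ne_zero.2 (by omega))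
  have hn2 : (2 * g + 1 : k) ≠ 0 := by exact_mod_cast (Nat.succ_ne_zero (2 * g))
  have s1 : (fp g p (0 : k)).Separable := by
    refine coprime_f g p 0 (isUnit_iff_ne_zero.2 ?_)
    unfold dsc
    rw [zero_pow (by omega), mul_zero, add_zero]
    exact mul_ne_zero (pow_ne_zero _ hn1) (pow_ne_zero _ hp)
  have s2 : (fp g (0 : k) q).Separable := by
    refine coprime_f g 0 q (isUnit_iff_ne_zero.2 ?_)
    unfold dsc
    rw [zero_pow (by omega), mul_zero, zero_add]
    exact mul_ne_zero (pow_ne_zero _ hn2) (pow_ne_zero _ hq)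
  obtain ⟨a, c, hc, h⟩ := H1.exists_ratio two_ne_zero H2 s1.squarefree (by
    rw [fp_natDegree g _ _ (by omega)]; omega)
  obtain ⟨a', c', hc', h'⟩ := H2.exists_ratio two_ne_zero H1 s2.squarefree (by
    rw [fp_natDegree g _ _ (by omega)]; omega)
  obtain ⟨α, β, γ, δ, hdet, key⟩ := moebius H1.inj H2.inj hc h hc' h'
  obtain ⟨c0, hc0, hid⟩ := H1.relation two_ne_zero H2 s1.squarefree (by omega) hdet key
  exact no_ident g hg p q α β γ δ c0 hp hc0 hq hdet hid

variable (f : K[X])

lemma exists_repr (z : A f) : ∃ a b : K[X], z = aeval (xx f) a + aeval (xx f) b * yy f := by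
  have h1 := (bA f).sum_repr z
  rw [Fin.sum_univ_two, bA_apply, bA_apply, Algebra.smul_def, Algebra.smul_def] at h1
  refine ⟨(bA f).repr z 0, (bA f).repr z 1, ?_⟩
  rw [← of_eq_aeval, ← of_eq_aeval]
  conv_lhs => rw [← h1]
  simp only [Fin.val_zero, Fin.val_one, pow_zero, pow_one, mul_one]
  rfl

lemma repr_zero (a b : K[X]) (h : aeval (xx f) a + aeval (xx f) b * yy f = 0) :
    a = 0 ∧ b = 0 := by
  have h1 := (Fintype.linearIndependent_iff.1 (bA f).linearIndependent) ![a, b] (by
    rw [Fin.sum_univ_two, bA_apply, bA_apply, Algebra.smul_def, Algebra.smul_def]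
    rw [← of_eq_aeval, ← of_eq_aeval] at h
    simp only [Fin.val_zero, Fin.val_one, pow_zero, pow_one, mul_one, Matrix.cons_val_zero,
      Matrix.cons_val_one]
    exact h)
  exact ⟨h1 0, h1 1⟩

variable {F : Type} [Field F] [Algebra (A f) F] [Algebra K F] [IsScalarTower K (A f) F]
  [IsFractionRing (A f) F]

/-- The fraction field of the chart. -/
lemma hyp_frac (hd : IsDomain (A f)) :
    Hyp f (algebraMap (A f) F (xx f)) (algebraMap (A f) F (yy f)) := by
  have hinj : Function.Injective (algebraMap (A f) F) := IsFractionRing.injective (A f) F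
  have hal : ∀ p : K[X], aeval (algebraMap (A f) F (xx f)) p = algebraMap (A f) F
      (aeval (xx f) p) := fun p => aeval_algebraMap_apply F (xx f) p
  refine ⟨?_, ?_, ?_⟩
  · rw [← map_pow, rel, hal]
  · intro z
    obtain ⟨s, t, ht, rfl⟩ := IsFractionRing.div_surjective (A := A f) z
    have ht0 : t ≠ 0 := nonZeroDivisors.ne_zero ht
    obtain ⟨a, b, rfl⟩ := exists_repr f s
    obtain ⟨c, d, rfl⟩ := exists_repr f t
    have hy := rel f
    have hN : (aeval (xx f) c + aeval (xx f) d * yy f) * (aeval (xx f) c - aeval (xx f) d * yy f) =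
        aeval (xx f) (c ^ 2 - d ^ 2 * f) := by
      simp only [map_sub, map_mul, map_pow]
      rw [← hy]
      ring
    have hconj : aeval (xx f) c - aeval (xx f) d * yy f ≠ 0 := by
      intro h0
      have h1 : aeval (xx f) c + aeval (xx f) (-d) * yy f = 0 := by
        rw [map_neg]
        linear_combination h0
      obtain ⟨h2, h3⟩ := repr_zero f _ _ h1
      rw [neg_eq_zero] at h3
      apply ht0
      rw [h2, h3]
      simp
    refine ⟨a * c - b * d * f, b * c - a * d, c ^ 2 - d ^ 2 * f, ?_, ?_⟩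
    · intro h0
      rw [h0, map_zero] at hN
      exact mul_ne_zero ht0 hconj hN
    · have ht1 : algebraMap (A f) F (aeval (xx f) c + aeval (xx f) d * yy f) ≠ 0 :=
        fun h0 => ht0 (hinj (by rw [h0, map_zero]))
      rw [hal, hal, hal, ← hN, ← mul_div_assoc, div_eq_iff ht1]
      simp only [← map_mul, ← map_add]
      congr 1
      simp only [map_sub, map_mul]
      rw [← hy]
      ring
  · intro a b h
    rw [hal, hal, ← map_mul, ← map_add] at h
    exact repr_zero f a b (hinj (by rw [h, map_zero]))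

end hyp

end Pool.Agent.TH188.MG
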