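import Pool.Agent.TH188.MG.Auto
import Pool.Agent.TH188.MG.Cover

/-!
# The family over the cyclic cover of the affine line
-/

set_option autoImplicit false

open Polynomial CategoryTheory CategoryTheory.Limits AlgebraicGeometry

namespace Pool.Agent.TH188.MG

section semi

variable {R : Type} [CommRing R] (g : ℕ) (p q : R) (σ : R →+* R) (ν μ : R)

lemma eval₂_fp {E : Type*} [CommRing E] (ψ : R →+* E) (a : E) :
    eval₂ ψ a (fp g p q) = a ^ (2 * g + 1) + ψ p * a + ψ q := by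
  simp only [fp, eval₂_add, eval₂_mul, eval₂_pow, eval₂_X, eval₂_C]

lemma eval₂_hp {E : Type*} [CommRing E] (ψ : R →+* E) (a : E) :
    eval₂ ψ a (hp g p q) = a + ψ p * a ^ (2 * g + 1) + ψ q * a ^ (2 * g + 2) := by
  simp only [hp, eval₂_add, eval₂_mul, eval₂_pow, eval₂_X, eval₂_C]

lemma semi_f (h1 : ν ^ (2 * g + 1) = 1) (hp : σ p * ν = p) (hq : σ q = q) :
    (yy (fp g p q)) ^ 2 = eval₂ ((algebraMap R (A (fp g p q))).comp σ)
      (algebraMap R (A (fp g p q)) ν * xx (fp g p q)) (fp g p q) := by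
  have e : eval₂ ((algebraMap R (A (fp g p q))).comp σ)
      (algebraMap R (A (fp g p q)) ν * xx (fp g p q)) (fp g p q) =
      (algebraMap R (A (fp g p q)) ν * xx (fp g p q)) ^ (2 * g + 1) +
      algebraMap R (A (fp g p q)) (σ p) * (algebraMap R (A (fp g p q)) ν * xx (fp g p q)) +
      algebraMap R (A (fp g p q)) (σ q) := eval₂_fp _ _ _ _ _
  have e2 : aeval (xx (fp g p q)) (fp g p q) = xx (fp g p q) ^ (2 * g + 1) +
      algebraMap R (A (fp g p q)) p * xx (fp g p q) + algebraMap R (A (fp g p q)) q := eval₂_fp _ _ _ _ _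
  rw [rel, e, e2, mul_pow, ← map_pow, h1, map_one, one_mul, ← mul_assoc, ← map_mul, hp, hq]

lemma semi_h (h1 : μ ^ (2 * g + 1) = 1) (hp' : σ p = μ * p) (hq : σ q = q) :
    (algebraMap R (A (hp g p q)) (μ ^ (g + 1)) * yy (hp g p q)) ^ 2 =
      eval₂ ((algebraMap R (A (hp g p q))).comp σ)
      (algebraMap R (A (hp g p q)) μ * xx (hp g p q)) (hp g p q) := by
  have e : eval₂ ((algebraMap R (A (hp g p q))).comp σ)
      (algebraMap R (A (hp g p q)) μ * xx (hp g p q)) (hp g p q) =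
      (algebraMap R (A (hp g p q)) μ * xx (hp g p q)) +
      algebraMap R (A (hp g p q)) (σ p) *
        (algebraMap R (A (hp g p q)) μ * xx (hp g p q)) ^ (2 * g + 1) +
      algebraMap R (A (hp g p q)) (σ q) *
        (algebraMap R (A (hp g p q)) μ * xx (hp g p q)) ^ (2 * g + 2) := eval₂_hp _ _ _ _ _
  have e2 : aeval (xx (hp g p q)) (hp g p q) = xx (hp g p q) +
      algebraMap R (A (hp g p q)) p * xx (hp g p q) ^ (2 * g + 1) +
      algebraMap R (A (hp g p q)) q * xx (hp g p q) ^ (2 * g + 2) := eval₂_hp _ _ _ _ _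
  have h2 : algebraMap R (A (hp g p q)) μ ^ (2 * g + 1) = 1 := by rw [← map_pow, h1, map_one]
  have h3 : algebraMap R (A (hp g p q)) μ ^ (2 * g + 2) = algebraMap R (A (hp g p q)) μ := by
    rw [pow_succ, h2, one_mul]
  have h4 : (algebraMap R (A (hp g p q)) (μ ^ (g + 1))) ^ 2 = algebraMap R (A (hp g p q)) μ := by
    rw [← h3, map_pow, ← pow_mul]
    congr 1
    ring
  rw [mul_pow, rel, e, e2, hp', hq, map_mul, mul_pow, mul_pow, h2, h3, h4]
  ring

end semi

section fam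

variable (g : ℕ) (α β : ℂ)

/-- The coefficient of `x`. -/
noncomputable def cp : B g := algebraMap ℂ (B g) α * ca g

/-- The constant coefficient. -/
noncomputable def cq : B g := algebraMap ℂ (B g) β * cb g

lemma sz_cp (z : ℂ) (hz : z ^ (2 * g + 1) = 1) :
    sz g z hz (cp g α) = algebraMap ℂ (B g) z * cp g α := by
  rw [cp, map_mul, sz_C, sz_ca]
  ring

lemma sz_cq (z : ℂ) (hz : z ^ (2 * g + 1) = 1) : sz g z hz (cq g β) = cq g β := by
  rw [cq, map_mul, sz_C, sz_cb]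

lemma cz_pow (z : ℂ) (hz : z ^ (2 * g + 1) = 1) : (algebraMap ℂ (B g) z) ^ (2 * g + 1) = 1 := by
  rw [← map_pow, hz, map_one]

lemma inv_pow_one (z : ℂ) (hz : z ^ (2 * g + 1) = 1) : z⁻¹ ^ (2 * g + 1) = 1 := by
  rw [inv_pow, hz, inv_one]

lemma ne_zero_of_pow (z : ℂ) (hz : z ^ (2 * g + 1) = 1) : z ≠ 0 := by
  rintro rfl
  rw [zero_pow (by omega)] at hz
  exact zero_ne_one hz

/-- The first polynomial. -/
noncomputable abbrev fB : (B g)[X] := fp g (cp g α) (cq g β)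

/-- The second polynomial. -/
noncomputable abbrev hB : (B g)[X] := hp g (cp g α) (cq g β)

/-- Their relation. -/
lemma HB : Rel g (fB g α β) (hB g α β) := rel_fh g _ _

lemma zz_mul (z : ℂ) (hz : z ^ (2 * g + 1) = 1) :
    algebraMap ℂ (B g) z⁻¹ * algebraMap ℂ (B g) z = 1 := by
  rw [← map_mul, inv_mul_cancel₀ (ne_zero_of_pow g z hz), map_one]

lemma semi_fB (z : ℂ) (hz : z ^ (2 * g + 1) = 1) :
    (yy (fB g α β)) ^ 2 = eval₂ ((algebraMap (B g) (A (fB g α β))).comp (sz g z hz).toRingHom)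
      (algebraMap (B g) (A (fB g α β)) (algebraMap ℂ (B g) z⁻¹) * xx (fB g α β)) (fB g α β) := by
  refine semi_f g (cp g α) (cq g β) (sz g z hz).toRingHom (algebraMap ℂ (B g) z⁻¹)
    (cz_pow g _ (inv_pow_one g z hz)) ?_ (sz_cq g β z hz)
  have h1 : (sz g z hz).toRingHom (cp g α) = algebraMap ℂ (B g) z * cp g α := sz_cp g α z hz
  rw [h1, mul_right_comm, mul_comm (algebraMap ℂ (B g) z), zz_mul g z hz, one_mul]

lemma semi_hB (z : ℂ) (hz : z ^ (2 * g + 1) = 1) :
    (algebraMap (B g) (A (hB g α β)) ((algebraMap ℂ (B g) z) ^ (g + 1)) * yy (hB g α β)) ^ 2 =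
      eval₂ ((algebraMap (B g) (A (hB g α β))).comp (sz g z hz).toRingHom)
      (algebraMap (B g) (A (hB g α β)) (algebraMap ℂ (B g) z) * xx (hB g α β)) (hB g α β) :=
  semi_h g (cp g α) (cq g β) (sz g z hz).toRingHom (algebraMap ℂ (B g) z)
    (cz_pow g _ hz) (sz_cp g α z hz) (sz_cq g β z hz)

/-- The automorphism of the family. -/
noncomputable def gB (z : ℂ) (hz : z ^ (2 * g + 1) = 1) :
    GEndo (j1 (fB g α β)) (j2 (HB g α β)) (st (fB g α β)) (st (hB g α β))
      (Spec.map (CommRingCat.ofHom (sz g z hz).toRingHom)) :=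
  gendo (HB g α β) (sz g z hz).toRingHom (algebraMap ℂ (B g) z⁻¹) (algebraMap ℂ (B g) z)
    (zz_mul g z hz) (semi_fB g α β z hz) (semi_hB g α β z hz)

lemma gB_a (z : ℂ) (hz : z ^ (2 * g + 1) = 1) : (gB g α β z hz).a =
    Spec.map (CommRingCat.ofHom (t1 (sz g z hz).toRingHom (algebraMap ℂ (B g) z⁻¹)
      (semi_fB g α β z hz))) := rfl

lemma gB_b (z : ℂ) (hz : z ^ (2 * g + 1) = 1) : (gB g α β z hz).b =
    Spec.map (CommRingCat.ofHom (t2 (sz g z hz).toRingHom (algebraMap ℂ (B g) z)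
      (semi_hB g α β z hz))) := rfl

lemma sz_sz (z z' : ℂ) (hz : z ^ (2 * g + 1) = 1) (hz' : z' ^ (2 * g + 1) = 1)
    (h : z * z' = 1) (r : B g) : (sz g z hz).toRingHom ((sz g z' hz').toRingHom r) = r :=
  DFunLike.congr_fun (sz_comp g z z' hz hz' h) r

lemma cc_mul (z z' : ℂ) (h : z * z' = 1) : algebraMap ℂ (B g) z * algebraMap ℂ (B g) z' = 1 := by
  rw [← map_mul, h, map_one]

lemma t1_t1 (z z' : ℂ) (hz : z ^ (2 * g + 1) = 1) (hz' : z' ^ (2 * g + 1) = 1)
    (h : z * z' = 1) :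
    (t1 (sz g z hz).toRingHom (algebraMap ℂ (B g) z⁻¹) (semi_fB g α β z hz)).comp
      (t1 (sz g z' hz').toRingHom (algebraMap ℂ (B g) z'⁻¹) (semi_fB g α β z' hz')) =
      RingHom.id _ := by
  have h' : z⁻¹ * z'⁻¹ = 1 := by rw [← mul_inv, h, inv_one]
  apply ring_ext
  · apply RingHom.ext
    intro r
    rw [RingHom.comp_apply, RingHom.comp_apply, t1_alg, t1_alg, sz_sz g z z' hz hz' h]
    rfl
  · rw [RingHom.comp_apply, t1_x, map_mul, t1_alg, t1_x, RingHom.id_apply, ← mul_assoc, ← map_mul]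
    have h1 : (sz g z hz).toRingHom (algebraMap ℂ (B g) z'⁻¹) = algebraMap ℂ (B g) z'⁻¹ :=
      sz_C g z hz _
    rw [h1, mul_comm (algebraMap ℂ (B g) z'⁻¹), cc_mul g _ _ h', map_one, one_mul]
  · rw [RingHom.comp_apply, t1_y, t1_y, RingHom.id_apply]

lemma t2_t2 (z z' : ℂ) (hz : z ^ (2 * g + 1) = 1) (hz' : z' ^ (2 * g + 1) = 1)
    (h : z * z' = 1) :
    (t2 (sz g z hz).toRingHom (algebraMap ℂ (B g) z) (semi_hB g α β z hz)).comp
      (t2 (sz g z' hz').toRingHom (algebraMap ℂ (B g) z') (semi_hB g α β z' hz')) =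
      RingHom.id _ := by
  have h1 : (sz g z hz).toRingHom (algebraMap ℂ (B g) z') = algebraMap ℂ (B g) z' :=
    sz_C g z hz _
  apply ring_ext
  · apply RingHom.ext
    intro r
    rw [RingHom.comp_apply, RingHom.comp_apply, t2_alg, t2_alg, sz_sz g z z' hz hz' h]
    rfl
  · rw [RingHom.comp_apply, t2_x, map_mul, t2_alg, t2_x, RingHom.id_apply, ← mul_assoc, ← map_mul]
    rw [h1, mul_comm (algebraMap ℂ (B g) z'), cc_mul g _ _ h, map_one, one_mul]
  · rw [RingHom.comp_apply, t2_y, map_mul, t2_alg, t2_y, RingHom.id_apply, ← mul_assoc, ← map_mul,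
      map_pow, h1, ← mul_pow, mul_comm (algebraMap ℂ (B g) z'), cc_mul g _ _ h, one_pow, map_one,
      one_mul]

lemma gB_aa (z z' : ℂ) (hz : z ^ (2 * g + 1) = 1) (hz' : z' ^ (2 * g + 1) = 1)
    (h : z * z' = 1) : (gB g α β z hz).a ≫ (gB g α β z' hz').a = 𝟙 _ := by
  have h1 := congrArg (fun r => Spec.map (CommRingCat.ofHom r)) (t1_t1 g α β z z' hz hz' h)
  exact (map_comp' _ _).trans (h1.trans (Spec.map_id _))

lemma gB_bb (z z' : ℂ) (hz : z ^ (2 * g + 1) = 1) (hz' : z' ^ (2 * g + 1) = 1)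
    (h : z * z' = 1) : (gB g α β z hz).b ≫ (gB g α β z' hz').b = 𝟙 _ := by
  have h1 := congrArg (fun r => Spec.map (CommRingCat.ofHom r)) (t2_t2 g α β z z' hz hz' h)
  exact (map_comp' _ _).trans (h1.trans (Spec.map_id _))

lemma spec_zz (z z' : ℂ) (hz : z ^ (2 * g + 1) = 1) (hz' : z' ^ (2 * g + 1) = 1)
    (h : z * z' = 1) : Spec.map (CommRingCat.ofHom (sz g z hz).toRingHom) ≫
      Spec.map (CommRingCat.ofHom (sz g z' hz').toRingHom) = 𝟙 _ := by
  have h0 : (sz g z hz).toRingHom.comp (sz g z' hz').toRingHom = RingHom.id _ := by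
    apply RingHom.ext
    exact sz_sz g z z' hz hz' h
  have h1 := congrArg (fun r => Spec.map (CommRingCat.ofHom r)) h0
  exact (map_comp' _ _).trans (h1.trans (Spec.map_id _))

/-- The automorphism of the family gives a cartesian square. -/
lemma isPullback_B (z : ℂ) (hz : z ^ (2 * g + 1) = 1) :
    IsPullback (gB g α β z hz).mor (curveStr (HB g α β)) (curveStr (HB g α β))
      (Spec.map (CommRingCat.ofHom (sz g z hz).toRingHom)) := by
  have hz' := inv_pow_one g z hz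
  have h := mul_inv_cancel₀ (ne_zero_of_pow g z hz)
  have h' := inv_mul_cancel₀ (ne_zero_of_pow g z hz)
  exact (gB g α β z hz).isPullback (gB g α β z⁻¹ hz') (j_st (HB g α β))
    (gB_aa g α β _ _ hz hz' h) (gB_bb g α β _ _ hz hz' h) (gB_aa g α β _ _ hz' hz h')
    (gB_bb g α β _ _ hz' hz h') (spec_zz g _ _ hz hz' h) (spec_zz g _ _ hz' hz h')

variable {α β} in
lemma dsc_B (hα : (2 * g : ℂ) ^ (2 * g) * α ^ (2 * g + 1) = 1)
    (hβ : (2 * g + 1 : ℂ) ^ (2 * g + 1) * β ^ (2 * g) = 1) :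
    dsc g (cp g α) (cq g β) = 1 := by
  have h1 := congrArg (algebraMap ℂ (B g)) hα
  have h2 := congrArg (algebraMap ℂ (B g)) hβ
  simp only [map_add, map_mul, map_pow, map_one, map_ofNat, map_natCast] at h1 h2
  have h3 := ca_cb g
  unfold dsc cp cq
  rw [mul_pow, mul_pow]
  linear_combination (ca g ^ (2 * g + 1)) * h1 + (cb g ^ (2 * g)) * h2 + h3

variable {α β} in
/-- The family over the cover. -/
lemma famB (hg : 1 ≤ g) (hα : (2 * g : ℂ) ^ (2 * g) * α ^ (2 * g + 1) = 1)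
    (hβ : (2 * g + 1 : ℂ) ^ (2 * g + 1) * β ^ (2 * g) = 1) :
    IsCurveFamily g (curveStr (HB g α β)) := by
  have hd := isDomain_B g hg
  have hD : IsUnit (dsc g (cp g α) (cq g β)) := by
    rw [dsc_B g hα hβ]
    exact isUnit_one
  refine Model.family (curveModel (HB g α β)) ?_ (coprime_f g _ _ hD) (coprime_h g _ _ hg hD)
    (fp_monic g _ _ hg) ?_ (hp_coeff g _ _)
  · have h2 : IsUnit (2 : ℂ) := isUnit_iff_ne_zero.2 two_ne_zero
    have h3 := h2.map (algebraMap ℂ (B g))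
    rwa [map_ofNat] at h3
  · rw [fp_natDegree g _ _ hg]
    omega

end fam

end Pool.Agent.TH188.MG
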