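import Pool.Agent.TH188.MG.Genus

/-!
# Hyperelliptic families
-/

set_option autoImplicit false

open Polynomial CategoryTheory CategoryTheory.Limits AlgebraicGeometry Module

namespace Pool.Agent.TH188.MG

variable {R : Type} [CommRing R] {g : ℕ} {f h : R[X]} {H : Rel g f h} {X : Scheme.{0}}
  {π : X ⟶ SB R}

lemma isCoprime_map {R' : Type} [CommRing R'] (φ : R →+* R') {p : R[X]}
    (hp : IsCoprime p (derivative p)) : IsCoprime (p.map φ) (derivative (p.map φ)) := by
  have h1 := hp.map (mapRingHom φ)
  simp only [coe_mapRingHom] at h1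
  rwa [derivative_map]

lemma not_isUnit_of_monic {K : Type} [Field K] (φ : R →+* K) {p : R[X]} (hp : p.Monic)
    (hd : 0 < p.natDegree) : ¬ IsUnit (p.map φ) := by
  intro hu
  have h1 := natDegree_eq_zero_of_isUnit hu
  rw [hp.natDegree_map] at h1
  omega

lemma not_isUnit_of_eval {K : Type} [Field K] (φ : R →+* K) {p : R[X]} (hp : p.coeff 0 = 0) :
    ¬ IsUnit (p.map φ) := by
  intro hu
  have h1 := hu.map (evalRingHom (0 : K))
  rw [coe_evalRingHom, ← coeff_zero_eq_eval_zero, coeff_map, hp, map_zero] at h1
  exact not_isUnit_zero h1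

/-- The curve is a family of smooth projective curves of genus `g`. -/
lemma Model.family (M : Model H π) (h2 : IsUnit (2 : R)) (hf : IsCoprime f (derivative f))
    (hh : IsCoprime h (derivative h)) (hm : f.Monic) (hd : 0 < f.natDegree)
    (h0 : h.coeff 0 = 0) : IsCurveFamily g π where
  smooth := M.smooth h2 hf hh
  proper := M.proper h2 hf hh
  fibre := by
    intro K _ _ s Y c q hc
    obtain ⟨φ, hφ⟩ := exists_hom s
    rw [hφ] at hc
    have M' := Model.baseChange φ M hc
    have s1 : (f.map φ).Separable := isCoprime_map φ hf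
    have s2 : (h.map φ).Separable := isCoprime_map φ hh
    exact ⟨M'.connected s1.squarefree (not_isUnit_of_monic φ hm hd)
      s2.squarefree (not_isUnit_of_eval φ h0), M'.hasGenus⟩

end Pool.Agent.TH188.MG
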