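import Pool.Agent.TH188.MG.Proper
import Pool.Agent.TH188.MG.Defs

/-!
# Curves over a field: connectedness
-/

set_option autoImplicit false

open Polynomial CategoryTheory CategoryTheory.Limits AlgebraicGeometry Module

namespace Pool.Agent.TH188.MG

section domain

variable {K : Type} [Field K] (f : K[X])

lemma natDegree_pol : (pol f).natDegree = 2 := by
  unfold pol
  exact natDegree_X_pow_sub_C

lemma pol_irreducible (hs : Squarefree f) (hu : ¬ IsUnit f) : Irreducible (pol f) := by
  obtain ⟨p, hp, hpd⟩ := WfDvdMonoid.exists_irreducible_factor hu hs.ne_zero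
  have hpp : (Ideal.span {p} : Ideal K[X]).IsPrime := by
    rw [Ideal.span_singleton_prime hp.ne_zero]
    exact hp.prime
  apply Polynomial.irreducible_of_eisenstein_criterion hpp
  · rw [(pol_monic f).leadingCoeff]
    intro h
    exact hpp.ne_top ((Ideal.eq_top_iff_one _).2 h)
  · intro n hn
    rw [degree_eq_natDegree (pol_monic f).ne_zero, natDegree_pol] at hn
    have hn' : n < 2 := by exact_mod_cast hn
    unfold pol
    rw [coeff_sub, coeff_X_pow, if_neg (by omega), zero_sub, coeff_C]
    split_ifs
    · exact Ideal.mem_span_singleton.2 ((dvd_neg).2 hpd)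
    · simp
  · rw [degree_eq_natDegree (pol_monic f).ne_zero, natDegree_pol]
    norm_num
  · unfold pol
    rw [coeff_sub, coeff_X_pow, if_neg (by omega), zero_sub, coeff_C_zero]
    rw [Ideal.span_singleton_pow, Ideal.mem_span_singleton, dvd_neg]
    intro h
    rw [sq] at h
    exact hp.not_isUnit (hs p h)
  · exact (pol_monic f).isPrimitive

lemma isDomain_A (hs : Squarefree f) (hu : ¬ IsUnit f) : IsDomain (A f) :=
  AdjoinRoot.isDomain_of_prime (pol_irreducible f hs hu).prime

lemma of_injective : Function.Injective (AdjoinRoot.of (pol f)) := by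
  apply AdjoinRoot.of.injective_of_degree_ne_zero
  rw [degree_eq_natDegree (pol_monic f).ne_zero, natDegree_pol]
  norm_num

lemma xx_ne_zero : xx f ≠ 0 := by
  intro h
  have h1 : AdjoinRoot.of (pol f) X = AdjoinRoot.of (pol f) 0 := by
    rw [map_zero]
    exact h
  exact X_ne_zero (of_injective f h1)

lemma nontrivial_L (hs : Squarefree f) (hu : ¬ IsUnit f) : Nontrivial (L f) := by
  have := isDomain_A f hs hu
  exact (IsLocalization.injective (L f) (M := Submonoid.powers (xx f))
    (powers_le_nonZeroDivisors_of_noZeroDivisors (xx_ne_zero f))).nontrivial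

lemma irreducibleSpace_SA (hs : Squarefree f) (hu : ¬ IsUnit f) : IrreducibleSpace (SA f) := by
  have := isDomain_A f hs hu
  exact inferInstanceAs (IrreducibleSpace (PrimeSpectrum (A f)))

end domain

section connected

variable {K : Type} [Field K] {g : ℕ} {f h : K[X]} {H : Rel g f h} {X : Scheme.{0}}
  {π : X ⟶ SB K}

lemma Model.connected (M : Model H π) (hf : Squarefree f) (hfu : ¬ IsUnit f) (hh : Squarefree h)
    (hhu : ¬ IsUnit h) : ConnectedSpace X := by
  have i1 := irreducibleSpace_SA f hf hfu
  have i2 := irreducibleSpace_SA h hh hhu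
  have i3 := nontrivial_L f hf hfu
  obtain ⟨w⟩ : Nonempty (SL f) := inferInstanceAs (Nonempty (PrimeSpectrum (L f)))
  have h1 : _root_.IsPreconnected (Set.univ : Set X) := by
    have h2 : (Set.univ : Set X) = Set.range M.i1 ∪ Set.range M.i2 := by
      ext x
      simp only [Set.mem_univ, true_iff]
      exact M.cover x
    rw [h2]
    refine _root_.IsPreconnected.union ((j1 f ≫ M.i1) w) ?_ ?_ (isPreconnected_range M.i1.continuous)
      (isPreconnected_range M.i2.continuous)
    · exact ⟨j1 f w, by rw [Scheme.Hom.comp_apply]⟩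
    · refine ⟨j2 H w, ?_⟩
      rw [M.overlap.w, Scheme.Hom.comp_apply]
  exact { isPreconnected_univ := h1, toNonempty := ⟨(j1 f ≫ M.i1) w⟩ }

end connected

end Pool.Agent.TH188.MG
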