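import Mathlib

/-!
# Degrees of relations between two elements of a field
-/

set_option autoImplicit false

open Polynomial

namespace Pool.Agent.TH188.MG

section

variable {k : Type} [Field k]

lemma coeff_swap (p : k[X][X]) (i j : ℕ) :
    ((Bivariate.swap p).coeff i).coeff j = (p.coeff j).coeff i := by
  induction p using Polynomial.induction_on' with
  | add p q hp hq => simp only [map_add, coeff_add, hp, hq]
  | monomial n f =>
    induction f using Polynomial.induction_on' with
    | add p q hp hq => simp only [map_add, coeff_add, hp, hq]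
    | monomial m r =>
      rw [Bivariate.swap_monomial_monomial]
      by_cases h1 : m = i <;> by_cases h2 : n = j <;> simp [coeff_monomial, h1, h2]

lemma natDegree_coeff_le (p : k[X][X]) (j : ℕ) :
    (p.coeff j).natDegree ≤ (Bivariate.swap p).natDegree := by
  rw [natDegree_le_iff_coeff_eq_zero]
  intro i hi
  rw [← coeff_swap, coeff_eq_zero_of_natDegree_lt hi, coeff_zero]

variable {K : Type} [Field K] [Algebra k K]

/-- Evaluation of a polynomial in two variables. -/
noncomputable def ev (x u : K) : k[X][X] →+* K := eval₂RingHom (aeval x : k[X] →ₐ[k] K).toRingHom u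

lemma ev_C (x u : K) (p : k[X]) : ev x u (C p) = aeval x p := by
  simp [ev]

lemma ev_X (x u : K) : ev (k := k) x u X = u := by
  simp [ev]

lemma ev_swap (x u : K) (p : k[X][X]) : ev x u (Bivariate.swap p) = ev u x p := by
  have h : ((ev x u).comp (Bivariate.swap (R := k)).toAlgHom.toRingHom) = ev (k := k) u x := by
    apply Polynomial.ringHom_ext
    · intro f
      have h1 : (Bivariate.swap (R := k)).toAlgHom.toRingHom (C f) = f.map C :=
        Bivariate.swap_C f
      rw [RingHom.comp_apply, h1, ev_C]
      simp only [ev, coe_eval₂RingHom, eval₂_map]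
      rw [aeval_def]
      congr 1
      ext c
      simp
    · have h1 : (Bivariate.swap (R := k)).toAlgHom.toRingHom X = C X := Bivariate.swap_Y
      rw [RingHom.comp_apply, h1, ev_C, ev_X, aeval_X]
  exact DFunLike.congr_fun h p

lemma ev_map {F : Type} [Field F] [Algebra k[X] F] (i : F →+* K) (x u : K)
    (hi : i.comp (algebraMap k[X] F) = (aeval x : k[X] →ₐ[k] K).toRingHom) (p : k[X][X]) :
    (p.map (algebraMap k[X] F)).eval₂ i u = ev x u p := by
  rw [eval₂_map, hi]
  rfl

/-- If `Φ` is a primitive polynomial over `k[x]` of least degree with root `u`, then the degrees of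
its coefficients are at most the degree of `x` over `k[u]`. -/
lemma degree_bound (x u : K) (hx : Function.Injective (aeval x : k[X] →ₐ[k] K))
    (Φ : k[X][X]) (hp : Φ.IsPrimitive) (hΦ : ev x u Φ = 0)
    (hmin : ∀ Q : k[X][X], Q ≠ 0 → ev x u Q = 0 → Φ.natDegree ≤ Q.natDegree)
    (Ψ : k[X][X]) (h0 : Ψ ≠ 0) (hΨ : ev u x Ψ = 0) (j : ℕ) :
    (Φ.coeff j).natDegree ≤ Ψ.natDegree := by
  let F := FractionRing k[X]
  let i : F →+* K := IsFractionRing.lift (g := (aeval x : k[X] →ₐ[k] K).toRingHom) hx
  let _ : Algebra F K := i.toAlgebra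
  have hi : i.comp (algebraMap k[X] F) = (aeval x : k[X] →ₐ[k] K).toRingHom := by
    apply RingHom.ext
    intro z
    exact IsFractionRing.lift_algebraMap hx z
  have hev : ∀ Q : k[X][X], aeval u (Q.map (algebraMap k[X] F)) = ev x u Q :=
    fun Q => ev_map i x u hi Q
  have hinj : Function.Injective (Polynomial.map (algebraMap k[X] F)) :=
    map_injective _ (IsFractionRing.injective k[X] F)
  have hΦ0 : Φ ≠ 0 := hp.ne_zero
  have hΦF : Φ.map (algebraMap k[X] F) ≠ 0 := fun h => hΦ0 (hinj (by rw [h, Polynomial.map_zero]))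
  have hint : IsIntegral F u := by
    rw [← isAlgebraic_iff_isIntegral]
    exact ⟨Φ.map (algebraMap k[X] F), hΦF, (hev Φ).trans hΦ⟩
  have hm0 := minpoly.ne_zero hint
  have hdvd1 : minpoly F u ∣ Φ.map (algebraMap k[X] F) := minpoly.dvd F u ((hev Φ).trans hΦ)
  have hdeg : (Φ.map (algebraMap k[X] F)).natDegree ≤ (minpoly F u).natDegree := by
    obtain ⟨b, hb, hM⟩ := IsLocalization.integerNormalization_spec (nonZeroDivisors k[X])
      (minpoly F u)
    set M := IsLocalization.integerNormalization (nonZeroDivisors k[X]) (minpoly F u) with hMdef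
    have hb0 : algebraMap k[X] F b ≠ 0 := by
      intro h
      exact nonZeroDivisors.ne_zero hb (IsFractionRing.injective k[X] F (by rw [h, map_zero]))
    have hM' : M.map (algebraMap k[X] F) = C (algebraMap k[X] F b) * minpoly F u := by
      rw [hM, Algebra.smul_def]
      rfl
    have hM0 : M ≠ 0 := by
      intro h
      rw [h, Polynomial.map_zero] at hM'
      exact mul_ne_zero (C_ne_zero.2 hb0) hm0 hM'.symm
    have hMu : ev x u M = 0 := by
      rw [← hev, hM', map_mul, minpoly.aeval, mul_zero]
    have h1 := hmin M hM0 hMu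
    rw [natDegree_map_eq_of_injective (IsFractionRing.injective k[X] F)]
    refine h1.trans ?_
    rw [← natDegree_map_eq_of_injective (IsFractionRing.injective k[X] F) M, hM',
      natDegree_C_mul hb0]
  have heq := eq_leadingCoeff_mul_of_monic_of_dvd_of_natDegree_le (minpoly.monic hint) hdvd1 hdeg
  have hlc : (Φ.map (algebraMap k[X] F)).leadingCoeff ≠ 0 := leadingCoeff_ne_zero.2 hΦF
  have hdvd2 : Φ.map (algebraMap k[X] F) ∣ (Bivariate.swap Ψ).map (algebraMap k[X] F) := by
    have h2 : minpoly F u ∣ (Bivariate.swap Ψ).map (algebraMap k[X] F) := by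
      apply minpoly.dvd
      rw [hev, ev_swap, hΨ]
    rw [heq]
    exact (IsUnit.mul_left_dvd ((isUnit_C).2 (isUnit_iff_ne_zero.2 hlc))).2 h2
  have hdvd3 : Φ ∣ Bivariate.swap Ψ := hp.dvd_of_fraction_map_dvd_fraction_map hdvd2
  have hdvd4 : Bivariate.swap Φ ∣ Ψ := by
    obtain ⟨c, hc⟩ := hdvd3
    refine ⟨Bivariate.swap c, ?_⟩
    rw [← map_mul, ← hc, Bivariate.swap_swap_apply]
  exact (natDegree_coeff_le Φ j).trans (natDegree_le_of_dvd hdvd4 h0)

end

end Pool.Agent.TH188.MG
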