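import Pool.Agent.TH188.MG.FF

/-!
# Isomorphic curves have isomorphic function fields
-/

set_option autoImplicit false

open Polynomial CategoryTheory CategoryTheory.Limits AlgebraicGeometry

namespace Pool.Agent.TH188.MG

section ringlevel

variable {P F : Type} [CommRing P] [Field F]

lemma comap_specializes (τ : P →+* F) (hτ : Function.Injective τ) (z : PrimeSpectrum P) :
    PrimeSpectrum.comap τ (IsLocalRing.closedPoint F) ⤳ z := by
  rw [← PrimeSpectrum.le_iff_specializes]
  change Ideal.comap τ (IsLocalRing.maximalIdeal F) ≤ _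
  have h2 : IsLocalRing.maximalIdeal F = ⊥ :=
    IsLocalRing.isField_iff_maximalIdeal_eq.1 (Field.toIsField F)
  rw [h2]
  intro a ha
  have h3 : τ a = 0 := ha
  have h4 : a = 0 := hτ (by rw [h3, map_zero])
  rw [h4]
  exact Ideal.zero_mem _

lemma inj_of_comap (hP : IsDomain P) (τ : P →+* F)
    (hs : ∀ z : PrimeSpectrum P, PrimeSpectrum.comap τ (IsLocalRing.closedPoint F) ⤳ z) :
    Function.Injective τ := by
  rw [injective_iff_map_eq_zero]
  intro a ha
  have h1 := hs ⟨⊥, Ideal.isPrime_bot⟩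
  rw [← PrimeSpectrum.le_iff_specializes] at h1
  have h2 : a ∈ Ideal.comap τ (IsLocalRing.maximalIdeal F) := by
    rw [Ideal.mem_comap, ha]
    exact Ideal.zero_mem _
  exact h1 h2

end ringlevel

/-- The point of the spectrum of a field. -/
noncomputable def pt (F : Type) [Field F] : Spec (CommRingCat.of F) := IsLocalRing.closedPoint F

section generic

variable {K : Type} [Field K] {g : ℕ} {f h : K[X]} {H : Rel g f h} {X : Scheme.{0}} {π : X ⟶ SB K}
  {F : Type} [Field F]

lemma toSA_specializes (τ : A f →+* F) (hτ : Function.Injective τ) (z : SA f) :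
    (toSA f τ) (pt F) ⤳ z := comap_specializes τ hτ z

lemma inj_of_specializes (hA : IsDomain (A f)) (τ : A f →+* F)
    (hs : ∀ z : SA f, (toSA f τ) (pt F) ⤳ z) : Function.Injective τ := inj_of_comap hA τ hs

lemma swap_injective (hB : IsDomain (A h)) : Function.Injective (swap H) := by
  let _ := (swap H).toRingHom.toAlgebra
  have h1 := isLocalization_swap H
  exact IsLocalization.injective (L f) (M := Submonoid.powers (xx h))
    (powers_le_nonZeroDivisors_of_noZeroDivisors (xx_ne_zero h))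

lemma ext_injective (ω : L f →+* F)
    (h : Function.Injective (ω.comp (algebraMap (A f) (L f)))) : Function.Injective ω := by
  rw [injective_iff_map_eq_zero]
  intro z hz
  obtain ⟨⟨a, s⟩, hs⟩ := IsLocalization.surj (Submonoid.powers (xx f)) z
  have h1 : (ω.comp (algebraMap (A f) (L f))) a = 0 := by
    rw [RingHom.comp_apply, ← hs, map_mul, hz, zero_mul]
  have h2 : a = 0 := h (by rw [h1, map_zero])
  rw [h2, map_zero] at hs
  exact (IsUnit.mul_left_eq_zero (IsLocalization.map_units (L f) s)).1 hs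

lemma Model.specializes (M : Model H π) (hB : IsDomain (A h))
    (τ : A f →+* F) (hτ : Function.Injective τ) (z : X) :
    (toSA f τ ≫ M.i1) (pt F) ⤳ z := by
  rcases M.cover z with ⟨w, rfl⟩ | ⟨w, rfl⟩
  · rw [Scheme.Hom.comp_apply]
    exact (toSA_specializes τ hτ w).map M.i1.continuous
  · have hx : τ (xx f) ≠ 0 := fun h0 => xx_ne_zero f (hτ (by rw [h0, map_zero]))
    obtain ⟨ω, hω⟩ := exists_ext f τ (IsUnit.mk0 _ hx)
    have h1 : toSA f τ ≫ M.i1 = toSA h (ω.comp (swap H).toRingHom) ≫ M.i2 := by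
      rw [← hω, ← toSL_j1, Category.assoc, M.overlap.w, ← Category.assoc, toSL_j2]
    have hinj : Function.Injective (ω.comp (swap H).toRingHom) := by
      have h2 : Function.Injective ω := ext_injective ω (by rw [hω]; exact hτ)
      exact h2.comp (swap_injective hB)
    rw [h1, Scheme.Hom.comp_apply]
    exact (toSA_specializes _ hinj w).map M.i2.continuous

/-- The map of the function fields given by an isomorphism of curves. -/
lemma exists_tau (M : Model H π) (hB : IsDomain (A h))
    {f' h' : K[X]} {H' : Rel g f' h'} {X' : Scheme.{0}} {π' : X' ⟶ SB K} (M' : Model H' π')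
    (hA' : IsDomain (A f')) (e : X ≅ X') (he : e.hom ≫ π' = π) (ι : A f →+* F)
    (hι : Function.Injective ι) :
    ∃ τ : A f' →+* F, Function.Injective τ ∧
      toSA f' τ ≫ M'.i1 = (toSA f ι ≫ M.i1) ≫ e.hom ∧
      τ.comp (algebraMap K (A f')) = ι.comp (algebraMap K (A f)) := by
  have hs : ∀ z : X', ((toSA f ι ≫ M.i1) ≫ e.hom) (pt F) ⤳ z := by
    intro z
    have h1 := (M.specializes hB ι hι (e.inv z)).map e.hom.continuous
    have h2 : e.hom (e.inv z) = z := by
      rw [← Scheme.Hom.comp_apply, e.inv_hom_id]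
      rfl
    rw [h2, ← Scheme.Hom.comp_apply] at h1
    exact h1
  have hmem : ((toSA f ι ≫ M.i1) ≫ e.hom) (pt F) ∈ Set.range M'.i1 := by
    have : Nonempty (SA f') := inferInstanceAs (Nonempty (PrimeSpectrum (A f')))
    obtain ⟨w⟩ := this
    exact (hs (M'.i1 w)).mem_open M'.i1.isOpenEmbedding.isOpen_range ⟨w, rfl⟩
  obtain ⟨t, ht⟩ := factor M'.i1 _ hmem
  obtain ⟨τ, rfl⟩ := exists_toSA t
  refine ⟨τ, ?_, ht, ?_⟩
  · refine inj_of_specializes hA' τ (fun z => ?_)
    have h1 := hs (M'.i1 z)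
    rw [← ht, Scheme.Hom.comp_apply] at h1
    exact (M'.i1.isOpenEmbedding.isInducing.specializes_iff).1 h1
  · apply hom_inj
    rw [← toSA_st, ← toSA_st, ← M'.st1, ← M.st1, ← Category.assoc, ht, Category.assoc, he,
      Category.assoc]

lemma Hyp.transfer {F F' : Type} [Field F] [Field F'] [Algebra K F] [Algebra K F'] {f : K[X]}
    {x y : F'} (H : Hyp f x y) (φ : F' →+* F)
    (hK : ∀ r, φ (algebraMap K F' r) = algebraMap K F r) (hs : Function.Surjective φ) :
    Hyp f (φ x) (φ y) := by
  let φ' : F' →ₐ[K] F := { φ with commutes' := hK }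
  have hal : ∀ p : K[X], aeval (φ x) p = φ (aeval x p) := fun p =>
    aeval_algHom_apply φ' x p
  refine ⟨?_, ?_, ?_⟩
  · rw [← map_pow, H.eqn, hal]
  · intro z
    obtain ⟨w, rfl⟩ := hs z
    obtain ⟨a, b, c, hc, h⟩ := H.gen w
    refine ⟨a, b, c, hc, ?_⟩
    rw [hal, hal, hal, ← map_mul, h, map_add, map_mul]
  · intro a b h
    rw [hal, hal, ← map_mul, ← map_add] at h
    exact H.ind a b (φ.injective (by rw [h, map_zero]))

/-- Isomorphic curves have isomorphic function fields. -/
lemma exists_hyp (M : Model H π) (hA : IsDomain (A f)) (hB : IsDomain (A h))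
    {f' h' : K[X]} {H' : Rel g f' h'} {X' : Scheme.{0}} {π' : X' ⟶ SB K} (M' : Model H' π')
    (hA' : IsDomain (A f')) (hB' : IsDomain (A h')) (e : X ≅ X') (he : e.hom ≫ π' = π)
    (F F' : Type) [Field F] [Field F'] [Algebra (A f) F] [Algebra (A f') F'] [Algebra K F]
    [Algebra K F'] [IsScalarTower K (A f) F] [IsScalarTower K (A f') F'] [IsFractionRing (A f) F]
    [IsFractionRing (A f') F'] :
    ∃ x y u v : F, Hyp f x y ∧ Hyp f' u v := by
  have hi : Function.Injective (algebraMap (A f) F) := IsFractionRing.injective _ _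
  have hi' : Function.Injective (algebraMap (A f') F') := IsFractionRing.injective _ _
  obtain ⟨τ, hτ, h1, h2⟩ := exists_tau M hB M' hA' e he (algebraMap (A f) F) hi
  obtain ⟨τ', hτ', h1', h2'⟩ := exists_tau M' hB' M hA e.symm
    (by rw [Iso.symm_hom, Iso.inv_comp_eq, he]) (algebraMap (A f') F') hi'
  let τh : F' →+* F := IsFractionRing.lift hτ
  have hτh : τh.comp (algebraMap (A f') F') = τ := by
    apply RingHom.ext
    intro z
    exact IsFractionRing.lift_algebraMap hτ z
  have hcomp : τh.comp τ' = algebraMap (A f) F := by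
    have h3 : toSA f (τh.comp τ') ≫ M.i1 = toSA f (algebraMap (A f) F) ≫ M.i1 := by
      rw [← comp_toSA, Category.assoc, h1', ← Category.assoc, ← Category.assoc, comp_toSA, hτh, h1,
        Category.assoc, Iso.symm_hom, Iso.hom_inv_id, Category.comp_id]
    rw [cancel_mono] at h3
    exact toSA_inj h3
  have hsurj : Function.Surjective τh := by
    intro z
    obtain ⟨s, t, ht, rfl⟩ := IsFractionRing.div_surjective (A := A f) z
    refine ⟨τ' s / τ' t, ?_⟩
    rw [map_div₀]
    have h4 : ∀ a, τh (τ' a) = algebraMap (A f) F a := fun a => DFunLike.congr_fun hcomp a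
    rw [h4, h4]
  refine ⟨_, _, _, _, hyp_frac (F := F) f hA, (hyp_frac (F := F') f' hA').transfer τh ?_ hsurj⟩
  intro r
  have h5 := DFunLike.congr_fun h2 r
  rw [← hτh] at h5
  simp only [RingHom.comp_apply] at h5
  rw [IsScalarTower.algebraMap_apply K (A f') F', h5, ← IsScalarTower.algebraMap_apply]

end generic

section noiso

variable {K : Type} [Field K]

lemma squarefree_f (g : ℕ) (p q : K) (hd : dsc g p q ≠ 0) : Squarefree (fp g p q) := by
  have h : (fp g p q).Separable := coprime_f g p q (isUnit_iff_ne_zero.2 hd)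
  exact h.squarefree

lemma squarefree_h (g : ℕ) (hg : 1 ≤ g) (p q : K) (hd : dsc g p q ≠ 0) :
    Squarefree (hp g p q) := by
  have h : (hp g p q).Separable := coprime_h g p q hg (isUnit_iff_ne_zero.2 hd)
  exact h.squarefree

lemma not_isUnit_f (g : ℕ) (hg : 1 ≤ g) (p q : K) : ¬ IsUnit (fp g p q) := by
  intro hu
  have h1 := natDegree_eq_zero_of_isUnit hu
  rw [fp_natDegree g p q hg] at h1
  omega

lemma not_isUnit_h (g : ℕ) (p q : K) : ¬ IsUnit (hp g p q) := by
  intro hu
  have h1 := hu.map (evalRingHom (0 : K))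
  rw [coe_evalRingHom, ← coeff_zero_eq_eval_zero, hp_coeff] at h1
  exact not_isUnit_zero h1

/-- The curves `y² = x^(2g+1) + p x` and `y² = x^(2g+1) + q` are not isomorphic. -/
theorem no_iso [CharZero K] (g : ℕ) (hg : 2 ≤ g) (p q : K) (hp0 : p ≠ 0) (hq0 : q ≠ 0) {X X' : Scheme.{0}}
    {π : X ⟶ SB K} {π' : X' ⟶ SB K} (M : Model (rel_fh g p (0 : K)) π)
    (M' : Model (rel_fh g (0 : K) q) π') (e : X ≅ X') (he : e.hom ≫ π' = π) : False := by
  have hn1 : (2 * g : K) ≠ 0 := mul_ne_zero two_ne_zero (Nat.cast_ne_zero.2 (by omega))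
  have hn2 : (2 * g + 1 : K) ≠ 0 := by exact_mod_cast (Nat.succ_ne_zero (2 * g))
  have d1 : dsc g p 0 ≠ 0 := by
    unfold dsc
    rw [zero_pow (by omega), mul_zero, add_zero]
    exact mul_ne_zero (pow_ne_zero _ hn1) (pow_ne_zero _ hp0)
  have d2 : dsc g 0 q ≠ 0 := by
    unfold dsc
    rw [zero_pow (by omega), mul_zero, zero_add]
    exact mul_ne_zero (pow_ne_zero _ hn2) (pow_ne_zero _ hq0)
  have a1 := isDomain_A _ (squarefree_f g p 0 d1) (not_isUnit_f g (by omega) p 0)
  have a2 := isDomain_A _ (squarefree_f g 0 q d2) (not_isUnit_f g (by omega) 0 q)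
  have b1 := isDomain_A _ (squarefree_h g (by omega) p 0 d1) (not_isUnit_h g p 0)
  have b2 := isDomain_A _ (squarefree_h g (by omega) 0 q d2) (not_isUnit_h g 0 q)
  obtain ⟨x, y, u, v, H1, H2⟩ := exists_hyp M a1 b1 M' a2 b2 e he
    (FractionRing (A (fp g p 0))) (FractionRing (A (fp g 0 q)))
  exact no_hyp g hg p q hp0 hq0 H1 H2

end noiso

end Pool.Agent.TH188.MG
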