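import Mathlib

/-!
# Gluing two schemes along an open subscheme
-/

set_option autoImplicit false

open CategoryTheory CategoryTheory.Limits AlgebraicGeometry

namespace Pool.Agent.TH188.MG

section glue

variable {W U V : Scheme.{0}} (i : W ⟶ U) (j : W ⟶ V) [IsOpenImmersion i] [IsOpenImmersion j]

instance openImm_span {a b : WalkingSpan} (f : a ⟶ b) : IsOpenImmersion ((span i j).map f) := by
  match a, b, f with
  | x, _, WidePushoutShape.Hom.id _ =>
    exact (inferInstance : IsOpenImmersion (𝟙 ((span i j).obj x)))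
  | _, _, WidePushoutShape.Hom.init WalkingPair.left => exact (inferInstance : IsOpenImmersion i)
  | _, _, WidePushoutShape.Hom.init WalkingPair.right => exact (inferInstance : IsOpenImmersion j)

/-- Gluing of two schemes along an open subscheme. -/
noncomputable def glued : Scheme.{0} := colimit (span i j)

/-- The first part. -/
noncomputable def gl1 : U ⟶ glued i j := colimit.ι (span i j) WalkingSpan.left

/-- The second part. -/
noncomputable def gl2 : V ⟶ glued i j := colimit.ι (span i j) WalkingSpan.right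

instance : IsOpenImmersion (gl1 i j) :=
  inferInstanceAs (IsOpenImmersion (colimit.ι (span i j) WalkingSpan.left))

instance : IsOpenImmersion (gl2 i j) :=
  inferInstanceAs (IsOpenImmersion (colimit.ι (span i j) WalkingSpan.right))

lemma gl_comm : i ≫ gl1 i j = j ≫ gl2 i j := pushout.condition (f := i) (g := j)

lemma gl_zero : colimit.ι (span i j) WalkingSpan.zero = i ≫ gl1 i j :=
  (colimit.w (span i j) WalkingSpan.Hom.fst).symm

lemma gl_cover (x : glued i j) : x ∈ Set.range (gl1 i j) ∨ x ∈ Set.range (gl2 i j) := by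
  obtain ⟨k, y, hy⟩ := Scheme.IsLocallyDirected.ι_jointly_surjective (span i j) x
  match k, y, hy with
  | WalkingSpan.left, y, hy => exact Or.inl ⟨y, hy⟩
  | WalkingSpan.right, y, hy => exact Or.inr ⟨y, hy⟩
  | WalkingSpan.zero, y, hy =>
    left
    rw [gl_zero] at hy
    exact ⟨i y, by rw [← hy]; rfl⟩

lemma gl_eq {x : U} {y : V} (h : gl1 i j x = gl2 i j y) : ∃ w : W, i w = x ∧ j w = y := by
  obtain ⟨k, fi, fj, w, h1, h2⟩ := (Scheme.IsLocallyDirected.ι_eq_ι_iff (span i j)).1 h
  match k, fi, fj, w, h1, h2 with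
  | WalkingSpan.zero, WidePushoutShape.Hom.init WalkingPair.left,
      WidePushoutShape.Hom.init WalkingPair.right, w, h1, h2 => exact ⟨w, h1, h2⟩

lemma gl_overlap : IsPullback i j (gl1 i j) (gl2 i j) := by
  refine (IsOpenImmersion.isPullback j i (gl2 i j) (gl1 i j) (gl_comm i j) ?_).flip
  ext x
  constructor
  · rintro ⟨y, hy⟩
    obtain ⟨w, h1, _⟩ := gl_eq i j hy.symm
    exact ⟨w, h1⟩
  · rintro ⟨w, rfl⟩
    refine ⟨j w, ?_⟩
    have := congrArg (fun φ => φ w) (gl_comm i j)
    exact this.symm

/-- Maps from a glued scheme. -/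
noncomputable def gl_desc {Z : Scheme.{0}} (a : U ⟶ Z) (b : V ⟶ Z) (h : i ≫ a = j ≫ b) :
    glued i j ⟶ Z := pushout.desc a b h

lemma gl1_desc {Z : Scheme.{0}} (a : U ⟶ Z) (b : V ⟶ Z) (h : i ≫ a = j ≫ b) :
    gl1 i j ≫ gl_desc i j a b h = a := pushout.inl_desc a b h

lemma gl2_desc {Z : Scheme.{0}} (a : U ⟶ Z) (b : V ⟶ Z) (h : i ≫ a = j ≫ b) :
    gl2 i j ≫ gl_desc i j a b h = b := pushout.inr_desc a b h

end glue

section two

/-! ### Schemes covered by two open subschemes -/

variable {X U V : Scheme.{0}}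

/-- The index type -/
def cov2X (U V : Scheme.{0}) : Bool → Scheme.{0}
  | true => U
  | false => V

/-- The maps -/
def cov2f (a : U ⟶ X) (b : V ⟶ X) : ∀ c : Bool, cov2X U V c ⟶ X
  | true => a
  | false => b

/-- The open cover by two open subschemes. -/
noncomputable def cov2 (a : U ⟶ X) (b : V ⟶ X) [ha : IsOpenImmersion a] [hb : IsOpenImmersion b]
    (hc : ∀ x : X, x ∈ Set.range a ∨ x ∈ Set.range b) : X.OpenCover :=
  Scheme.Cover.mkOfCovers Bool (cov2X U V) (cov2f a b)
    (fun x => by
      rcases hc x with ⟨y, hy⟩ | ⟨y, hy⟩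
      · exact ⟨true, y, hy⟩
      · exact ⟨false, y, hy⟩)
    (fun c => by
      match c with
      | true => exact ha
      | false => exact hb)

/-- A property of morphisms which is local at the source can be checked on two open subschemes. -/
lemma of_cov2 (P : MorphismProperty Scheme.{0}) [IsZariskiLocalAtSource P] {Y : Scheme.{0}}
    (π : X ⟶ Y) (a : U ⟶ X) (b : V ⟶ X) [IsOpenImmersion a] [IsOpenImmersion b]
    (hc : ∀ x : X, x ∈ Set.range a ∨ x ∈ Set.range b) (h1 : P (a ≫ π)) (h2 : P (b ≫ π)) : P π := by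
  refine IsZariskiLocalAtSource.of_openCover (cov2 a b hc) ?_
  intro c
  match c with
  | true => exact h1
  | false => exact h2

end two

end Pool.Agent.TH188.MG
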