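import Pool.Agent.TH188.MG.Gauss

/-!
# Hyperelliptic function fields
-/

set_option autoImplicit false

open Polynomial

namespace Pool.Agent.TH188.MG

section

variable {k : Type} [Field k]

lemma sq_lemma (f m κ D : k[X]) (hf : Squarefree f) (hκ : κ ≠ 0) (h : κ ^ 2 * D = m ^ 2 * f) :
    ∃ w, D = f * w ^ 2 := by
  have h1 : κ ^ 2 * (D * f) = (m * f) ^ 2 := by linear_combination f * h
  have h2 : κ ^ 2 ∣ (m * f) ^ 2 := ⟨_, h1.symm⟩
  have h3 : κ ∣ m * f := (IsIntegrallyClosed.pow_dvd_pow_iff two_ne_zero).1 h2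
  obtain ⟨w, hw⟩ := h3
  have h4 : D * f = w ^ 2 := by
    apply mul_left_cancel₀ (pow_ne_zero 2 hκ)
    rw [h1, hw]
    ring
  have h5 : f ∣ w ^ 2 := ⟨D, by rw [← h4, mul_comm]⟩
  have h6 : f ∣ w := (hf.dvd_pow_iff_dvd two_ne_zero).1 h5
  obtain ⟨w', hw'⟩ := h6
  refine ⟨w', mul_right_cancel₀ hf.ne_zero ?_⟩
  rw [h4, hw']
  ring

variable {K : Type} [Field K] [Algebra k K]

/-- `K` is the function field of `y² = f(x)`. -/
structure Hyp (f : k[X]) (x y : K) : Prop where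
  eqn : y ^ 2 = aeval x f
  gen : ∀ z : K, ∃ a b c : k[X], c ≠ 0 ∧ aeval x c * z = aeval x a + aeval x b * y
  ind : ∀ a b : k[X], aeval x a + aeval x b * y = 0 → a = 0 ∧ b = 0

lemma Hyp.inj {f : k[X]} {x y : K} (H : Hyp f x y) :
    Function.Injective (aeval x : k[X] →ₐ[k] K) := by
  rw [injective_iff_map_eq_zero]
  intro a ha
  exact (H.ind a 0 (by rw [ha, map_zero, zero_mul, add_zero])).1

/-- The quadratic relation. -/
noncomputable def quad (f a b c : k[X]) : k[X][X] :=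
  C (c ^ 2) * X ^ 2 + C (-(2 * a * c)) * X + C (a ^ 2 - b ^ 2 * f)

lemma Hyp.ev_quad {f : k[X]} {x y : K} (H : Hyp f x y) {a b c : k[X]} {z : K}
    (h : aeval x c * z = aeval x a + aeval x b * y) : ev x z (quad f a b c) = 0 := by
  simp only [quad, map_add, map_mul, map_pow, ev_C, ev_X, map_neg, map_sub, map_ofNat]
  have := H.eqn
  linear_combination (aeval x c * z - aeval x a + aeval x b * y) * h + (aeval x b) ^ 2 * this

lemma quad_coeff2 (f a b c : k[X]) : (quad f a b c).coeff 2 = c ^ 2 := by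
  simp only [quad, coeff_add, coeff_C_mul, coeff_X_pow, coeff_X, coeff_C]
  norm_num

lemma quad_coeff1 (f a b c : k[X]) : (quad f a b c).coeff 1 = -(2 * a * c) := by
  simp only [quad, coeff_add, coeff_C_mul, coeff_X_pow, coeff_X, coeff_C]
  norm_num

lemma quad_coeff0 (f a b c : k[X]) : (quad f a b c).coeff 0 = a ^ 2 - b ^ 2 * f := by
  simp only [quad, coeff_add, coeff_C_mul, coeff_X_pow, coeff_X, coeff_C]
  norm_num

lemma quad_ne_zero (f a b : k[X]) {c : k[X]} (hc : c ≠ 0) : quad f a b c ≠ 0 := by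
  intro h
  have h1 := quad_coeff2 f a b c
  rw [h, coeff_zero] at h1
  exact pow_ne_zero 2 hc h1.symm

lemma quad_natDegree (f a b c : k[X]) : (quad f a b c).natDegree ≤ 2 := by
  unfold quad
  compute_degree

/-- The hyperelliptic map is unique: `u` is a rational function of `x`. -/
lemma Hyp.exists_ratio {f1 f2 : k[X]} {x y u v : K} (h2 : (2 : k) ≠ 0) (H1 : Hyp f1 x y)
    (H2 : Hyp f2 u v) (hf : Squarefree f1) (hd : 5 ≤ f1.natDegree) :
    ∃ a c : k[X], c ≠ 0 ∧ aeval x c * u = aeval x a := by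
  obtain ⟨a, b, c, hc, h⟩ := H1.gen u
  by_cases hb : b = 0
  · exact ⟨a, c, hc, by rw [h, hb, map_zero, zero_mul, add_zero]⟩
  exfalso
  obtain ⟨a', b', c', hc', h'⟩ := H2.gen x
  let _ : NormalizedGCDMonoid k[X] := Classical.arbitrary _
  set Φ := (quad f1 a b c).primPart with hΦ
  set κ := (quad f1 a b c).content with hκ
  have hq : quad f1 a b c = C κ * Φ := (quad f1 a b c).eq_C_content_mul_primPart
  have hκ0 : κ ≠ 0 := by
    intro h0
    rw [h0, C_0, zero_mul] at hq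
    exact quad_ne_zero f1 a b hc hq
  have hprim : Φ.IsPrimitive := (quad f1 a b c).isPrimitive_primPart
  have hκx : aeval x κ ≠ 0 := fun h0 => hκ0 (H1.inj (by rw [h0, map_zero]))
  have hΦu : ev x u Φ = 0 := by
    have h3 := H1.ev_quad h
    rw [hq, map_mul, ev_C] at h3
    exact (mul_eq_zero.1 h3).resolve_left hκx
  have hΦd : Φ.natDegree ≤ 2 := by
    have h3 := quad_natDegree f1 a b c
    rwa [hq, natDegree_C_mul hκ0] at h3
  have hmin : ∀ Q : k[X][X], Q ≠ 0 → ev x u Q = 0 → Φ.natDegree ≤ Q.natDegree := by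
    intro Q hQ hQu
    refine hΦd.trans ?_
    by_contra hcon
    have hQ1 : Q.natDegree ≤ 1 := by omega
    have hQe : Q = C (Q.coeff 1) * X + C (Q.coeff 0) := eq_X_add_C_of_natDegree_le_one hQ1
    rw [hQe, map_add, map_mul, ev_C, ev_C, ev_X] at hQu
    have h3 : aeval x (Q.coeff 1 * a + c * Q.coeff 0) + aeval x (Q.coeff 1 * b) * y = 0 := by
      simp only [map_add, map_mul]
      linear_combination (aeval x c) * hQu - (aeval x (Q.coeff 1)) * h
    obtain ⟨h4, h5⟩ := H1.ind _ _ h3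
    have h6 : Q.coeff 1 = 0 := (mul_eq_zero.1 h5).resolve_right hb
    rw [h6, zero_mul, zero_add] at h4
    have h7 : Q.coeff 0 = 0 := (mul_eq_zero.1 h4).resolve_left hc
    apply hQ
    rw [hQe, h6, h7]
    simp
  have hbound : ∀ j, (Φ.coeff j).natDegree ≤ 2 := fun j =>
    (degree_bound x u H1.inj Φ hprim hΦu hmin (quad f2 a' b' c') (quad_ne_zero f2 a' b' hc')
      (H2.ev_quad h') j).trans (quad_natDegree f2 a' b' c')
  set D := Φ.coeff 1 ^ 2 - 4 * (Φ.coeff 2 * Φ.coeff 0) with hD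
  have hDd : D.natDegree ≤ 4 := by
    have e1 : (Φ.coeff 1 ^ 2).natDegree ≤ 4 := by
      refine natDegree_pow_le.trans ?_
      have := hbound 1
      omega
    have e2 : (4 * (Φ.coeff 2 * Φ.coeff 0)).natDegree ≤ 4 := by
      have e3 : (4 : k[X]) = C 4 := (C_ofNat 4).symm
      rw [e3]
      refine (natDegree_C_mul_le _ _).trans (natDegree_mul_le.trans ?_)
      have := hbound 2
      have := hbound 0
      omega
    exact (natDegree_sub_le _ _).trans (max_le e1 e2)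
  have c2 : c ^ 2 = κ * Φ.coeff 2 := by rw [← quad_coeff2 f1 a b c, hq, coeff_C_mul]
  have c1 : -(2 * a * c) = κ * Φ.coeff 1 := by rw [← quad_coeff1 f1 a b c, hq, coeff_C_mul]
  have c0 : a ^ 2 - b ^ 2 * f1 = κ * Φ.coeff 0 := by rw [← quad_coeff0 f1 a b c, hq, coeff_C_mul]
  have hrel : κ ^ 2 * D = (2 * b * c) ^ 2 * f1 := by
    have : κ ^ 2 * D = (κ * Φ.coeff 1) ^ 2 - 4 * ((κ * Φ.coeff 2) * (κ * Φ.coeff 0)) := by
      rw [hD]
      ring
    rw [this, ← c0, ← c1, ← c2]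
    ring
  have h2' : (2 : k[X]) ≠ 0 := by
    have : (2 : k[X]) = C 2 := (C_ofNat 2).symm
    rw [this]
    exact C_ne_zero.2 h2
  have hD0 : D ≠ 0 := by
    intro h0
    rw [h0, mul_zero] at hrel
    exact mul_ne_zero (pow_ne_zero 2 (mul_ne_zero (mul_ne_zero h2' hb) hc)) hf.ne_zero hrel.symm
  obtain ⟨w, hw⟩ := sq_lemma f1 _ κ D hf hκ0 hrel
  have hw0 : w ≠ 0 := by
    rintro rfl
    rw [zero_pow two_ne_zero, mul_zero] at hw
    exact hD0 hw
  have := natDegree_mul hf.ne_zero (pow_ne_zero 2 hw0)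
  rw [← hw] at this
  omega

end

end Pool.Agent.TH188.MG
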