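import Pool.Agent.TH188.MG.NoIso

/-!
# The polynomial identity has no solutions
-/

set_option autoImplicit false

open Polynomial

namespace Pool.Agent.TH188.MG

section ident

variable {k : Type} [Field k]

lemma lin_factor {a b : k} (ha : a ≠ 0) : (C a * X + C b : k[X]) = C a * (X + C (b / a)) := by
  rw [mul_add, ← C_mul, mul_div_cancel₀ _ ha]

lemma lin_pow_coeff {a b : k} (ha : a ≠ 0) (n j : ℕ) :
    ((C a * X + C b : k[X]) ^ n).coeff j = a ^ n * ((b / a) ^ (n - j) * (n.choose j : k)) := by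
  rw [lin_factor ha, mul_pow, ← C_pow, coeff_C_mul, coeff_X_add_C_pow]

lemma coeff_fp (g : ℕ) (p q : k) (j : ℕ) (h2 : 2 ≤ j) (hj : j ≠ 2 * g + 1) :
    (fp g p q).coeff j = 0 := by
  unfold fp
  rw [coeff_add, coeff_add, coeff_X_pow, if_neg hj, coeff_C_mul, coeff_X, if_neg (by omega),
    coeff_C, if_neg (by omega)]
  ring

lemma coeff_fp_one (g : ℕ) (hg : 1 ≤ g) (p q : k) : (fp g p q).coeff 1 = p := by
  unfold fp
  rw [coeff_add, coeff_add, coeff_X_pow, if_neg (by omega), coeff_C_mul, coeff_X, if_pos rfl,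
    coeff_C, if_neg (by omega)]
  ring

lemma choose_rel (g : ℕ) [CharZero k] :
    ((2 * g + 1).choose 2 : k) = g * (2 * g + 1) ∧
      3 * ((2 * g + 1).choose 3 : k) = (2 * g - 1) * ((2 * g + 1).choose 2 : k) := by
  constructor
  · have h1 := Nat.choose_two_right (2 * g + 1)
    have h2 : (2 * g + 1) * (2 * g + 1 - 1) / 2 = g * (2 * g + 1) := by
      rw [show (2 * g + 1) * (2 * g + 1 - 1) = (g * (2 * g + 1)) * 2 by
        rw [Nat.add_sub_cancel]; ring]
      exact Nat.mul_div_cancel _ (by norm_num)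
    rw [h1, h2]
    push_cast
    ring
  · have h1 := Nat.choose_succ_right_eq (2 * g + 1) 2
    by_cases hg : g = 0
    · subst hg
      have h3 : Nat.choose 1 3 = 0 := rfl
      simp [h3]
    · obtain ⟨m, rfl⟩ : ∃ m, g = m + 1 := ⟨g - 1, by omega⟩
      rw [show 2 * (m + 1) + 1 - 2 = 2 * m + 1 by omega] at h1
      have h2 := congrArg (Nat.cast (R := k)) h1
      push_cast at h2 ⊢
      linear_combination h2

theorem no_ident [CharZero k] (g : ℕ) (hg : 2 ≤ g) (p q α β γ δ c : k) (hp : p ≠ 0)
    (hc : c ≠ 0) (hq : q ≠ 0) (hdet : α * δ - β * γ ≠ 0)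
    (h : num g q α β γ δ = C c * fp g p 0) : False := by
  by_cases hγ : γ = 0
  · subst hγ
    have hα : α ≠ 0 := by
      rintro rfl
      simp at hdet
    have hδ : δ ≠ 0 := by
      rintro rfl
      simp at hdet
    have h1 : ∀ j, (num g q α β 0 δ).coeff j =
        δ * (α ^ (2 * g + 1) * ((β / α) ^ (2 * g + 1 - j) * ((2 * g + 1).choose j : k)) +
          q * ((C (δ ^ (2 * g + 1)) : k[X]).coeff j)) := by
      intro j
      unfold num
      rw [C_0, zero_mul, zero_add, coeff_C_mul, coeff_add, lin_pow_coeff hα, ← C_pow, coeff_C_mul]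
    have h2 := h1 (2 * g)
    rw [h, coeff_C_mul, coeff_fp g p 0 (2 * g) (by omega) (by omega), mul_zero, coeff_C,
      if_neg (by omega), mul_zero, add_zero, show 2 * g + 1 - 2 * g = 1 by omega, pow_one,
      Nat.choose_succ_self_right] at h2
    have h3 : β = 0 := by
      by_contra hβ
      have h4 : δ * (α ^ (2 * g + 1) * (β / α * ((2 * g + 1 : ℕ) : k))) ≠ 0 := by
        have : ((2 * g + 1 : ℕ) : k) ≠ 0 := Nat.cast_ne_zero.2 (by omega)
        positivity
      exact h4 h2.symm
    have h5 := h1 1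
    rw [h, coeff_C_mul, coeff_fp_one g (by omega), coeff_C, if_neg (by omega), mul_zero, add_zero,
      h3, zero_div, zero_pow (by omega), zero_mul, mul_zero, mul_zero] at h5
    exact mul_ne_zero hc hp h5
  · set σ : k[X] := C γ⁻¹ * X + C (-(δ / γ)) with hσ
    set a : k := α / γ with ha
    set d : k := β - α * δ / γ with hd
    have hd0 : d ≠ 0 := by
      intro h0
      apply hdet
      have : α * δ - β * γ = -(γ * d) := by
        rw [hd]
        field_simp
        ring
      rw [this, h0, mul_zero, neg_zero]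
    have hγi : γ⁻¹ ≠ 0 := inv_ne_zero hγ
    have s1 : (C γ * X + C δ : k[X]).comp σ = X := by
      rw [hσ]
      simp only [add_comp, mul_comp, C_comp, X_comp]
      have e1 : (C γ * C γ⁻¹ : k[X]) = 1 := by rw [← C_mul, mul_inv_cancel₀ hγ, C_1]
      have e2 : (C γ * C (-(δ / γ)) + C δ : k[X]) = 0 := by
        rw [← C_mul, ← C_add]
        have : γ * -(δ / γ) + δ = 0 := by
          field_simp
          ring
        rw [this, C_0]
      linear_combination X * e1 + e2
    have s2 : (C α * X + C β : k[X]).comp σ = C a * X + C d := by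
      rw [hσ]
      simp only [add_comp, mul_comp, C_comp, X_comp]
      have e1 : (C α * C γ⁻¹ : k[X]) = C a := by rw [← C_mul, ha, div_eq_mul_inv]
      have e2 : (C α * C (-(δ / γ)) + C β : k[X]) = C d := by
        rw [← C_mul, ← C_add]
        have : α * -(δ / γ) + β = d := by
          rw [hd]
          ring
        rw [this]
      linear_combination X * e1 + e2
    have hcomp : X * ((C a * X + C d) ^ (2 * g + 1) + C q * X ^ (2 * g + 1)) =
        C c * (σ ^ (2 * g + 1) + C p * σ) := by
      have h1 := congrArg (fun P => P.comp σ) h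
      simp only [num, fp, mul_comp, add_comp, pow_comp, C_comp, X_comp] at h1 s1 s2
      rw [s1, s2, C_0, add_zero] at h1
      exact h1
    have hL : ∀ j, (X * ((C a * X + C d) ^ (2 * g + 1) + C q * X ^ (2 * g + 1))).coeff (j + 1) =
        ((C a * X + C d) ^ (2 * g + 1)).coeff j + q * (if j = 2 * g + 1 then 1 else 0) := by
      intro j
      rw [coeff_X_mul, coeff_add, coeff_C_mul, coeff_X_pow]
    have hR : ∀ j, 2 ≤ j → (C c * (σ ^ (2 * g + 1) + C p * σ)).coeff j =
        c * (γ⁻¹ ^ (2 * g + 1) * ((-δ) ^ (2 * g + 1 - j) * ((2 * g + 1).choose j : k))) := by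
      intro j hj
      have e1 : -(δ / γ) / γ⁻¹ = -δ := by
        field_simp
      rw [coeff_C_mul, coeff_add, hσ, lin_pow_coeff hγi, coeff_C_mul, coeff_add, coeff_C_mul,
        coeff_X, if_neg (by omega), coeff_C, if_neg (by omega), e1]
      ring
    have ha0 : a ≠ 0 := by
      intro h0
      have h1 := hL (2 * g + 1)
      rw [hcomp, hR _ (by omega), h0, C_0, zero_mul, zero_add, ← C_pow, coeff_C,
        if_neg (by omega), if_pos rfl, Nat.choose_eq_zero_of_lt (by omega)] at h1
      simp at h1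
      exact hq h1.symm
    have hA0 : a ^ (2 * g + 1) ≠ 0 := pow_ne_zero _ ha0
    set t : k := d / a with ht
    have ht0 : t ≠ 0 := div_ne_zero hd0 ha0
    have k1 := hL (2 * g)
    have k2 := hL (2 * g - 1)
    have k3 := hL (2 * g - 2)
    rw [hcomp, hR _ (by omega), if_neg (by omega), lin_pow_coeff ha0, ← ht] at k1 k2 k3
    rw [show 2 * g + 1 - (2 * g + 1) = 0 by omega, show 2 * g + 1 - 2 * g = 1 by omega,
      Nat.choose_self, Nat.choose_succ_self_right] at k1
    rw [show 2 * g - 1 + 1 = 2 * g by omega, show 2 * g + 1 - 2 * g = 1 by omega,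
      show 2 * g + 1 - (2 * g - 1) = 2 by omega, Nat.choose_succ_self_right,
      Nat.choose_symm_of_eq_add (show 2 * g + 1 = (2 * g - 1) + 2 by omega)] at k2
    rw [show 2 * g - 2 + 1 = 2 * g - 1 by omega, show 2 * g + 1 - (2 * g - 1) = 2 by omega,
      show 2 * g + 1 - (2 * g - 2) = 3 by omega,
      Nat.choose_symm_of_eq_add (show 2 * g + 1 = (2 * g - 1) + 2 by omega),
      Nat.choose_symm_of_eq_add (show 2 * g + 1 = (2 * g - 2) + 3 by omega)] at k3
    obtain ⟨c2, c3⟩ := choose_rel (k := k) g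
    push_cast at k1 k2 k3
    set A : k := a ^ (2 * g + 1) with hA
    set G : k := c * γ⁻¹ ^ (2 * g + 1) with hG
    set N : k := 2 * g + 1 with hN
    have hN0 : N ≠ 0 := by
      rw [hN]
      exact_mod_cast (Nat.succ_ne_zero (2 * g))
    have e1 : A * t * N = G := by
      rw [hG]
      linear_combination -k1
    have hg0 : (g : k) ≠ 0 := Nat.cast_ne_zero.2 (by omega)
    have e2 : t * g = N * (-δ) := by
      have h1 : A * t * N * (t * g) = A * t * N * (N * (-δ)) := by
        rw [c2] at k2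
        rw [hG] at e1
        linear_combination -k2 - (N * (-δ)) * e1
      exact mul_left_cancel₀ (mul_ne_zero (mul_ne_zero hA0 ht0) hN0) h1
    have e3 : (2 * g - 1) * t ^ 2 = 3 * N * (-δ) ^ 2 := by
      have h1 : A * t * ((2 * g + 1).choose 2 : k) * ((2 * g - 1) * t ^ 2) =
          A * t * ((2 * g + 1).choose 2 : k) * (3 * N * (-δ) ^ 2) := by
        rw [hG] at e1
        linear_combination -3 * k3 - (A * t ^ 3) * c3 -
          3 * ((2 * g + 1).choose 2 : k) * (-δ) ^ 2 * e1
      refine mul_left_cancel₀ (mul_ne_zero (mul_ne_zero hA0 ht0) ?_) h1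
      rw [c2]
      exact mul_ne_zero hg0 hN0
    have e4 : ((g : k) ^ 2 - 1) * t ^ 2 = 0 := by
      have h1 : (t * g) ^ 2 = (N * (-δ)) ^ 2 := by rw [e2]
      rw [hN] at h1 e3
      linear_combination (2 * g + 1) * e3 - 3 * h1
    have e5 : (g : k) ^ 2 - 1 = 0 := (mul_eq_zero.1 e4).resolve_right (pow_ne_zero 2 ht0)
    have e6 : ((g ^ 2 : ℕ) : k) = ((1 : ℕ) : k) := by
      push_cast
      linear_combination e5
    have e7 : g ^ 2 = 1 := Nat.cast_injective e6
    nlinarith

end ident

end Pool.Agent.TH188.MG
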