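import Pool.Agent.TH188.MG.Generic
import Pool.Agent.TH188.MG.FamB

/-!
# The affine line in the coarse moduli space of curves
-/

set_option autoImplicit false

open Polynomial CategoryTheory CategoryTheory.Limits AlgebraicGeometry

namespace Pool.Agent.TH188.MG

lemma IsCurveFamily.baseChange {g : ℕ} {X S X' S' : Scheme.{0}} {π : X ⟶ S}
    (h : IsCurveFamily g π) {π' : X' ⟶ S'} {c : X' ⟶ X} {φ : S' ⟶ S}
    (hc : IsPullback c π' π φ) : IsCurveFamily g π' where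
  smooth := by
    have := smoothOfRelativeDimension_isStableUnderBaseChange.{0} 1
    exact MorphismProperty.of_isPullback (P := @SmoothOfRelativeDimension.{0} 1) hc h.smooth
  proper := MorphismProperty.of_isPullback (P := @IsProper) hc h.proper
  fibre := by
    intro K _ _ s Y c' q hq
    exact h.fibre K (s ≫ φ) Y (c' ≫ c) q (hq.paste_horiz hc)

lemma Model.congr {K : Type} [CommRing K] {g : ℕ} {f h f' h' : K[X]} {H : Rel g f h}
    {H' : Rel g f' h'} {X : Scheme.{0}} {π : X ⟶ SB K} (e1 : f = f') (e2 : h = h')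
    (M : Model H π) : Nonempty (Model H' π) := by
  subst e1 e2
  exact ⟨M⟩

section

variable (g : ℕ)

lemma exists_alpha (hg : 1 ≤ g) : ∃ α : ℂ, (2 * g : ℂ) ^ (2 * g) * α ^ (2 * g + 1) = 1 ∧ α ≠ 0 := by
  obtain ⟨α, hα⟩ := IsAlgClosed.exists_pow_nat_eq (((2 * g : ℂ) ^ (2 * g))⁻¹)
    (show 0 < 2 * g + 1 by omega)
  have h1 : (2 * g : ℂ) ^ (2 * g) ≠ 0 :=
    pow_ne_zero _ (mul_ne_zero two_ne_zero (Nat.cast_ne_zero.2 (by omega)))
  have h2 : (2 * g : ℂ) ^ (2 * g) * α ^ (2 * g + 1) = 1 := by rw [hα, mul_inv_cancel₀ h1]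
  refine ⟨α, h2, ?_⟩
  rintro rfl
  rw [zero_pow (by omega), mul_zero] at h2
  exact zero_ne_one h2

lemma exists_beta (hg : 1 ≤ g) :
    ∃ β : ℂ, (2 * g + 1 : ℂ) ^ (2 * g + 1) * β ^ (2 * g) = 1 ∧ β ≠ 0 := by
  obtain ⟨β, hβ⟩ := IsAlgClosed.exists_pow_nat_eq (((2 * g + 1 : ℂ) ^ (2 * g + 1))⁻¹)
    (show 0 < 2 * g by omega)
  have h1 : (2 * g + 1 : ℂ) ^ (2 * g + 1) ≠ 0 :=
    pow_ne_zero _ (by exact_mod_cast (Nat.succ_ne_zero (2 * g)))
  have h2 : (2 * g + 1 : ℂ) ^ (2 * g + 1) * β ^ (2 * g) = 1 := by rw [hβ, mul_inv_cancel₀ h1]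
  refine ⟨β, h2, ?_⟩
  rintro rfl
  rw [zero_pow (by omega), mul_zero] at h2
  exact zero_ne_one h2

/-- A point of the cover. -/
noncomputable def eps (a0 b0 : ℂ) (h : a0 ^ (2 * g + 1) + b0 ^ (2 * g) = 1) : B g →+* ℂ :=
  AdjoinRoot.lift (evalRingHom b0) a0 (by
    rw [eval₂_bp]
    simp only [rr, map_sub, map_one, map_pow, coe_evalRingHom, eval_X]
    linear_combination h)

variable (a0 b0 : ℂ) (h : a0 ^ (2 * g + 1) + b0 ^ (2 * g) = 1)

lemma eps_ca : eps g a0 b0 h (ca g) = a0 := AdjoinRoot.lift_root _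

lemma eps_of (p : ℂ[X]) : eps g a0 b0 h (AdjoinRoot.of (bp g) p) = p.eval b0 := by
  unfold eps
  rw [AdjoinRoot.lift_of]
  rfl

lemma eps_cb : eps g a0 b0 h (cb g) = b0 := by
  unfold cb
  rw [eps_of, eval_X]

lemma eps_alg : (eps g a0 b0 h).comp (algebraMap ℂ[X] (B g)) = evalRingHom b0 := by
  apply RingHom.ext
  exact eps_of g a0 b0 h

lemma eps_C (c : ℂ) : eps g a0 b0 h (algebraMap ℂ (B g) c) = c := by
  have h1 : eps g a0 b0 h (algebraMap ℂ (B g) c) = eps g a0 b0 h (AdjoinRoot.of (bp g) (C c)) := rfl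
  rw [h1, eps_of, eval_C]

/-- The structure morphism of the cover. -/
noncomputable def tB : Spec (CommRingCat.of (B g)) ⟶ Spec (CommRingCat.of ℂ) :=
  Spec.map (CommRingCat.ofHom (algebraMap ℂ (B g)))

lemma eps_tB : Spec.map (CommRingCat.ofHom (eps g a0 b0 h)) ≫ tB g = 𝟙 _ := by
  have h1 : (eps g a0 b0 h).comp (algebraMap ℂ (B g)) = RingHom.id ℂ := by
    apply RingHom.ext
    exact eps_C g a0 b0 h
  have h2 := congrArg (fun r => Spec.map (CommRingCat.ofHom r)) h1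
  exact (map_comp' _ _).trans (h2.trans (Spec.map_id _))

end

section

variable (g : ℕ)

lemma sz_alg (z : ℂ) (hz : z ^ (2 * g + 1) = 1) :
    Spec.map (CommRingCat.ofHom (sz g z hz).toRingHom) ≫ tB g = tB g := by
  have h1 : (sz g z hz).toRingHom.comp (algebraMap ℂ (B g)) = algebraMap ℂ (B g) := by
    apply RingHom.ext
    exact sz_C g z hz
  have h2 := congrArg (fun r => Spec.map (CommRingCat.ofHom r)) h1
  exact (map_comp' _ _).trans h2

lemma alg_tB : tB g = Spec.map (CommRingCat.ofHom (algebraMap ℂ[X] (B g))) ≫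
    Spec.map (CommRingCat.ofHom (C : ℂ →+* ℂ[X])) := by
  rw [map_comp']
  rfl

lemma alg_pt (a0 b0 : ℂ) (h : a0 ^ (2 * g + 1) + b0 ^ (2 * g) = 1) :
    Spec.map (CommRingCat.ofHom (eps g a0 b0 h)) ≫
      Spec.map (CommRingCat.ofHom (algebraMap ℂ[X] (B g))) =
      Spec.map (CommRingCat.ofHom (evalRingHom b0)) := by
  rw [map_comp', eps_alg]

/-- The `ℂ`-point of the base of the family and its curve. -/
lemma exists_fibre {M : Scheme.{0}} (s : M ⟶ Spec (CommRingCat.of ℂ)) (Φ : ModuliMap g s)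
    (α β : ℂ) (hfam : IsCurveFamily g (curveStr (HB g α β))) (a0 b0 : ℂ)
    (h : a0 ^ (2 * g + 1) + b0 ^ (2 * g) = 1) (p q : ℂ) (hpp : α * a0 = p) (hqq : β * b0 = q) :
    ∃ (X : Scheme.{0}) (π : X ⟶ Spec (CommRingCat.of ℂ)) (hπ : IsCurveFamily g π),
      Nonempty (Model (rel_fh g p q) π) ∧ Φ.map π (𝟙 _) hπ =
        Spec.map (CommRingCat.ofHom (eps g a0 b0 h)) ≫ Φ.map (curveStr (HB g α β)) (tB g) hfam := by
  have hc : IsPullback (pullback.fst (curveStr (HB g α β))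
      (Spec.map (CommRingCat.ofHom (eps g a0 b0 h))))
      (pullback.snd (curveStr (HB g α β)) (Spec.map (CommRingCat.ofHom (eps g a0 b0 h))))
      (curveStr (HB g α β)) (Spec.map (CommRingCat.ofHom (eps g a0 b0 h))) :=
    IsPullback.of_hasPullback _ _
  have hπ := hfam.baseChange hc
  have M0 := Model.baseChange (eps g a0 b0 h) (curveModel (HB g α β)) hc
  have ep : eps g a0 b0 h (cp g α) = p := by
    rw [cp, map_mul, eps_C, eps_ca, hpp]
  have eq : eps g a0 b0 h (cq g β) = q := by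
    rw [cq, map_mul, eps_C, eps_cb, hqq]
  have e1 : (fB g α β).map (eps g a0 b0 h) = fp g p q := by
    rw [fp_map, ep, eq]
  have e2 : (hB g α β).map (eps g a0 b0 h) = hp g p q := by
    rw [hp_map, ep, eq]
  refine ⟨_, _, hπ, Model.congr e1 e2 M0, ?_⟩
  have h1 := Φ.natural (curveStr (HB g α β)) (tB g) hfam _ hπ _ _ hc
  rw [← h1]
  congr 1
  exact (eps_tB g a0 b0 h).symm

end

/-- **Main theorem.** For every `g ≥ 2` there is a morphism from the affine line over `ℂ` to the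
coarse moduli space of smooth projective curves of genus `g` which is not constant. -/
theorem main (g : ℕ) (hg : 2 ≤ g) {M : Scheme.{0}} (s : M ⟶ Spec (CommRingCat.of ℂ))
    (Φ : ModuliMap g s) (hM : IsCoarseModuliSpace g s Φ) :
    ∃ f : Spec (CommRingCat.of ℂ[X]) ⟶ M,
      f ≫ s = Spec.map (CommRingCat.ofHom (C : ℂ →+* ℂ[X])) ∧
      ∃ x y : Spec (CommRingCat.of ℂ[X]), f x ≠ f y := by
  have hg1 : 1 ≤ g := by omega
  obtain ⟨α, hα, hα0⟩ := exists_alpha g hg1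
  obtain ⟨β, hβ, hβ0⟩ := exists_beta g hg1
  have hfam := famB (g := g) hg1 hα hβ
  set m := Φ.map (curveStr (HB g α β)) (tB g) hfam with hm
  have hms : m ≫ s = tB g := Φ.map_str _ _ _
  have hinv : ∀ (z : ℂ) (hz : z ^ (2 * g + 1) = 1),
      Spec.map (CommRingCat.ofHom (sz g z hz).toRingHom) ≫ m = m := by
    intro z hz
    have h1 := Φ.natural (curveStr (HB g α β)) (tB g) hfam (curveStr (HB g α β)) hfam _ _
      (isPullback_B g α β z hz)
    rw [← hm] at h1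
    rw [← h1, hm]
    congr 1
    exact sz_alg g z hz
  have := hM.separated
  have := hM.finiteType
  have hdom := isDomain_B g hg1
  have hfree := free_B g
  obtain ⟨u, hu, hus⟩ := descend (sg g) (toPi_injective g hg1) s
    (Spec.map (CommRingCat.ofHom (C : ℂ →+* ℂ[X]))) m (by rw [hms, alg_tB])
    (fun i => hinv _ _)
  refine ⟨u, hus, ?_⟩
  by_contra hcon
  push Not at hcon
  obtain ⟨X1, π1, hπ1, ⟨M1⟩, h1⟩ := exists_fibre g s Φ α β hfam 1 0
    (by rw [one_pow, zero_pow (by omega), add_zero]) α 0 (mul_one _) (mul_zero _)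
  obtain ⟨X2, π2, hπ2, ⟨M2⟩, h2⟩ := exists_fibre g s Φ α β hfam 0 1
    (by rw [one_pow, zero_pow (by omega), zero_add]) 0 β (mul_zero _) (mul_one _)
  rw [← hm, ← hu, ← Category.assoc, alg_pt] at h1 h2
  have heq : Φ.map π1 (𝟙 _) hπ1 = Φ.map π2 (𝟙 _) hπ2 := by
    refine ext_of_apply_closedPoint_eq s (Φ.map_str _ _ _) (Φ.map_str _ _ _) ?_
    rw [h1, h2]
    exact hcon (Spec.map (CommRingCat.ofHom (evalRingHom (0 : ℂ))) (pt ℂ))
      (Spec.map (CommRingCat.ofHom (evalRingHom (1 : ℂ))) (pt ℂ))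
  obtain ⟨e, he⟩ := hM.injective π1 π2 hπ1 hπ2 heq
  exact no_iso g hg α β hα0 hβ0 M1 M2 e he

end Pool.Agent.TH188.MG
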