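import Pool.Agent.TH188.MG.Glue

/-!
# Schemes glued from two charts, and base change
-/

set_option autoImplicit false

open CategoryTheory CategoryTheory.Limits AlgebraicGeometry

namespace Pool.Agent.TH188.MG

/-- `X` is covered by two open subschemes with a given overlap, over `S`. -/
structure TwoCover {W U V S : Scheme.{0}} (i : W ⟶ U) (j : W ⟶ V) (s : U ⟶ S) (t : V ⟶ S)
    {X : Scheme.{0}} (π : X ⟶ S) where
  i1 : U ⟶ X
  i2 : V ⟶ X
  o1 : IsOpenImmersion i1
  o2 : IsOpenImmersion i2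
  st1 : i1 ≫ π = s
  st2 : i2 ≫ π = t
  cover : ∀ x : X, x ∈ Set.range i1 ∨ x ∈ Set.range i2
  overlap : IsPullback i j i1 i2

attribute [instance] TwoCover.o1 TwoCover.o2

/-- The charts of a glued scheme. -/
noncomputable def TwoCover.glue {W U V S : Scheme.{0}} (i : W ⟶ U) (j : W ⟶ V)
    [IsOpenImmersion i] [IsOpenImmersion j] (s : U ⟶ S) (t : V ⟶ S) (h : i ≫ s = j ≫ t) :
    TwoCover i j s t (gl_desc i j s t h) where
  i1 := gl1 _ _
  i2 := gl2 _ _
  o1 := inferInstance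
  o2 := inferInstance
  st1 := gl1_desc _ _ _ _ _
  st2 := gl2_desc _ _ _ _ _
  cover := gl_cover _ _
  overlap := gl_overlap _ _

section bc

variable {W U V S : Scheme.{0}} {i : W ⟶ U} {j : W ⟶ V} {s : U ⟶ S} {t : V ⟶ S}
    {X : Scheme.{0}} {π : X ⟶ S} (M : TwoCover i j s t π)
  {W' U' V' S' X' : Scheme.{0}} {i' : W' ⟶ U'} {j' : W' ⟶ V'} {s' : U' ⟶ S'} {t' : V' ⟶ S'}
    {π' : X' ⟶ S'} {φ : S' ⟶ S} {c : X' ⟶ X} (hc : IsPullback c π' π φ)
    {a : U' ⟶ U} {b : V' ⟶ V} {w : W' ⟶ W} (ha : IsPullback a s' s φ) (hb : IsPullback b t' t φ)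
    (hi : IsPullback w i' i a) (hj : w ≫ j = j' ≫ b) (hs : i' ≫ s' = j' ≫ t')

lemma mem_range_of_isPullback {P A B C : Scheme.{0}} {p : P ⟶ A} {q : P ⟶ B} {f : A ⟶ C}
    {g : B ⟶ C} (h : IsPullback p q f g) (x : B) (hx : g x ∈ Set.range f) : x ∈ Set.range q := by
  obtain ⟨y, hy⟩ := hx
  obtain ⟨z, _, hz⟩ := Scheme.exists_preimage_of_isPullback h y x hy
  exact ⟨z, hz⟩

include hc ha hb hi hj hs in
/-- Base change of charts. -/
noncomputable def TwoCover.baseChange : TwoCover i' j' s' t' π' :=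
  have w1 : (a ≫ M.i1) ≫ π = s' ≫ φ := by rw [Category.assoc, M.st1, ha.w]
  have w2 : (b ≫ M.i2) ≫ π = t' ≫ φ := by rw [Category.assoc, M.st2, hb.w]
  have s1 : IsPullback a (hc.lift _ _ w1) M.i1 c :=
    IsPullback.of_bot (v₁₂ := M.i1) (v₂₂ := π) (v₂₁ := π') (h₃₁ := φ)
      (by rw [hc.lift_snd, M.st1]; exact ha) (hc.lift_fst _ _ w1).symm hc
  have s2 : IsPullback b (hc.lift _ _ w2) M.i2 c :=
    IsPullback.of_bot (v₁₂ := M.i2) (v₂₂ := π) (v₂₁ := π') (h₃₁ := φ)
      (by rw [hc.lift_snd, M.st2]; exact hb) (hc.lift_fst _ _ w2).symm hc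
  { i1 := hc.lift _ _ w1
    i2 := hc.lift _ _ w2
    o1 := MorphismProperty.of_isPullback s1 M.o1
    o2 := MorphismProperty.of_isPullback s2 M.o2
    st1 := hc.lift_snd _ _ w1
    st2 := hc.lift_snd _ _ w2
    cover := fun x => by
      rcases M.cover (c x) with h | h
      · exact Or.inl (mem_range_of_isPullback s1 x h)
      · exact Or.inr (mem_range_of_isPullback s2 x h)
    overlap := by
      have h1 := hi.paste_horiz M.overlap.flip
      rw [hj, ← hc.lift_fst _ _ w1] at h1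
      exact (IsPullback.of_right h1 (by
        apply hc.hom_ext
        · rw [Category.assoc, Category.assoc, hc.lift_fst, hc.lift_fst, ← Category.assoc, ← hj,
            ← Category.assoc, ← hi.w, Category.assoc, Category.assoc, M.overlap.w]
        · rw [Category.assoc, Category.assoc, hc.lift_snd, hc.lift_snd, hs]) s2).flip }

end bc

end Pool.Agent.TH188.MG
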