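import Pool.Agent.TH188.MG.Base
import Pool.Agent.TH188.MG.TwoCover

/-!
# Hyperelliptic curves over a ring, glued from two affine charts
-/

set_option autoImplicit false

open Polynomial CategoryTheory CategoryTheory.Limits AlgebraicGeometry

namespace Pool.Agent.TH188.MG

variable {R : Type} [CommRing R]

/-- The affine chart. -/
noncomputable def SA (f : R[X]) : Scheme.{0} := Spec (CommRingCat.of (A f))

/-- The overlap of the charts. -/
noncomputable def SL (f : R[X]) : Scheme.{0} := Spec (CommRingCat.of (L f))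

/-- The base. -/
noncomputable abbrev SB (R : Type) [CommRing R] : Scheme.{0} := Spec (CommRingCat.of R)

/-- The inclusion of the overlap in the first chart. -/
noncomputable def j1 (f : R[X]) : SL f ⟶ SA f :=
  Spec.map (CommRingCat.ofHom (algebraMap (A f) (L f)))

/-- The inclusion of the overlap in the second chart. -/
noncomputable def j2 {g : ℕ} {f h : R[X]} (H : Rel g f h) : SL f ⟶ SA h :=
  Spec.map (CommRingCat.ofHom (swap H).toRingHom)

/-- The structure morphism of a chart. -/
noncomputable def st (f : R[X]) : SA f ⟶ SB R :=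
  Spec.map (CommRingCat.ofHom (algebraMap R (A f)))

instance (f : R[X]) : IsOpenImmersion (j1 f) :=
  AlgebraicGeometry.Scheme.isOpenImmersion_SpecMap_localizationAway (R := .of (A f)) (xx f)

instance {g : ℕ} {f h : R[X]} (H : Rel g f h) : IsOpenImmersion (j2 H) := by
  let _ := (swap H).toRingHom.toAlgebra
  have := isLocalization_swap H
  exact IsOpenImmersion.of_isLocalization (xx h)

lemma alg_st (f : R[X]) : (algebraMap (A f) (L f)).comp (algebraMap R (A f)) = algebraMap R (L f) :=
  (IsScalarTower.algebraMap_eq R (A f) (L f)).symm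

lemma swap_st {g : ℕ} {f h : R[X]} (H : Rel g f h) :
    (swap H).toRingHom.comp (algebraMap R (A h)) = algebraMap R (L f) := by
  ext r
  exact (swap H).commutes r

/-- The structure morphism of the overlap. -/
noncomputable def stL (f : R[X]) : SL f ⟶ SB R :=
  Spec.map (CommRingCat.ofHom (algebraMap R (L f)))

lemma j1_st (f : R[X]) : j1 f ≫ st f = stL f := by
  unfold j1 st stL
  rw [← alg_st]
  exact (Spec.map_comp _ _).symm

lemma j2_st {g : ℕ} {f h : R[X]} (H : Rel g f h) : j2 H ≫ st h = stL f := by
  unfold j2 st stL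
  rw [← swap_st H]
  exact (Spec.map_comp _ _).symm

lemma j_st {g : ℕ} {f h : R[X]} (H : Rel g f h) : j1 f ≫ st f = j2 H ≫ st h := by
  rw [j1_st, j2_st]

/-- `X` is glued from the charts `y² = f(x)` and `v² = h(u)`, where `u = 1/x` and
`v = y/x^(g+1)`. -/
abbrev Model {g : ℕ} {f h : R[X]} (H : Rel g f h) {X : Scheme.{0}} (π : X ⟶ SB R) :=
  TwoCover (j1 f) (j2 H) (st f) (st h) π

/-- The glued curve. -/
noncomputable def curve {g : ℕ} {f h : R[X]} (H : Rel g f h) : Scheme.{0} := glued (j1 f) (j2 H)

/-- The structure morphism of the glued curve. -/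
noncomputable def curveStr {g : ℕ} {f h : R[X]} (H : Rel g f h) : curve H ⟶ SB R :=
  gl_desc _ _ (st f) (st h) (j_st H)

/-- The charts of the glued curve. -/
noncomputable def curveModel {g : ℕ} {f h : R[X]} (H : Rel g f h) : Model H (curveStr H) :=
  TwoCover.glue (j1 f) (j2 H) (st f) (st h) (j_st H)

section basechange

variable {R' : Type} [CommRing R'] (φ : R →+* R')

lemma spec_comm {P Q T W : Type} [CommRing P] [CommRing Q] [CommRing T] [CommRing W]
    {a : P →+* Q} {b : Q →+* W} {c : P →+* T} {d : T →+* W} (h : b.comp a = d.comp c) :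
    Spec.map (CommRingCat.ofHom b) ≫ Spec.map (CommRingCat.ofHom a) =
      Spec.map (CommRingCat.ofHom d) ≫ Spec.map (CommRingCat.ofHom c) := by
  rw [← Spec.map_comp, ← Spec.map_comp, ← CommRingCat.ofHom_comp, ← CommRingCat.ofHom_comp, h]

/-- The base change of a chart. -/
noncomputable def SbcA (f : R[X]) : SA (f.map φ) ⟶ SA f := Spec.map (CommRingCat.ofHom (bcA φ f))

/-- The base change of the overlap. -/
noncomputable def SbcL (f : R[X]) : SL (f.map φ) ⟶ SL f := Spec.map (CommRingCat.ofHom (bcL φ f))

/-- base change of charts -/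
lemma bc_square (f : R[X]) :
    IsPullback (SbcA φ f) (st (f.map φ)) (st f) (Spec.map (CommRingCat.ofHom φ)) :=
  isPullback_SpecMap_of_isPushout _ _ _ _ (isPushout_A φ f)

/-- base change of the overlap -/
lemma bc_squareL (f : R[X]) :
    IsPullback (SbcL φ f) (j1 (f.map φ)) (j1 f) (SbcA φ f) :=
  isPullback_SpecMap_of_isPushout _ _ _ _ (isPushout_L φ f)

lemma bc_swap {g : ℕ} {f h : R[X]} (H : Rel g f h) :
    SbcL φ f ≫ j2 H = j2 (H.map φ) ≫ SbcA φ h := by
  have h1 : (bcL φ f).comp (swap H).toRingHom = (swap (H.map φ)).toRingHom.comp (bcA φ h) := by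
    apply RingHom.ext
    intro z
    exact bcL_swap φ H z
  exact spec_comm h1

variable {g : ℕ} {f h : R[X]} {H : Rel g f h} {X : Scheme.{0}} {π : X ⟶ SB R}

/-- The base change of the charts. -/
noncomputable def Model.baseChange (M : Model H π) {X' : Scheme.{0}} {π' : X' ⟶ SB R'}
    {c : X' ⟶ X} (hc : IsPullback c π' π (Spec.map (CommRingCat.ofHom φ))) :
    Model (H.map φ) π' :=
  TwoCover.baseChange M hc (bc_square φ f) (bc_square φ h) (bc_squareL φ f) (bc_swap φ H)
    (j_st (H.map φ))

end basechange

end Pool.Agent.TH188.MG
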