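import Pool.Agent.TH188.MG.Hyp

/-!
# The two generators of the rational subfield are related by a Moebius transformation
-/

set_option autoImplicit false

open Polynomial

namespace Pool.Agent.TH188.MG

section

variable {k : Type} [Field k] {K : Type} [Field K] [Algebra k K]

lemma lin_zero {x : K} (hx : Function.Injective (aeval x : k[X] →ₐ[k] K)) {γ δ : k}
    (h : algebraMap k K γ * x + algebraMap k K δ = 0) : γ = 0 ∧ δ = 0 := by
  have h1 : (C γ * X + C δ : k[X]) = 0 := by
    apply hx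
    rw [map_zero, map_add, map_mul, aeval_C, aeval_C, aeval_X, h]
  have h2 := congrArg (fun p => coeff p 1) h1
  have h3 := congrArg (fun p => coeff p 0) h1
  simp at h2 h3
  exact ⟨h2, h3⟩

lemma det_ne_zero {x u : K} (hx : Function.Injective (aeval x : k[X] →ₐ[k] K))
    (hu : Function.Injective (aeval u : k[X] →ₐ[k] K)) {α β γ δ : k} (h0 : ¬ (γ = 0 ∧ δ = 0))
    (key : (algebraMap k K γ * x + algebraMap k K δ) * u =
      algebraMap k K α * x + algebraMap k K β) : α * δ - β * γ ≠ 0 := by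
  intro hdet
  have hlin : algebraMap k K γ * x + algebraMap k K δ ≠ 0 := fun h => h0 (lin_zero hx h)
  by_cases hγ : γ = 0
  · subst hγ
    have hδ : δ ≠ 0 := fun h => h0 ⟨rfl, h⟩
    have hα : α = 0 := by
      rw [mul_zero, sub_zero] at hdet
      exact (mul_eq_zero.1 hdet).resolve_right hδ
    have h1 : algebraMap k K δ * u + algebraMap k K (-β) = 0 := by
      simp only [hα, map_zero, zero_mul, zero_add] at key
      rw [key, map_neg, add_neg_cancel]
    exact hδ (lin_zero hu h1).1
  · have h1 : (algebraMap k K γ * x + algebraMap k K δ) *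
        (algebraMap k K γ * u + algebraMap k K (-α)) = 0 := by
      have h2 := congrArg (algebraMap k K) hdet
      simp only [map_sub, map_mul, map_zero, map_neg] at h2 ⊢
      linear_combination (algebraMap k K γ) * key - h2
    exact hγ (lin_zero hu ((mul_eq_zero.1 h1).resolve_left hlin)).1

lemma moebius {x u : K} (hx : Function.Injective (aeval x : k[X] →ₐ[k] K))
    (hu : Function.Injective (aeval u : k[X] →ₐ[k] K)) {a c a' c' : k[X]} (hc : c ≠ 0)
    (h : aeval x c * u = aeval x a) (hc' : c' ≠ 0) (h' : aeval u c' * x = aeval u a') :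
    ∃ α β γ δ : k, α * δ - β * γ ≠ 0 ∧
      (algebraMap k K γ * x + algebraMap k K δ) * u = algebraMap k K α * x + algebraMap k K β := by
  let _ : NormalizedGCDMonoid k[X] := Classical.arbitrary _
  set P : k[X][X] := C c * X + C (-a) with hP
  have hP1 : P.coeff 1 = c := by simp [hP]
  have hP0 : P ≠ 0 := by
    intro h0
    rw [h0, coeff_zero] at hP1
    exact hc hP1.symm
  set Φ := P.primPart with hΦ
  set κ := P.content with hκ
  have hq : P = C κ * Φ := P.eq_C_content_mul_primPart
  have hκ0 : κ ≠ 0 := by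
    intro h0
    rw [h0, C_0, zero_mul] at hq
    exact hP0 hq
  have hprim : Φ.IsPrimitive := P.isPrimitive_primPart
  have hκx : aeval x κ ≠ 0 := fun h0 => hκ0 (hx (by rw [h0, map_zero]))
  have hPu : ev x u P = 0 := by
    rw [hP, map_add, map_mul, ev_C, ev_C, ev_X, map_neg, h]
    ring
  have hΦu : ev x u Φ = 0 := by
    rw [hq, map_mul, ev_C] at hPu
    exact (mul_eq_zero.1 hPu).resolve_left hκx
  have hPd : P.natDegree ≤ 1 := by
    rw [hP]
    compute_degree
  have hΦd : Φ.natDegree ≤ 1 := by rwa [hq, natDegree_C_mul hκ0] at hPd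
  have hmin : ∀ Q : k[X][X], Q ≠ 0 → ev x u Q = 0 → Φ.natDegree ≤ Q.natDegree := by
    intro Q hQ hQu
    refine hΦd.trans ?_
    by_contra hcon
    have hQ1 : Q.natDegree = 0 := by omega
    rw [eq_C_of_natDegree_eq_zero hQ1, ev_C] at hQu
    have h3 : Q.coeff 0 = 0 := hx (by rw [hQu, map_zero])
    apply hQ
    rw [eq_C_of_natDegree_eq_zero hQ1, h3, C_0]
  have hΨ0 : (C c' * X + C (-a') : k[X][X]) ≠ 0 := by
    intro h0
    have h1 : (C c' * X + C (-a') : k[X][X]).coeff 1 = c' := by simp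
    rw [h0, coeff_zero] at h1
    exact hc' h1.symm
  have hΨ : ev u x (C c' * X + C (-a') : k[X][X]) = 0 := by
    rw [map_add, map_mul, ev_C, ev_C, ev_X, map_neg, h']
    ring
  have hΨd : (C c' * X + C (-a') : k[X][X]).natDegree ≤ 1 := by
    compute_degree
  have hbound : ∀ j, (Φ.coeff j).natDegree ≤ 1 := fun j =>
    (degree_bound x u hx Φ hprim hΦu hmin _ hΨ0 hΨ j).trans hΨd
  have e1 : Φ.coeff 1 = C ((Φ.coeff 1).coeff 1) * X + C ((Φ.coeff 1).coeff 0) :=
    eq_X_add_C_of_natDegree_le_one (hbound 1)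
  have e0 : Φ.coeff 0 = C ((Φ.coeff 0).coeff 1) * X + C ((Φ.coeff 0).coeff 0) :=
    eq_X_add_C_of_natDegree_le_one (hbound 0)
  have hΦ1 : Φ.coeff 1 ≠ 0 := by
    intro h0
    rw [hq, coeff_C_mul, h0, mul_zero] at hP1
    exact hc hP1.symm
  set γ := (Φ.coeff 1).coeff 1 with hγ
  set δ := (Φ.coeff 1).coeff 0 with hδ
  have hΦe : Φ = C (Φ.coeff 1) * X + C (Φ.coeff 0) := eq_X_add_C_of_natDegree_le_one hΦd
  have key : (algebraMap k K γ * x + algebraMap k K δ) * u =
      algebraMap k K (-(Φ.coeff 0).coeff 1) * x + algebraMap k K (-(Φ.coeff 0).coeff 0) := by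
    have h1 := hΦu
    rw [hΦe, map_add, map_mul, ev_C, ev_C, ev_X, e1, e0] at h1
    simp only [map_add, map_mul, aeval_C, aeval_X, map_neg] at h1 ⊢
    linear_combination h1
  refine ⟨-(Φ.coeff 0).coeff 1, -(Φ.coeff 0).coeff 0, γ, δ, det_ne_zero hx hu ?_ key, key⟩
  rintro ⟨h1, h2⟩
  apply hΦ1
  rw [e1, h1, h2]
  simp

end

end Pool.Agent.TH188.MG
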