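import Pool.Agent.TH188.MG.Family

/-!
# The trinomials `x^(2g+1) + p x + q`
-/

set_option autoImplicit false

open Polynomial

namespace Pool.Agent.TH188.MG

section poly

variable {R : Type} [CommRing R] (g : ℕ) (p q : R)

/-- The polynomial `x^(2g+1) + p x + q`. -/
noncomputable def fp : R[X] := X ^ (2 * g + 1) + C p * X + C q

/-- The polynomial `u + p u^(2g+1) + q u^(2g+2)`. -/
noncomputable def hp : R[X] := X + C p * X ^ (2 * g + 1) + C q * X ^ (2 * g + 2)

/-- The discriminant, up to sign. -/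
def dsc : R := (2 * g : R) ^ (2 * g) * p ^ (2 * g + 1) + (2 * g + 1 : R) ^ (2 * g + 1) * q ^ (2 * g)

lemma fp_map {R' : Type} [CommRing R'] (φ : R →+* R') : (fp g p q).map φ = fp g (φ p) (φ q) := by
  simp [fp]

lemma hp_map {R' : Type} [CommRing R'] (φ : R →+* R') : (hp g p q).map φ = hp g (φ p) (φ q) := by
  simp [hp]

lemma rel_fh : Rel g (fp g p q) (hp g p q) where
  deg := by
    unfold fp
    compute_degree
    omega
  eq := by
    unfold fp hp
    rw [reflect_add, reflect_add, reflect_C_mul, reflect_C]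
    have e1 : reflect (2 * g + 2) (X ^ (2 * g + 1) : R[X]) = X := by
      rw [reflect_monomial, revAt_le (by omega), show 2 * g + 2 - (2 * g + 1) = 1 by omega, pow_one]
    have e2 : reflect (2 * g + 2) (X : R[X]) = X ^ (2 * g + 1) := by
      have := reflect_monomial (R := R) (2 * g + 2) 1
      rw [pow_one, revAt_le (by omega)] at this
      rw [this]
      congr 1
    rw [e1, e2]

lemma fp_monic (hg : 1 ≤ g) : (fp g p q).Monic := by
  unfold fp
  rw [add_assoc]
  apply monic_X_pow_add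
  refine (degree_add_le _ _).trans_lt (max_lt ?_ ?_)
  · refine (degree_C_mul_X_le p).trans_lt ?_
    exact_mod_cast (by omega : 1 < 2 * g + 1)
  · refine degree_C_le.trans_lt ?_
    exact_mod_cast (by omega : 0 < 2 * g + 1)

lemma fp_natDegree [Nontrivial R] (hg : 1 ≤ g) : (fp g p q).natDegree = 2 * g + 1 := by
  unfold fp
  compute_degree
  · rw [if_neg (by omega), add_zero]
    exact one_ne_zero
  all_goals omega

lemma hp_coeff : (hp g p q).coeff 0 = 0 := by
  simp [hp]

end poly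

section coprime

variable {Q : Type} [CommRing Q]

lemma ring_f (m : ℕ) (x p q : Q) (e1 : x ^ (2 * m + 1) + p * x + q = 0)
    (e2 : (2 * m + 1) * x ^ (2 * m) + p = 0) :
    (2 * m : Q) ^ (2 * m) * p ^ (2 * m + 1) + (2 * m + 1 : Q) ^ (2 * m + 1) * q ^ (2 * m) = 0 := by
  have e3 : (2 * m + 1 : Q) * q = -(2 * m * p * x) := by
    have h1 : x ^ (2 * m + 1) = x * x ^ (2 * m) := by ring
    rw [h1] at e1
    linear_combination (2 * m + 1 : Q) * e1 - x * e2
  have e4 : (2 * m + 1 : Q) ^ (2 * m + 1) * q ^ (2 * m) =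
      (2 * m + 1) * ((2 * m + 1) * q) ^ (2 * m) := by
    rw [mul_pow, pow_succ]
    ring
  rw [e4, e3, Even.neg_pow (even_two_mul m)]
  have e5 : (2 * m : Q) ^ (2 * m) * p ^ (2 * m + 1) + (2 * m + 1) * (2 * m * p * x) ^ (2 * m) =
      (2 * m * p) ^ (2 * m) * ((2 * m + 1) * x ^ (2 * m) + p) := by
    rw [mul_pow _ x, mul_pow _ p, pow_succ p]
    ring
  rw [e5, e2, mul_zero]

lemma ring_h (k : ℕ) (x p q : Q)
    (e1 : x + p * x ^ (2 * (k + 1) + 1) + q * x ^ (2 * (k + 1) + 2) = 0)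
    (e2 : 1 + (2 * (k + 1) + 1) * p * x ^ (2 * (k + 1)) +
      (2 * (k + 1) + 2) * q * x ^ (2 * (k + 1) + 1) = 0) :
    (2 * (k + 1) : Q) ^ (2 * (k + 1)) * p ^ (2 * (k + 1) + 1) +
      (2 * (k + 1) + 1 : Q) ^ (2 * (k + 1) + 1) * q ^ (2 * (k + 1)) = 0 := by
  have hu : x * (-((2 * (k + 1) + 1) * p * x ^ (2 * k + 1) +
      (2 * (k + 1) + 2) * q * x ^ (2 * (k + 1)))) = 1 := by
    linear_combination -e2
  set w := (-((2 * (k + 1) + 1) * p * x ^ (2 * k + 1) +
      (2 * (k + 1) + 2) * q * x ^ (2 * (k + 1)))) with hw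
  have e3 : p * x ^ (2 * (k + 1)) = -(2 * (k + 1) + 1) := by
    have h1 : x * (2 * (k + 1) + 1 + p * x ^ (2 * (k + 1))) = 0 := by
      linear_combination (2 * (k + 1) + 2 : Q) * e1 - x * e2
    have h2 : (2 * (k + 1) + 1 + p * x ^ (2 * (k + 1)) : Q) = 0 := by
      calc (2 * (k + 1) + 1 + p * x ^ (2 * (k + 1)) : Q)
          = (x * w) * (2 * (k + 1) + 1 + p * x ^ (2 * (k + 1))) := by rw [hu, one_mul]
        _ = w * (x * (2 * (k + 1) + 1 + p * x ^ (2 * (k + 1)))) := by ring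
        _ = 0 := by rw [h1, mul_zero]
    linear_combination h2
  have e4 : q * x ^ (2 * (k + 1) + 1) = 2 * (k + 1) := by
    have h1 : x * (2 * (k + 1) - q * x ^ (2 * (k + 1) + 1)) = 0 := by
      linear_combination (2 * (k + 1) + 1 : Q) * e1 - x * e2
    have h2 : (2 * (k + 1) - q * x ^ (2 * (k + 1) + 1) : Q) = 0 := by
      calc (2 * (k + 1) - q * x ^ (2 * (k + 1) + 1) : Q)
          = (x * w) * (2 * (k + 1) - q * x ^ (2 * (k + 1) + 1)) := by rw [hu, one_mul]
        _ = w * (x * (2 * (k + 1) - q * x ^ (2 * (k + 1) + 1))) := by ring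
        _ = 0 := by rw [h1, mul_zero]
    linear_combination -h2
  set D := (2 * (k + 1) : Q) ^ (2 * (k + 1)) * p ^ (2 * (k + 1) + 1) +
      (2 * (k + 1) + 1 : Q) ^ (2 * (k + 1) + 1) * q ^ (2 * (k + 1)) with hD
  have e5 : D * x ^ ((2 * (k + 1)) * (2 * (k + 1) + 1)) = 0 := by
    have h3 : D * x ^ ((2 * (k + 1)) * (2 * (k + 1) + 1)) =
        (2 * (k + 1) : Q) ^ (2 * (k + 1)) * (p * x ^ (2 * (k + 1))) ^ (2 * (k + 1) + 1) +
        (2 * (k + 1) + 1 : Q) ^ (2 * (k + 1) + 1) *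
          (q * x ^ (2 * (k + 1) + 1)) ^ (2 * (k + 1)) := by
      rw [hD, mul_pow p, mul_pow q, ← pow_mul, ← pow_mul, mul_comm (2 * (k + 1) + 1) (2 * (k + 1))]
      ring
    rw [h3, e3, e4, Odd.neg_pow ⟨k + 1, rfl⟩]
    ring
  calc D = D * x ^ ((2 * (k + 1)) * (2 * (k + 1) + 1)) * w ^ ((2 * (k + 1)) * (2 * (k + 1) + 1)) := by
        rw [mul_assoc, ← mul_pow, hu, one_pow, mul_one]
    _ = 0 := by rw [e5, zero_mul]

end coprime

section poly

variable {R : Type} [CommRing R] (g : ℕ) (p q : R)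

lemma isCoprime_of_quot {a b : R[X]} (D : R) (hD : IsUnit D)
    (h : (Ideal.Quotient.mk (Ideal.span {a, b})) (C D) = 0) : IsCoprime a b := by
  rw [Ideal.Quotient.eq_zero_iff_mem] at h
  obtain ⟨D', hD'⟩ := hD.exists_right_inv
  have h1 : (1 : R[X]) ∈ Ideal.span {a, b} := by
    have : (1 : R[X]) = C D' * C D := by rw [← C_mul, mul_comm, hD', C_1]
    rw [this]
    exact Ideal.mul_mem_left _ _ h
  exact Ideal.mem_span_pair.1 h1

lemma coprime_f (hD : IsUnit (dsc g p q)) : IsCoprime (fp g p q) (derivative (fp g p q)) := by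
  refine isCoprime_of_quot _ hD ?_
  set I := Ideal.span {fp g p q, derivative (fp g p q)} with hI
  have h1 : Ideal.Quotient.mk I (fp g p q) = 0 :=
    Ideal.Quotient.eq_zero_iff_mem.2 (Ideal.subset_span (by simp))
  have h2 : Ideal.Quotient.mk I (derivative (fp g p q)) = 0 :=
    Ideal.Quotient.eq_zero_iff_mem.2 (Ideal.subset_span (by simp))
  have h3 : derivative (fp g p q) = C (2 * (g : R) + 1) * X ^ (2 * g) + C p := by
    simp [fp]
  rw [h3] at h2
  simp only [fp, map_add, map_mul, map_pow, map_one, map_ofNat, map_natCast] at h1 h2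
  have h4 := ring_f g _ _ _ h1 h2
  simp only [dsc, map_add, map_mul, map_pow, map_one, map_ofNat, map_natCast]
  exact h4

lemma coprime_h (hg : 1 ≤ g) (hD : IsUnit (dsc g p q)) :
    IsCoprime (hp g p q) (derivative (hp g p q)) := by
  refine isCoprime_of_quot _ hD ?_
  obtain ⟨k, rfl⟩ : ∃ k, g = k + 1 := ⟨g - 1, by omega⟩
  set I := Ideal.span {hp (k + 1) p q, derivative (hp (k + 1) p q)} with hI
  have h1 : Ideal.Quotient.mk I (hp (k + 1) p q) = 0 :=
    Ideal.Quotient.eq_zero_iff_mem.2 (Ideal.subset_span (by simp))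
  have h2 : Ideal.Quotient.mk I (derivative (hp (k + 1) p q)) = 0 :=
    Ideal.Quotient.eq_zero_iff_mem.2 (Ideal.subset_span (by simp))
  have h3 : derivative (hp (k + 1) p q) =
      1 + C (2 * ((k : R) + 1) + 1) * C p * X ^ (2 * (k + 1)) +
      C (2 * ((k : R) + 1) + 2) * C q * X ^ (2 * (k + 1) + 1) := by
    unfold hp
    rw [derivative_add, derivative_add, derivative_X, derivative_C_mul_X_pow,
      derivative_C_mul_X_pow]
    simp only [Nat.add_sub_cancel, Nat.cast_add, Nat.cast_mul, Nat.cast_one, Nat.cast_ofNat,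
      C_mul]
    rw [show 2 * (k + 1) + 2 - 1 = 2 * (k + 1) + 1 by omega]
    ring
  rw [h3] at h2
  simp only [hp, map_add, map_mul, map_pow, map_one, map_ofNat, map_natCast] at h1 h2
  have h4 := ring_h k _ _ _ h1 h2
  simp only [dsc, map_add, map_mul, map_pow, map_one, map_ofNat, map_natCast, Nat.cast_add,
    Nat.cast_one]
  exact h4

end poly

end Pool.Agent.TH188.MG
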