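import Pool.Agent.TH188.MG.Moebius
import Pool.Agent.TH188.MG.Poly

/-!
# The function fields of `y² = x^(2g+1) + p x` and `y² = x^(2g+1) + q` are not isomorphic
-/

set_option autoImplicit false

open Polynomial

namespace Pool.Agent.TH188.MG

section ident

variable {k : Type} [Field k]

/-- The numerator of `f(u)`. -/
noncomputable def num (g : ℕ) (q α β γ δ : k) : k[X] :=
  (C γ * X + C δ) * ((C α * X + C β) ^ (2 * g + 1) + C q * (C γ * X + C δ) ^ (2 * g + 1))

lemma num_natDegree (g : ℕ) (q α β γ δ : k) : (num g q α β γ δ).natDegree ≤ 2 * g + 2 := by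
  unfold num
  have h1 : ∀ a b : k, (C a * X + C b).natDegree ≤ 1 := fun a b => by compute_degree
  have h2 : ∀ a b : k, ((C a * X + C b) ^ (2 * g + 1)).natDegree ≤ 2 * g + 1 := fun a b => by
    refine natDegree_pow_le.trans ?_
    have := h1 a b
    nlinarith
  refine natDegree_mul_le.trans ?_
  have h3 : ((C α * X + C β) ^ (2 * g + 1) + C q * (C γ * X + C δ) ^ (2 * g + 1)).natDegree ≤
      2 * g + 1 :=
    (natDegree_add_le _ _).trans (max_le (h2 _ _) ((natDegree_C_mul_le _ _).trans (h2 _ _)))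
  have := h1 γ δ
  omega

end ident

section field

variable {k : Type} [Field k] {K : Type} [Field K] [Algebra k K]

lemma Hyp.y_notMem {f : k[X]} {x y : K} (H : Hyp f x y) :
    y ∉ IntermediateField.adjoin k {x} := by
  rw [IntermediateField.mem_adjoin_simple_iff]
  rintro ⟨r, s, h⟩
  by_cases hs : aeval x s = 0
  · rw [hs, div_zero] at h
    have := (H.ind 0 1 (by rw [h]; simp)).2
    exact one_ne_zero this
  · have h1 : aeval x (-r) + aeval x s * y = 0 := by
      rw [h, map_neg, mul_div_cancel₀ _ hs, neg_add_cancel]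
    have h2 := (H.ind _ _ h1).2
    rw [h2, map_zero] at hs
    exact hs rfl

/-- The relation between the two curves. -/
lemma Hyp.relation {g : ℕ} {p q : k} {x y u v : K} (h2 : (2 : k) ≠ 0)
    (H1 : Hyp (fp g p 0) x y) (H2 : Hyp (fp g 0 q) u v) (hf : Squarefree (fp g p 0))
    (hg : 1 ≤ g) {α β γ δ : k} (hdet : α * δ - β * γ ≠ 0)
    (key : (algebraMap k K γ * x + algebraMap k K δ) * u =
      algebraMap k K α * x + algebraMap k K β) :
    ∃ c : k, c ≠ 0 ∧ num g q α β γ δ = C c * fp g p 0 := by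
  set ℓ : K := algebraMap k K γ * x + algebraMap k K δ with hℓ
  have hl0 : (C γ * X + C δ : k[X]) ≠ 0 := by
    intro h0
    have e1 := congrArg (fun p => coeff p 1) h0
    have e2 := congrArg (fun p => coeff p 0) h0
    simp at e1 e2
    rw [e1, e2] at hdet
    simp at hdet
  have hℓx : aeval x (C γ * X + C δ : k[X]) = ℓ := by simp [hℓ]
  have hℓ0 : ℓ ≠ 0 := by
    rw [← hℓx]
    exact fun h0 => hl0 (H1.inj (by rw [h0, map_zero]))
  have hv2 : v ^ 2 = u ^ (2 * g + 1) + algebraMap k K q := by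
    rw [H2.eqn]
    simp [fp]
  have hnum : aeval x (num g q α β γ δ) = ℓ ^ (2 * g + 2) * v ^ 2 := by
    have e1 : aeval x (num g q α β γ δ) = ℓ * ((algebraMap k K α * x + algebraMap k K β) ^
        (2 * g + 1) + algebraMap k K q * ℓ ^ (2 * g + 1)) := by
      simp [num, hℓ]
    rw [e1, ← key, hv2, mul_pow]
    ring
  obtain ⟨r, s, t, ht, hrs⟩ := H1.gen v
  have hy2 := H1.eqn
  have e2 : aeval x (t ^ 2 * num g q α β γ δ -
      (C γ * X + C δ) ^ (2 * g + 2) * (r ^ 2 + s ^ 2 * fp g p 0)) +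
      aeval x (-((C γ * X + C δ) ^ (2 * g + 2) * (2 * r * s))) * y = 0 := by
    rw [map_sub, map_mul, map_mul, map_neg, map_mul, map_pow, map_pow, hℓx, hnum]
    simp only [map_add, map_mul, map_pow, map_ofNat]
    rw [← hy2]
    linear_combination (ℓ ^ (2 * g + 2)) * (aeval x t * v + aeval x r + aeval x s * y) * hrs
  obtain ⟨e3, e4⟩ := H1.ind _ _ e2
  have h2' : (2 : k[X]) ≠ 0 := by
    have : (2 : k[X]) = C 2 := (C_ofNat 2).symm
    rw [this]
    exact C_ne_zero.2 h2
  have e5 : r * s = 0 := by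
    rw [neg_eq_zero] at e4
    have e6 := (mul_eq_zero.1 e4).resolve_left (pow_ne_zero _ hl0)
    rw [mul_assoc] at e6
    exact (mul_eq_zero.1 e6).resolve_left h2'
  have hs0 : s ≠ 0 := by
    rintro rfl
    rw [map_zero, zero_mul, add_zero] at hrs
    have htx : aeval x t ≠ 0 := fun h0 => ht (H1.inj (by rw [h0, map_zero]))
    apply H1.y_notMem
    set E := IntermediateField.adjoin k {x} with hE
    have hxE : x ∈ E := IntermediateField.mem_adjoin_simple_self k x
    have hpE : ∀ w ∈ E, ∀ P : k[X], aeval w P ∈ E := by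
      intro w hw P
      have h3 : aeval w P = ((aeval (⟨w, hw⟩ : E) P : E) : K) := by
        rw [← IntermediateField.algebraMap_apply, ← aeval_algebraMap_apply]
        rfl
      rw [h3]
      exact (aeval (⟨w, hw⟩ : E) P : E).2
    have huE : u ∈ E := by
      have h3 : u = (algebraMap k K α * x + algebraMap k K β) / ℓ := by
        rw [eq_div_iff hℓ0, ← key, mul_comm]
      rw [h3]
      exact E.div_mem (E.add_mem (E.mul_mem (E.algebraMap_mem _) hxE) (E.algebraMap_mem _))
        (E.add_mem (E.mul_mem (E.algebraMap_mem _) hxE) (E.algebraMap_mem _))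
    have hvE : v ∈ E := by
      have h3 : v = aeval x r / aeval x t := by
        rw [eq_div_iff htx, ← hrs, mul_comm]
      rw [h3]
      exact E.div_mem (hpE x hxE r) (hpE x hxE t)
    obtain ⟨a, b, c, hc, hy⟩ := H2.gen y
    have hcu : aeval u c ≠ 0 := fun h0 => hc (H2.inj (by rw [h0, map_zero]))
    have h4 : y = (aeval u a + aeval u b * v) / aeval u c := by
      rw [eq_div_iff hcu, ← hy, mul_comm]
    rw [h4]
    exact E.div_mem (E.add_mem (hpE u huE a) (E.mul_mem (hpE u huE b) hvE)) (hpE u huE c)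
  have hr0 : r = 0 := (mul_eq_zero.1 e5).resolve_right hs0
  have e7 : t ^ 2 * num g q α β γ δ = ((C γ * X + C δ) ^ (g + 1) * s) ^ 2 * fp g p 0 := by
    rw [hr0] at e3
    linear_combination e3
  obtain ⟨w, hw⟩ := sq_lemma (fp g p 0) _ t _ hf ht e7
  have hnum0 : num g q α β γ δ ≠ 0 := by
    intro h0
    rw [h0, map_zero] at hnum
    have h3 := (mul_eq_zero.1 hnum.symm).resolve_left (pow_ne_zero _ hℓ0)
    have h4 : v = 0 := pow_eq_zero_iff two_ne_zero |>.1 h3
    exact one_ne_zero (H2.ind 0 1 (by rw [h4]; simp)).2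
  have hw0 : w ≠ 0 := by
    rintro rfl
    rw [zero_pow two_ne_zero, mul_zero] at hw
    exact hnum0 hw
  have h5 := natDegree_mul hf.ne_zero (pow_ne_zero 2 hw0)
  rw [← hw, natDegree_pow, fp_natDegree g p 0 hg] at h5
  have h6 := num_natDegree g q α β γ δ
  have h7 : w.natDegree = 0 := by omega
  rw [eq_C_of_natDegree_eq_zero h7] at hw hw0
  refine ⟨(w.coeff 0) ^ 2, pow_ne_zero 2 (C_ne_zero.1 hw0), ?_⟩
  rw [hw, C_pow]
  ring

end field

end Pool.Agent.TH188.MG
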