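import Pool.Agent.TH188.MG.Smooth

/-!
# Properness of the curves
-/

set_option autoImplicit false

open Polynomial CategoryTheory CategoryTheory.Limits AlgebraicGeometry

namespace Pool.Agent.TH188.MG

section aux

lemma exists_hom {P Q : Type} [CommRing P] [CommRing Q]
    (t : Spec (CommRingCat.of P) ⟶ Spec (CommRingCat.of Q)) :
    ∃ τ : Q →+* P, t = Spec.map (CommRingCat.ofHom τ) :=
  ⟨(Spec.preimage t).hom, by rw [CommRingCat.ofHom_hom, Spec.map_preimage]⟩

lemma hom_inj {P Q : Type} [CommRing P] [CommRing Q] {a b : Q →+* P}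
    (h : Spec.map (CommRingCat.ofHom a) = Spec.map (CommRingCat.ofHom b)) : a = b := by
  have h1 := Spec.map_injective h
  exact congrArg CommRingCat.Hom.hom h1

lemma map_comp' {P Q T : Type} [CommRing P] [CommRing Q] [CommRing T] (a : P →+* Q)
    (b : Q →+* T) : Spec.map (CommRingCat.ofHom b) ≫ Spec.map (CommRingCat.ofHom a) =
      Spec.map (CommRingCat.ofHom (b.comp a)) := by
  rw [← Spec.map_comp, ← CommRingCat.ofHom_comp]

lemma factor {Y X : Scheme.{0}} (i : Y ⟶ X) [IsOpenImmersion i] {O : Type} [CommRing O]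
    [IsLocalRing O] (l : Spec (CommRingCat.of O) ⟶ X)
    (h : l (IsLocalRing.closedPoint O) ∈ Set.range i) :
    ∃ t : Spec (CommRingCat.of O) ⟶ Y, t ≫ i = l := by
  have h1 : l ⁻¹ᵁ i.opensRange = ⊤ := Scheme.preimage_eq_top_of_closedPoint_mem l h
  have h2 : Set.range l ⊆ Set.range i := by
    rintro _ ⟨z, rfl⟩
    have h3 : z ∈ l ⁻¹ᵁ i.opensRange := by
      rw [h1]
      trivial
    exact h3
  exact ⟨IsOpenImmersion.lift i l h2, IsOpenImmersion.lift_fac _ _ _⟩

end aux

section symm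

variable {R : Type} [CommRing R] {g : ℕ} {f h : R[X]} {H : Rel g f h} {X : Scheme.{0}}
  {π : X ⟶ SB R}

/-- The isomorphism of the overlaps. -/
noncomputable def ovIso (H : Rel g f h) : SL h ≅ SL f :=
  Scheme.Spec.mapIso (swapE H.symm).toCommRingCatIso.op

lemma ovIso_hom (H : Rel g f h) :
    (ovIso H).hom = Spec.map (CommRingCat.ofHom (swapL H.symm)) := rfl

lemma ovIso_j1 (H : Rel g f h) : (ovIso H).hom ≫ j1 f = j2 H.symm := by
  have h1 : (swapL H.symm).comp (algebraMap (A f) (L f)) = (swap H.symm).toRingHom := by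
    apply RingHom.ext
    intro z
    exact swapL_alg H.symm z
  unfold j2
  rw [← h1, ← map_comp']
  rfl

lemma ovIso_j2 (H : Rel g f h) : (ovIso H).hom ≫ j2 H = j1 h := by
  have h1 : (swapL H.symm).comp (swap H).toRingHom = algebraMap (A h) (L h) := by
    apply RingHom.ext
    intro z
    exact swapL_swap H.symm z
  unfold j1
  rw [← h1, ← map_comp']
  rfl

/-- The charts in the other order. -/
noncomputable def Model.symm (M : Model H π) : Model H.symm π where
  i1 := M.i2
  i2 := M.i1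
  o1 := M.o2
  o2 := M.o1
  st1 := M.st2
  st2 := M.st1
  cover := fun x => (M.cover x).symm
  overlap := IsPullback.of_iso M.overlap.flip (ovIso H).symm (Iso.refl _) (Iso.refl _) (Iso.refl _)
    (by
      rw [Iso.refl_hom, Category.comp_id, Iso.symm_hom, Iso.eq_inv_comp, ovIso_j2])
    (by
      rw [Iso.refl_hom, Category.comp_id, Iso.symm_hom, Iso.eq_inv_comp, ovIso_j1])
    (by simp) (by simp)

end symm

section api

variable {R : Type} [CommRing R] {g : ℕ} {f h : R[X]}

/-- The point of the chart given by a ring homomorphism. -/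
noncomputable def toSA (f : R[X]) {E : Type} [CommRing E] (τ : A f →+* E) :
    Spec (CommRingCat.of E) ⟶ SA f := Spec.map (CommRingCat.ofHom τ)

/-- The point of the overlap given by a ring homomorphism. -/
noncomputable def toSL (f : R[X]) {E : Type} [CommRing E] (τ : L f →+* E) :
    Spec (CommRingCat.of E) ⟶ SL f := Spec.map (CommRingCat.ofHom τ)

lemma exists_toSA {E : Type} [CommRing E] (t : Spec (CommRingCat.of E) ⟶ SA f) :
    ∃ τ : A f →+* E, t = toSA f τ := exists_hom (Q := A f) t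

lemma exists_toSL {E : Type} [CommRing E] (t : Spec (CommRingCat.of E) ⟶ SL f) :
    ∃ τ : L f →+* E, t = toSL f τ := exists_hom (Q := L f) t

lemma toSA_inj {E : Type} [CommRing E] {τ τ' : A f →+* E} (h : toSA f τ = toSA f τ') : τ = τ' :=
  hom_inj h

lemma comp_toSA {E E' : Type} [CommRing E] [CommRing E'] (τ : A f →+* E) (φ : E →+* E') :
    Spec.map (CommRingCat.ofHom φ) ≫ toSA f τ = toSA f (φ.comp τ) := map_comp' _ _

lemma comp_toSL {E E' : Type} [CommRing E] [CommRing E'] (τ : L f →+* E) (φ : E →+* E') :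
    Spec.map (CommRingCat.ofHom φ) ≫ toSL f τ = toSL f (φ.comp τ) := map_comp' _ _

lemma toSA_st {E : Type} [CommRing E] (τ : A f →+* E) :
    toSA f τ ≫ st f = Spec.map (CommRingCat.ofHom (τ.comp (algebraMap R (A f)))) :=
  map_comp' _ _

lemma toSL_j1 {E : Type} [CommRing E] (τ : L f →+* E) :
    toSL f τ ≫ j1 f = toSA f (τ.comp (algebraMap (A f) (L f))) := map_comp' _ _

lemma toSL_j2 (H : Rel g f h) {E : Type} [CommRing E] (τ : L f →+* E) :
    toSL f τ ≫ j2 H = toSA h (τ.comp (swap H).toRingHom) := map_comp' _ _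

lemma hom_comp_alg (f : R[X]) {E : Type} [CommRing E] (ψ : R →+* E) (a b : E)
    (hb : b ^ 2 = eval₂ ψ a f) : (hom f ψ a b hb).comp (algebraMap R (A f)) = ψ := by
  ext r
  exact hom_alg f ψ a b hb r

lemma toSA_hom_st (f : R[X]) {E : Type} [CommRing E] (ψ : R →+* E) (a b : E)
    (hb : b ^ 2 = eval₂ ψ a f) :
    toSA f (hom f ψ a b hb) ≫ st f = Spec.map (CommRingCat.ofHom ψ) := by
  rw [toSA_st, hom_comp_alg]

lemma eqn_hom (f : R[X]) {E : Type} [CommRing E] (τ : A f →+* E) :
    (τ (yy f)) ^ 2 = eval₂ (τ.comp (algebraMap R (A f))) (τ (xx f)) f := by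
  rw [← map_pow, rel, aeval_def, hom_eval₂]

lemma comp_hom_eq (f : R[X]) {E E' : Type} [CommRing E] [CommRing E'] (ψ : R →+* E) (a b : E)
    (hb : b ^ 2 = eval₂ ψ a f) (φ : E →+* E') (τ : A f →+* E')
    (h1 : τ.comp (algebraMap R (A f)) = φ.comp ψ) (h2 : τ (xx f) = φ a) (h3 : τ (yy f) = φ b) :
    φ.comp (hom f ψ a b hb) = τ := by
  apply ring_ext
  · rw [h1]
    ext r
    simp only [RingHom.comp_apply, hom_alg]
  · rw [RingHom.comp_apply, hom_x, h2]
  · rw [RingHom.comp_apply, hom_y, h3]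

/-- The extension to the localization. -/
lemma exists_ext (f : R[X]) {E : Type} [CommRing E] (τ : A f →+* E) (hu : IsUnit (τ (xx f))) :
    ∃ ω : L f →+* E, ω.comp (algebraMap (A f) (L f)) = τ :=
  ⟨IsLocalization.Away.lift (xx f) hu, IsLocalization.Away.lift_comp (xx f) hu⟩

lemma ext_xinv (f : R[X]) {E : Type} [CommRing E] (ω : L f →+* E) (u : E)
    (hu : ω (algebraMap (A f) (L f) (xx f)) * u = 1) : ω (xinv f) = u := by
  have h1 := congrArg ω (x_mul_xinv f)
  rw [map_mul, map_one] at h1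
  calc ω (xinv f) = ω (xinv f) * (ω (algebraMap (A f) (L f) (xx f)) * u) := by rw [hu, mul_one]
    _ = (ω (algebraMap (A f) (L f) (xx f)) * ω (xinv f)) * u := by ring
    _ = u := by rw [h1, one_mul]

end api

section valuative

variable {O K : Type} [CommRing O] [IsDomain O] [ValuationRing O] [Field K] [Algebra O K]
  [IsFractionRing O K]

lemma lift_val {R : Type} [CommRing R] (ρ : R →+* O) (f : R[X]) (a0 : O) (b : K)
    (hb : b ^ 2 = eval₂ ((algebraMap O K).comp ρ) (algebraMap O K a0) f) :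
    ∃ b0 : O, algebraMap O K b0 = b ∧ b0 ^ 2 = eval₂ ρ a0 f := by
  rw [← hom_eval₂] at hb
  have h1 : IsIntegral O b := by
    refine ⟨X ^ 2 - C (eval₂ ρ a0 f), monic_X_pow_sub_C _ two_ne_zero, ?_⟩
    rw [eval₂_sub, eval₂_pow, eval₂_X, eval₂_C, hb, sub_self]
  obtain ⟨b0, hb0⟩ := IsIntegrallyClosed.algebraMap_eq_of_integral h1
  refine ⟨b0, hb0, IsFractionRing.injective O K ?_⟩
  rw [map_pow, hb0, hb]

variable {R : Type} [CommRing R] {g : ℕ} {f h : R[X]} {H : Rel g f h} {X : Scheme.{0}}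
  {π : X ⟶ SB R}

lemma Model.exists_lift_aux (M : Model H π) (τ : A f →+* K) (ρ : R →+* O)
    (hψ : τ.comp (algebraMap R (A f)) = (algebraMap O K).comp ρ) (a0 : O)
    (ha0 : algebraMap O K a0 = τ (xx f)) :
    ∃ l : Spec (CommRingCat.of O) ⟶ X,
      Spec.map (CommRingCat.ofHom (algebraMap O K)) ≫ l = toSA f τ ≫ M.i1 ∧
      l ≫ π = Spec.map (CommRingCat.ofHom ρ) := by
  have hab := eqn_hom f τ
  rw [hψ, ← ha0] at hab
  obtain ⟨b0, hb0, hb1⟩ := lift_val ρ f a0 _ hab
  refine ⟨toSA f (hom f ρ a0 b0 hb1) ≫ M.i1, ?_, ?_⟩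
  · rw [← Category.assoc, comp_toSA,
      comp_hom_eq f ρ a0 b0 hb1 (algebraMap O K) τ hψ ha0.symm hb0.symm]
  · rw [Category.assoc, M.st1, toSA_hom_st]

lemma Model.exists_lift_of_mem (M : Model H π) (i₁ : Spec (CommRingCat.of K) ⟶ X) (ρ : R →+* O)
    (sq : i₁ ≫ π = Spec.map (CommRingCat.ofHom (algebraMap O K)) ≫
      Spec.map (CommRingCat.ofHom ρ))
    (hm : i₁ (IsLocalRing.closedPoint K) ∈ Set.range M.i1) :
    ∃ l : Spec (CommRingCat.of O) ⟶ X, Spec.map (CommRingCat.ofHom (algebraMap O K)) ≫ l = i₁ ∧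
      l ≫ π = Spec.map (CommRingCat.ofHom ρ) := by
  obtain ⟨t, rfl⟩ := factor M.i1 i₁ hm
  obtain ⟨τ, rfl⟩ := exists_toSA t
  have hψ : τ.comp (algebraMap R (A f)) = (algebraMap O K).comp ρ := by
    apply hom_inj
    rw [← map_comp', ← map_comp', ← sq, Category.assoc, M.st1]
    rfl
  by_cases hx : ∃ a0 : O, algebraMap O K a0 = τ (xx f)
  · obtain ⟨a0, ha0⟩ := hx
    exact M.exists_lift_aux τ ρ hψ a0 ha0
  · have hx0 : τ (xx f) ≠ 0 := fun h0 => hx ⟨0, by rw [h0, map_zero]⟩
    obtain ⟨a0, ha0⟩ | ⟨u0, hu0⟩ := ValuationRing.isInteger_or_isInteger O (τ (xx f))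
    · exact absurd ⟨a0, ha0⟩ hx
    obtain ⟨ω, rfl⟩ := exists_ext f τ (IsUnit.mk0 _ hx0)
    have h1 : toSA f (ω.comp (algebraMap (A f) (L f))) ≫ M.i1 =
        toSA h (ω.comp (swap H).toRingHom) ≫ M.i2 := by
      rw [← toSL_j1, Category.assoc, M.overlap.w, ← Category.assoc, toSL_j2]
    rw [h1]
    have h2 : (ω.comp (swap H).toRingHom).comp (algebraMap R (A h)) = (algebraMap O K).comp ρ := by
      rw [← hψ, RingHom.comp_assoc, swap_st, RingHom.comp_assoc, alg_st]
    have h3 : algebraMap O K u0 = (ω.comp (swap H).toRingHom) (xx h) := by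
      have h4 : (ω.comp (swap H).toRingHom) (xx h) = ω (xinv f) := congrArg ω (swap_x H)
      rw [h4, hu0]
      exact (ext_xinv f ω _ (mul_inv_cancel₀ hx0)).symm
    exact M.symm.exists_lift_aux _ ρ h2 u0 h3

lemma Model.unique_aux (M : Model H π) (l l' : Spec (CommRingCat.of O) ⟶ X)
    (he : Spec.map (CommRingCat.ofHom (algebraMap O K)) ≫ l =
      Spec.map (CommRingCat.ofHom (algebraMap O K)) ≫ l')
    (h1 : l (IsLocalRing.closedPoint O) ∈ Set.range M.i1)
    (h2 : l' (IsLocalRing.closedPoint O) ∈ Set.range M.i1) : l = l' := by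
  obtain ⟨t, rfl⟩ := factor M.i1 l h1
  obtain ⟨t', rfl⟩ := factor M.i1 l' h2
  obtain ⟨τ, rfl⟩ := exists_toSA t
  obtain ⟨τ', rfl⟩ := exists_toSA t'
  rw [← Category.assoc, ← Category.assoc, comp_toSA, comp_toSA, cancel_mono] at he
  have h3 := toSA_inj he
  have h4 : τ = τ' := by
    apply RingHom.ext
    intro z
    exact IsFractionRing.injective O K (DFunLike.congr_fun h3 z)
  rw [h4]

lemma Model.mem_of_mem (M : Model H π) (l l' : Spec (CommRingCat.of O) ⟶ X)
    (he : Spec.map (CommRingCat.ofHom (algebraMap O K)) ≫ l =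
      Spec.map (CommRingCat.ofHom (algebraMap O K)) ≫ l')
    (h1 : l (IsLocalRing.closedPoint O) ∈ Set.range M.i1)
    (h2 : l' (IsLocalRing.closedPoint O) ∈ Set.range M.i2) :
    l (IsLocalRing.closedPoint O) ∈ Set.range M.i2 := by
  obtain ⟨t, rfl⟩ := factor M.i1 l h1
  obtain ⟨t', rfl⟩ := factor M.i2 l' h2
  obtain ⟨τ, rfl⟩ := exists_toSA t
  obtain ⟨τ', rfl⟩ := exists_toSA t'
  rw [← Category.assoc, ← Category.assoc, comp_toSA, comp_toSA] at he
  obtain ⟨ω, hω⟩ := exists_toSL (M.overlap.lift _ _ he)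
  have h3 := M.overlap.lift_fst _ _ he
  have h4 := M.overlap.lift_snd _ _ he
  rw [hω, toSL_j1] at h3
  rw [hω, toSL_j2] at h4
  have h5 := toSA_inj h3
  have h6 := toSA_inj h4
  have h7 : algebraMap O K (τ (xx f)) * algebraMap O K (τ' (xx h)) = 1 := by
    have e1 : algebraMap O K (τ (xx f)) = ω (algebraMap (A f) (L f) (xx f)) :=
      (DFunLike.congr_fun h5 (xx f)).symm
    have e2 : algebraMap O K (τ' (xx h)) = ω (xinv f) :=
      (DFunLike.congr_fun h6 (xx h)).symm.trans (congrArg ω (swap_x H))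
    rw [e1, e2, ← map_mul, x_mul_xinv, map_one]
  have h8 : τ (xx f) * τ' (xx h) = 1 := by
    apply IsFractionRing.injective O K
    rw [map_mul, h7, map_one]
  obtain ⟨ω', hω'⟩ := exists_ext f τ (IsUnit.of_mul_eq_one _ h8)
  rw [← hω', ← toSL_j1, Category.assoc, M.overlap.w, ← Category.assoc]
  exact ⟨_, rfl⟩

lemma Model.unique (M : Model H π) (l l' : Spec (CommRingCat.of O) ⟶ X)
    (he : Spec.map (CommRingCat.ofHom (algebraMap O K)) ≫ l =
      Spec.map (CommRingCat.ofHom (algebraMap O K)) ≫ l') : l = l' := by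
  rcases M.cover (l (IsLocalRing.closedPoint O)) with h1 | h1 <;>
  rcases M.cover (l' (IsLocalRing.closedPoint O)) with h2 | h2
  · exact M.unique_aux l l' he h1 h2
  · exact M.symm.unique_aux l l' he (M.mem_of_mem l l' he h1 h2) h2
  · exact M.symm.unique_aux l l' he h1 (M.mem_of_mem l' l he.symm h2 h1)
  · exact M.symm.unique_aux l l' he h1 h2

end valuative

section proper

variable {R : Type} [CommRing R] {g : ℕ} {f h : R[X]} {H : Rel g f h} {X : Scheme.{0}}
  {π : X ⟶ SB R}

lemma Model.valuative (M : Model H π) : ValuativeCriterion π := by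
  rw [ValuativeCriterion.iff]
  constructor
  · intro S
    obtain ⟨ρ, hρ⟩ := exists_hom S.i₂
    have sq := S.commSq.w
    rw [hρ] at sq
    have key : ∃ l : Spec (CommRingCat.of S.R) ⟶ X,
        Spec.map (CommRingCat.ofHom (algebraMap S.R S.K)) ≫ l = S.i₁ ∧
        l ≫ π = Spec.map (CommRingCat.ofHom ρ) := by
      rcases M.cover (S.i₁ (IsLocalRing.closedPoint S.K)) with h1 | h1
      · exact M.exists_lift_of_mem S.i₁ ρ sq h1
      · exact M.symm.exists_lift_of_mem S.i₁ ρ sq h1
    obtain ⟨l, h1, h2⟩ := key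
    exact ⟨⟨⟨l, h1, h2.trans hρ.symm⟩⟩⟩
  · intro S
    refine ⟨fun a b => ?_⟩
    ext1
    exact M.unique a.l b.l (a.fac_left.trans b.fac_left.symm)

instance (f : R[X]) : CompactSpace (SA f) :=
  inferInstanceAs (CompactSpace (Spec (CommRingCat.of (A f))))

instance (f : R[X]) : CompactSpace (SL f) :=
  inferInstanceAs (CompactSpace (Spec (CommRingCat.of (L f))))

instance (f : R[X]) : IsAffine (SA f) :=
  inferInstanceAs (IsAffine (Spec (CommRingCat.of (A f))))

instance (f : R[X]) : IsAffine (SL f) :=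
  inferInstanceAs (IsAffine (Spec (CommRingCat.of (L f))))

lemma Model.compactSpace (M : Model H π) : CompactSpace X := by
  refine ⟨?_⟩
  have h1 : (Set.univ : Set X) = Set.range M.i1 ∪ Set.range M.i2 := by
    ext x
    simp only [Set.mem_univ, true_iff]
    exact M.cover x
  rw [h1]
  exact (isCompact_range M.i1.continuous).union (isCompact_range M.i2.continuous)

lemma Model.range_inter (M : Model H π) :
    Set.range M.i1 ∩ Set.range M.i2 = Set.range (j1 f ≫ M.i1) := by
  ext x
  constructor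
  · rintro ⟨⟨a, ha⟩, ⟨b, hb⟩⟩
    obtain ⟨w, hw, _⟩ := Scheme.exists_preimage_of_isPullback M.overlap a b (ha.trans hb.symm)
    exact ⟨w, by rw [Scheme.Hom.comp_apply]; exact (congrArg _ hw).trans ha⟩
  · rintro ⟨w, rfl⟩
    refine ⟨⟨j1 f w, by rw [Scheme.Hom.comp_apply]⟩, ⟨j2 H w, ?_⟩⟩
    rw [M.overlap.w, Scheme.Hom.comp_apply]

/-- The two charts as open subsets. -/
noncomputable def Model.U (M : Model H π) : Bool → X.Opens
  | true => M.i1.opensRange
  | false => M.i2.opensRange

lemma Model.quasiSeparatedSpace (M : Model H π) : QuasiSeparatedSpace X := by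
  have h2 : IsCompact (Set.range M.i1 ∩ Set.range M.i2) := by
    rw [M.range_inter]
    exact isCompact_range (j1 f ≫ M.i1).continuous
  refine Scheme.quasiSeparatedSpace_of_isOpenCover M.U ?_ ?_ ?_
  · rw [TopologicalSpace.IsOpenCover, eq_top_iff]
    intro x _
    rw [TopologicalSpace.Opens.mem_iSup]
    rcases M.cover x with h | h
    · exact ⟨true, h⟩
    · exact ⟨false, h⟩
  · intro c
    match c with
    | true => exact isAffineOpen_opensRange M.i1
    | false => exact isAffineOpen_opensRange M.i2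
  · intro c d
    match c, d with
    | true, true =>
      rw [Set.inter_self]
      exact isCompact_range M.i1.continuous
    | false, false =>
      rw [Set.inter_self]
      exact isCompact_range M.i2.continuous
    | true, false => exact h2
    | false, true =>
      rw [Set.inter_comm]
      exact h2

/-- The curve is proper. -/
lemma Model.proper (M : Model H π) (h2 : IsUnit (2 : R)) (hf : IsCoprime f (derivative f))
    (hh : IsCoprime h (derivative h)) : IsProper π := by
  have h1 := M.smooth h2 hf hh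
  have h3 := SmoothOfRelativeDimension.smooth 1 π
  have h4 := M.compactSpace
  have h5 := M.quasiSeparatedSpace
  have h6 : QuasiSeparated π := inferInstance
  have h7 : QuasiCompact π := inferInstance
  have h8 : LocallyOfFiniteType π := inferInstance
  exact IsProper.of_valuativeCriterion π M.valuative

end proper

end Pool.Agent.TH188.MG
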