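import Mathlib

/-!
# The affine charts of hyperelliptic curves

`A f = R[x, y] / (y² - f(x))`, its localization `L f` at `x`, and the change of charts
`u = 1/x`, `v = y/x^(g+1)`.
-/

set_option autoImplicit false

open Polynomial

namespace Pool.Agent.TH188.MG

section basic

variable {R : Type} [CommRing R]

/-- The polynomial `y² - f(x)` in `R[x][y]`. -/
noncomputable def pol (f : R[X]) : R[X][X] := X ^ 2 - C f

/-- The coordinate ring of the affine curve `y² = f(x)`. -/
abbrev A (f : R[X]) : Type := AdjoinRoot (pol f)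

/-- The coordinate function `x`. -/
noncomputable def xx (f : R[X]) : A f := AdjoinRoot.of (pol f) X

/-- The coordinate function `y`. -/
noncomputable def yy (f : R[X]) : A f := AdjoinRoot.root (pol f)

lemma pol_monic (f : R[X]) : (pol f).Monic := by
  unfold pol
  exact monic_X_pow_sub_C f two_ne_zero

lemma eval_pol (f : R[X]) {E : Type*} [CommRing E] (g : R[X] →+* E) (b : E) :
    (pol f).eval₂ g b = b ^ 2 - g f := by
  rw [pol, eval₂_sub, eval₂_pow, eval₂_X, eval₂_C]

lemma of_eq_aeval (f p : R[X]) : AdjoinRoot.of (pol f) p = aeval (xx f) p := by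
  induction p using Polynomial.induction_on' with
  | add p q hp hq => simp only [map_add, hp, hq]
  | monomial n a =>
    rw [aeval_monomial, ← C_mul_X_pow_eq_monomial, map_mul, map_pow]
    rfl

lemma rel (f : R[X]) : yy f ^ 2 = aeval (xx f) f := by
  have h := AdjoinRoot.eval₂_root (pol f)
  rw [eval_pol, of_eq_aeval] at h
  unfold yy
  linear_combination h

/-- Universal property of `A f`. -/
noncomputable def lift {E : Type*} [CommRing E] [Algebra R E] (f : R[X]) (a b : E)
    (h : b ^ 2 = aeval a f) : A f →ₐ[R] E :=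
  AdjoinRoot.liftAlgHom (pol f) (Polynomial.aeval a) b (by
    rw [eval_pol, h]
    exact sub_self _)

@[simp] lemma lift_y {E : Type*} [CommRing E] [Algebra R E] (f : R[X]) (a b : E)
    (h : b ^ 2 = aeval a f) : lift f a b h (yy f) = b := by
  simp [lift, yy]

@[simp] lemma lift_x {E : Type*} [CommRing E] [Algebra R E] (f : R[X]) (a b : E)
    (h : b ^ 2 = aeval a f) : lift f a b h (xx f) = a := by
  simp [lift, xx]

lemma ring_ext {E : Type*} [CommRing E] {f : R[X]} {s t : A f →+* E}
    (h0 : s.comp (algebraMap R (A f)) = t.comp (algebraMap R (A f)))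
    (h1 : s (xx f) = t (xx f)) (h2 : s (yy f) = t (yy f)) : s = t := by
  have h3 : ∀ a : R[X], s (AdjoinRoot.of (pol f) a) = t (AdjoinRoot.of (pol f) a) := by
    intro a
    induction a using Polynomial.induction_on' with
    | add p q hp hq => simp only [map_add, hp, hq]
    | monomial m r =>
      have e : AdjoinRoot.of (pol f) (monomial m r) = algebraMap R (A f) r * xx f ^ m := by
        rw [← C_mul_X_pow_eq_monomial, map_mul, map_pow]
        rfl
      rw [e, map_mul, map_mul, map_pow, map_pow, h1]
      congr 1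
      exact DFunLike.congr_fun h0 r
  apply RingHom.ext
  intro z
  obtain ⟨p, rfl⟩ := AdjoinRoot.mk_surjective z
  induction p using Polynomial.induction_on' with
  | add p q hp hq => simp only [map_add, hp, hq]
  | monomial n a =>
    have e : AdjoinRoot.mk (pol f) (monomial n a) = AdjoinRoot.of (pol f) a * yy f ^ n := by
      rw [← C_mul_X_pow_eq_monomial, map_mul, map_pow, AdjoinRoot.mk_X, AdjoinRoot.mk_C]
      rfl
    rw [e, map_mul, map_mul, map_pow, map_pow, h2, h3]

lemma ext_A {E : Type*} [CommRing E] [Algebra R E] {f : R[X]} {s t : A f →ₐ[R] E}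
    (h1 : s (xx f) = t (xx f)) (h2 : s (yy f) = t (yy f)) : s = t := by
  have : (s : A f →+* E) = t := ring_ext (by
    ext r
    simp) h1 h2
  exact AlgHom.coe_ringHom_injective this

/-- The localization of the chart at the coordinate function `x`. -/
abbrev L (f : R[X]) : Type := Localization.Away (xx f)

/-- The function `1/x`. -/
noncomputable def xinv (f : R[X]) : L f := IsLocalization.Away.invSelf (xx f)

lemma x_mul_xinv (f : R[X]) : algebraMap (A f) (L f) (xx f) * xinv f = 1 :=
  IsLocalization.Away.mul_invSelf (xx f)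

/-- The ring homomorphism from `L f` given by one from `A f` which makes `x` invertible. -/
lemma lring_ext {E : Type*} [CommRing E] {f : R[X]} {s t : L f →+* E}
    (h : s.comp (algebraMap (A f) (L f)) = t.comp (algebraMap (A f) (L f))) : s = t :=
  IsLocalization.ringHom_ext (Submonoid.powers (xx f)) h

end basic

section swap

variable {R : Type} [CommRing R]

/-- `h(u) = u^(2g+2) f(1/u)`. -/
structure Rel (g : ℕ) (f h : R[X]) : Prop where
  deg : f.natDegree ≤ 2 * g + 2
  eq : h = reflect (2 * g + 2) f

lemma Rel.symm {g : ℕ} {f h : R[X]} (H : Rel g f h) : Rel g h f where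
  deg := by
    rw [H.eq]
    exact (natDegree_reflect_le).trans (max_le le_rfl H.deg)
  eq := by rw [H.eq, reflect_reflect]

lemma Rel.map {R' : Type} [CommRing R'] (φ : R →+* R') {g : ℕ} {f h : R[X]} (H : Rel g f h) :
    Rel g (f.map φ) (h.map φ) where
  deg := (natDegree_map_le).trans H.deg
  eq := by rw [H.eq, reflect_map]

lemma Rel.aeval_eq {E : Type*} [CommRing E] [Algebra R E] {g : ℕ} {f h : R[X]}
    (H : Rel g f h) (a b : E) (hab : a * b = 1) :
    aeval b h = b ^ (2 * g + 2) * aeval a f := by
  rw [H.eq]
  let _ : Invertible a := ⟨b, by rw [mul_comm]; exact hab, hab⟩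
  have h1 := eval₂_reflect_mul_pow (algebraMap R E) a (2 * g + 2) f H.deg
  have h2 : ⅟a = b := rfl
  rw [h2] at h1
  have h3 : b ^ (2 * g + 2) * a ^ (2 * g + 2) = 1 := by
    rw [← mul_pow, mul_comm b a, hab, one_pow]
  calc aeval b (reflect (2 * g + 2) f)
      = (aeval b (reflect (2 * g + 2) f) * a ^ (2 * g + 2)) * b ^ (2 * g + 2) := by
        rw [mul_assoc, mul_comm (a ^ _), h3, mul_one]
    _ = b ^ (2 * g + 2) * aeval a f := by
        rw [mul_comm]
        congr 1

/-- The change of charts: `u ↦ 1/x`, `v ↦ y/x^(g+1)`. -/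
noncomputable def swap {g : ℕ} {f h : R[X]} (H : Rel g f h) : A h →ₐ[R] L f :=
  lift h (xinv f) (algebraMap (A f) (L f) (yy f) * xinv f ^ (g + 1)) (by
    rw [H.aeval_eq _ _ (x_mul_xinv f), mul_pow, ← map_pow, rel, ← pow_mul,
      show (g + 1) * 2 = 2 * g + 2 by ring, mul_comm (xinv f ^ _)]
    congr 1
    exact (aeval_algebraMap_apply (L f) (xx f) f).symm)

lemma swap_x {g : ℕ} {f h : R[X]} (H : Rel g f h) : swap H (xx h) = xinv f := lift_x _ _ _ _

lemma swap_y {g : ℕ} {f h : R[X]} (H : Rel g f h) :
    swap H (yy h) = algebraMap (A f) (L f) (yy f) * xinv f ^ (g + 1) := lift_y _ _ _ _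

lemma isUnit_swap_x {g : ℕ} {f h : R[X]} (H : Rel g f h) : IsUnit (swap H (xx h)) := by
  rw [swap_x]
  exact IsUnit.of_mul_eq_one _ ((mul_comm _ _).trans (x_mul_xinv f))

/-- The extension of the change of charts to the localization. -/
noncomputable def swapL {g : ℕ} {f h : R[X]} (H : Rel g f h) : L h →+* L f :=
  IsLocalization.Away.lift (xx h) (g := (swap H).toRingHom) (isUnit_swap_x H)

lemma swapL_alg {g : ℕ} {f h : R[X]} (H : Rel g f h) (z : A h) :
    swapL H (algebraMap (A h) (L h) z) = swap H z :=
  IsLocalization.Away.lift_eq _ _ _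

lemma swapL_xinv {g : ℕ} {f h : R[X]} (H : Rel g f h) :
    swapL H (xinv h) = algebraMap (A f) (L f) (xx f) := by
  have h1 := congrArg (swapL H) (x_mul_xinv h)
  rw [map_mul, swapL_alg, swap_x, map_one] at h1
  calc swapL H (xinv h) = (algebraMap (A f) (L f) (xx f) * xinv f) * swapL H (xinv h) := by
        rw [x_mul_xinv, one_mul]
    _ = algebraMap (A f) (L f) (xx f) := by rw [mul_assoc, h1, mul_one]

lemma swapL_swap {g : ℕ} {f h : R[X]} (H : Rel g f h) (z : A f) :
    swapL H (swap H.symm z) = algebraMap (A f) (L f) z := by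
  have key : (swapL H).comp (swap H.symm).toRingHom = algebraMap (A f) (L f) := by
    apply ring_ext
    · ext r
      simp only [AlgHom.toRingHom_eq_coe, RingHom.coe_comp, RingHom.coe_coe, Function.comp_apply,
        AlgHom.commutes]
      rw [IsScalarTower.algebraMap_apply R (A h) (L h), swapL_alg, AlgHom.commutes,
        ← IsScalarTower.algebraMap_apply R (A f) (L f)]
    · simp only [AlgHom.toRingHom_eq_coe, RingHom.coe_comp, RingHom.coe_coe, Function.comp_apply]
      rw [swap_x, swapL_xinv]
    · simp only [AlgHom.toRingHom_eq_coe, RingHom.coe_comp, RingHom.coe_coe, Function.comp_apply]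
      rw [swap_y, map_mul, map_pow, swapL_alg, swap_y, swapL_xinv, mul_assoc, ← mul_pow,
        mul_comm (xinv f), x_mul_xinv, one_pow, mul_one]
  exact DFunLike.congr_fun key z

/-- The change of charts as an isomorphism of the localizations. -/
noncomputable def swapE {g : ℕ} {f h : R[X]} (H : Rel g f h) : L h ≃+* L f :=
  RingEquiv.ofRingHom (swapL H) (swapL H.symm)
    (lring_ext (by
      apply RingHom.ext
      intro z
      simp only [RingHom.coe_comp, Function.comp_apply, RingHom.id_apply, RingHom.id_comp]
      rw [swapL_alg]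
      exact swapL_swap H z))
    (lring_ext (by
      apply RingHom.ext
      intro z
      simp only [RingHom.coe_comp, Function.comp_apply, RingHom.id_apply, RingHom.id_comp]
      rw [swapL_alg]
      exact swapL_swap H.symm z))

lemma swapE_alg {g : ℕ} {f h : R[X]} (H : Rel g f h) (z : A h) :
    swapE H (algebraMap (A h) (L h) z) = swap H z := swapL_alg H z

/-- `L f` is the localization of `A h` at the function `u = 1/x`. -/
lemma isLocalization_swap {g : ℕ} {f h : R[X]} (H : Rel g f h) :
    letI := (swap H).toRingHom.toAlgebra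
    IsLocalization.Away (xx h) (L f) := by
  letI := (swap H).toRingHom.toAlgebra
  let e : L h ≃ₐ[A h] L f := AlgEquiv.ofRingEquiv (f := swapE H) (fun z => swapE_alg H z)
  exact IsLocalization.isLocalization_of_algEquiv (Submonoid.powers (xx h)) e

end swap

end Pool.Agent.TH188.MG
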