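import Pool.Agent.TH188.MG.Model

/-!
# Smoothness of the charts
-/

set_option autoImplicit false

open Polynomial CategoryTheory CategoryTheory.Limits AlgebraicGeometry

namespace Pool.Agent.TH188.MG

section general

variable {R S ι σ : Type} [CommRing R] [CommRing S] [Algebra R S] [Finite ι] [Finite σ]

/-- The ring obtained by inverting the jacobian is standard smooth. -/
lemma smooth_away_jacobian (P : Algebra.PreSubmersivePresentation R S ι σ) (n : ℕ)
    (hn : P.dimension = n) (J : S) (hJ : P.jacobian = J) :
    Algebra.IsStandardSmoothOfRelativeDimension n R (Localization.Away J) := by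
  subst hJ
  let Q : Algebra.PreSubmersivePresentation S (Localization.Away P.jacobian) Unit Unit :=
    Algebra.PreSubmersivePresentation.localizationAway (Localization.Away P.jacobian) P.jacobian
  let T : Algebra.SubmersivePresentation R (Localization.Away P.jacobian) (Unit ⊕ ι) (Unit ⊕ σ) :=
    { Q.comp P with
      jacobian_isUnit := by
        have h1 := Algebra.PreSubmersivePresentation.comp_jacobian_eq_jacobian_smul_jacobian Q P
        have h2 : (Q.comp P).jacobian = algebraMap S (Localization.Away P.jacobian) P.jacobian *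
            algebraMap S (Localization.Away P.jacobian) P.jacobian := by
          rw [h1, Algebra.PreSubmersivePresentation.localizationAway_jacobian, Algebra.smul_def]
        have h3 : IsUnit (algebraMap S (Localization.Away P.jacobian) P.jacobian) :=
          IsLocalization.Away.algebraMap_isUnit P.jacobian
        exact h2 ▸ h3.mul h3 }
  apply T.isStandardSmoothOfRelativeDimension
  have h4 := Algebra.PreSubmersivePresentation.dimension_comp_eq_dimension_add_dimension Q P
  have h5 : T.dimension = (Q.comp P).dimension := rfl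
  have h6 : Q.dimension = 0 := by
    change Nat.card Unit - Nat.card Unit = 0
    exact Nat.sub_self _
  rw [h5, h4, h6, zero_add, hn]

end general

section chart

variable {R : Type} [CommRing R] (f : R[X])

/-- The equation of the chart. -/
noncomputable def eqn : Unit → MvPolynomial (Fin 2) R :=
  fun _ => MvPolynomial.X 1 ^ 2 - aeval (MvPolynomial.X 0) f

/-- The quotient of the polynomial ring. -/
abbrev Q2 : Type := MvPolynomial (Fin 2) R ⧸ Ideal.span (Set.range (eqn f))

lemma mk_eqn : (Ideal.Quotient.mk (Ideal.span (Set.range (eqn f)))) (MvPolynomial.X 1) ^ 2 =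
    aeval ((Ideal.Quotient.mk (Ideal.span (Set.range (eqn f)))) (MvPolynomial.X 0)) f := by
  have h1 : (Ideal.Quotient.mk (Ideal.span (Set.range (eqn f)))) (eqn f ()) = 0 :=
    Ideal.Quotient.eq_zero_iff_mem.2 (Ideal.subset_span ⟨(), rfl⟩)
  rw [eqn, map_sub, map_pow, sub_eq_zero] at h1
  rw [h1]
  exact (aeval_algebraMap_apply (Q2 f) (MvPolynomial.X 0) f).symm

/-- The map from the quotient. -/
noncomputable def toA : Q2 f →ₐ[R] A f :=
  Ideal.Quotient.liftₐ _ (MvPolynomial.aeval ![xx f, yy f]) (by
    intro a ha
    have h1 : Ideal.span (Set.range (eqn f)) ≤ RingHom.ker (MvPolynomial.aeval ![xx f, yy f]) := by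
      rw [Ideal.span_le]
      rintro _ ⟨_, rfl⟩
      simp only [SetLike.mem_coe, RingHom.mem_ker, eqn, map_sub, map_pow]
      rw [← aeval_algHom_apply]
      simp [rel]
    exact h1 ha)

lemma toA_mk (p : MvPolynomial (Fin 2) R) :
    toA f (Ideal.Quotient.mk _ p) = MvPolynomial.aeval ![xx f, yy f] p := rfl

/-- The chart as a quotient of a polynomial ring in two variables. -/
noncomputable def q2Equiv : Q2 f ≃ₐ[R] A f :=
  AlgEquiv.ofAlgHom (toA f)
    (lift f (Ideal.Quotient.mk _ (MvPolynomial.X 0)) (Ideal.Quotient.mk _ (MvPolynomial.X 1))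
      (mk_eqn f))
    (by
      apply ext_A
      · simp [toA_mk]
      · simp [toA_mk])
    (by
      apply Ideal.Quotient.algHom_ext
      apply MvPolynomial.algHom_ext
      intro i
      fin_cases i
      · simp [toA_mk]
      · simp [toA_mk])

lemma inj_const (i : Fin 2) : Function.Injective (fun _ : Unit => i) :=
  fun a b _ => Subsingleton.elim a b

/-- The naive presentation -/
noncomputable def pres0 (i : Fin 2) :
    Algebra.PreSubmersivePresentation R (Q2 f) (Fin 2) Unit :=
  Algebra.PreSubmersivePresentation.naive (v := eqn f) (fun _ : Unit => i) (inj_const i)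

/-- The presentation, with the variable of the jacobian. -/
noncomputable def pres (i : Fin 2) : Algebra.PreSubmersivePresentation R (A f) (Fin 2) Unit :=
  (pres0 f i).ofAlgEquiv (q2Equiv f)

lemma pres0_mat (i : Fin 2) :
    (pres0 f i).jacobiMatrix () () = (MvPolynomial.pderiv i) (eqn f ()) := by
  unfold pres0
  rw [Algebra.PreSubmersivePresentation.jacobiMatrix_naive]

lemma pres_jac (i : Fin 2) : (pres f i).jacobian =
    MvPolynomial.aeval ![xx f, yy f] ((MvPolynomial.pderiv i) (eqn f ())) := by
  unfold pres
  rw [Algebra.PreSubmersivePresentation.jacobian_ofAlgEquiv,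
    Algebra.PreSubmersivePresentation.jacobian_eq_jacobiMatrix_det, Matrix.det_unique]
  rw [← toA_mk, ← pres0_mat]
  rfl

lemma pres_jac0 : (pres f 0).jacobian = - aeval (xx f) (derivative f) := by
  rw [pres_jac, eqn, map_sub, Derivation.map_aeval, map_sub]
  have h1 : MvPolynomial.aeval ![xx f, yy f]
      (aeval (MvPolynomial.X 0 : MvPolynomial (Fin 2) R) (derivative f)) =
      aeval (xx f) (derivative f) := by
    rw [← aeval_algHom_apply]
    simp
  simp [h1]

lemma pres_jac1 : (pres f 1).jacobian = 2 * yy f := by
  rw [pres_jac, eqn, map_sub, Derivation.map_aeval]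
  simp

lemma pres_dim (i : Fin 2) : (pres f i).dimension = 1 := by
  change Nat.card (Fin 2) - Nat.card Unit = 1
  simp

lemma smooth_ring (t : A f) (i : Fin 2) (ht : (pres f i).jacobian = t) :
    (algebraMap (A f) (Localization.Away t)).comp (algebraMap R (A f)) |>.IsStandardSmoothOfRelativeDimension 1 := by
  have h3 := smooth_away_jacobian (pres f i) 1 (pres_dim f i) t ht
  have h4 := (RingHom.isStandardSmoothOfRelativeDimension_algebraMap 1).2 h3
  rw [IsScalarTower.algebraMap_eq R (A f)] at h4
  exact h4

/-- The chart is smooth of relative dimension one. -/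
lemma smooth_st (h2 : IsUnit (2 : R)) (hc : IsCoprime f (derivative f)) :
    SmoothOfRelativeDimension 1 (st f) := by
  change @SmoothOfRelativeDimension 1 (Spec (CommRingCat.of (A f))) (Spec (CommRingCat.of R))
    (Spec.map (CommRingCat.ofHom (algebraMap R (A f))))
  rw [HasRingHomProperty.Spec_iff (P := @SmoothOfRelativeDimension 1)]
  refine ⟨{(pres f 0).jacobian, (pres f 1).jacobian}, ?_, ?_⟩
  · rw [Ideal.eq_top_iff_one]
    obtain ⟨a, b, hab⟩ := hc
    obtain ⟨c, hc⟩ := h2.exists_right_inv
    have h3 := congrArg (aeval (xx f)) hab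
    rw [map_add, map_mul, map_mul, map_one, ← rel] at h3
    have h4 := congrArg (algebraMap R (A f)) hc
    rw [map_mul, map_ofNat, map_one] at h4
    have h5 : (1 : A f) = (- aeval (xx f) b) * (pres f 0).jacobian +
        (aeval (xx f) a * yy f * algebraMap R (A f) c) * (pres f 1).jacobian := by
      rw [pres_jac0, pres_jac1]
      linear_combination (-1 : A f) * h3 - aeval (xx f) a * yy f ^ 2 * h4
    rw [h5]
    exact Ideal.add_mem _ (Ideal.mul_mem_left _ _ (Ideal.subset_span (by simp)))
      (Ideal.mul_mem_left _ _ (Ideal.subset_span (by simp)))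
  · rintro s (rfl | hs)
    · exact smooth_ring f _ 0 rfl
    · rw [Set.mem_singleton_iff] at hs
      exact smooth_ring f s 1 hs.symm

end chart

section model

variable {R : Type} [CommRing R] {g : ℕ} {f h : R[X]} {H : Rel g f h} {X : Scheme.{0}}
  {π : X ⟶ SB R}

/-- The curve is smooth of relative dimension one. -/
lemma Model.smooth (M : Model H π) (h2 : IsUnit (2 : R)) (hf : IsCoprime f (derivative f))
    (hh : IsCoprime h (derivative h)) : SmoothOfRelativeDimension 1 π := by
  have : IsZariskiLocalAtSource (P := @SmoothOfRelativeDimension.{0} 1) :=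
    HasRingHomProperty.instIsZariskiLocalAtSource
  refine of_cov2 (@SmoothOfRelativeDimension.{0} 1) π M.i1 M.i2 M.cover ?_ ?_
  · rw [M.st1]
    exact smooth_st f h2 hf
  · rw [M.st2]
    exact smooth_st h h2 hh

end model

end Pool.Agent.TH188.MG
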